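import Mathlib

/-! The counting bounds in logarithmic form. -/

namespace Pool.Agent.MP_2a5a28_nt.H39

open Finset

/-- Exponents of the items. -/
def ex (K j : ℕ) : ℕ := if j = K then 1 else j + 1

/-- Three distinct roles. -/
def Roles (a b c : ℕ) : Prop := a < 3 ∧ b < 3 ∧ c < 3 ∧ a ≠ b ∧ a ≠ c ∧ b ≠ c

instance (a b c : ℕ) : Decidable (Roles a b c) := by unfold Roles; infer_instance

/-- The sum over the items with label `τ`. -/
noncomputable def SL (n : ℕ) (s : ℕ → ℝ) (l : ℕ → ℕ) (τ : ℕ) : ℝ :=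
  ∑ j ∈ range n, if l j = τ then s j else 0

/-- The cost of an unknown of size `s` with moment `n` modulo a divisor of size `Q`. -/
noncomputable def cost (s : ℝ) (n : ℕ) (Q : ℝ) : ℝ := max (s / 2) (s - Q / (2 * n))

/-- The trivial, lattice and Cauchy-Schwarz bounds. `D t j i` says that item `j` of role `t` is an
`i`-th power. -/
structure PC (n K : ℕ) (D : ℕ → ℕ → ℕ → Prop) (s w : ℕ → ℕ → ℝ) (L z : ℝ) : Prop where
  hT : ∀ a b c, Roles a b c → z ≤ ∑ j ∈ range n, s b j + ∑ j ∈ range n, s c j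
  hP : ∀ a b c, Roles a b c → ∀ i : ℕ, 1 ≤ i → i ≤ K → ∀ la lb lc : ℕ → ℕ,
    (∀ j < n, (la j = 0 ∨ la j = 3 ∧ D a j i) ∧ (lb j = 0 ∨ lb j = 3 ∧ D b j i) ∧
      (lc j = 0 ∨ lc j = 3)) →
    z ≤ SL n (s a) la 0 + SL n (s b) lb 0 + SL n (s c) lc 0 ∨
    z ≤ SL n (s a) la 0 + SL n (s b) lb 0 + SL n (s c) lc 0 +
      ((SL n (w a) la 3 + SL n (w b) lb 3) / i + SL n (w c) lc 3 - L)
  hC : ∀ a b c, Roles a b c → ∀ i g : ℕ, i ≤ K → 1 ≤ g → g ≤ K → ∀ la lb lc : ℕ → ℕ,
    (∀ j < n, (la j ≤ 2 ∨ la j = 3 ∧ D a j i) ∧ (lb j = 0 ∨ lb j = 2 ∨ lb j = 3 ∧ D b j g) ∧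
      (lc j ≤ 2 ∨ lc j = 3 ∧ D c j g)) →
    ((∀ j < n, la j ≠ 3) ∨ (2 ≤ i ∧ ∀ j < n, lc j ≠ 0 ∧ lc j ≠ 3)) →
    z ≤ SL n (s a) la 1 + SL n (s a) la 0 + SL n (s b) lb 0 + SL n (s c) lc 1 + SL n (s c) lc 0 ∨
    2 * z ≤ (SL n (s a) la 1 + SL n (s a) la 0 + SL n (s b) lb 0 + SL n (s c) lc 1 +
      SL n (s c) lc 0) + (SL n (s a) la 1 + SL n (s c) lc 1 +
        2 * (SL n (s a) la 2 + SL n (s b) lb 2 + SL n (s c) lc 2)) ∨
    2 * z ≤ (SL n (s a) la 1 + SL n (s a) la 0 + SL n (s b) lb 0 + SL n (s c) lc 1 +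
      SL n (s c) lc 0) + (SL n (s a) la 1 + SL n (s c) lc 1 +
        2 * (SL n (s a) la 2 + SL n (s b) lb 2 + SL n (s c) lc 2)) +
      (2 * ((SL n (w b) lb 3 + SL n (w c) lc 3) / g) +
        (SL n (w a) la 0 + SL n (w a) la 2 + SL n (w a) la 3) - L)

/-- The bound by characters. -/
def RH (K N : ℕ) (s w : ℕ → ℕ → ℝ) (z : ℝ) : Prop :=
  ∀ a b c, Roles a b c → ∀ lc na nb : ℕ → ℕ, (∀ j, na j ≤ N ∧ nb j ≤ N) → na K = 0 → nb K = 0 →
    ∑ j ∈ range (K + 1), 1 / (2 * (na j : ℝ)) + ∑ j ∈ range (K + 1), 1 / (2 * (nb j : ℝ)) ≤ 1 →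
    z ≤ SL (K + 1) (s c) lc 1 + (∑ j ∈ range (K + 1), cost (s a j) (na j) (SL (K + 1) (w c) lc 1) +
      ∑ j ∈ range (K + 1), cost (s b j) (nb j) (SL (K + 1) (w c) lc 1))

theorem cost_zero {s : ℝ} (hs : 0 ≤ s) (Q : ℝ) : cost s 0 Q = s := by
  simp only [cost, Nat.cast_zero, mul_zero, div_zero, sub_zero]
  exact max_eq_right (by linarith)

end Pool.Agent.MP_2a5a28_nt.H39

/-! Reduction to six items for each role: exponents one to four, the largest remaining item, and
all other items. -/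

namespace Pool.Agent.MP_2a5a28_nt.H39

open Finset

/-- Which of the six items are `i`-th powers. -/
def vD (e : ℕ → ℕ) (t v i : ℕ) : Prop := if v < 4 then i ∣ v + 1 else if v = 4 then i ∣ e t else i = 1

/-- All bounds for the six items. -/
structure VT (K : ℕ) (e : ℕ → ℕ) (s w : ℕ → ℕ → ℝ) (L z : ℝ) : Prop where
  pc : PC 6 K (vD e) s w L z
  hK : 4 ≤ K
  he : ∀ t < 3, 5 ≤ e t ∧ e t ≤ K
  s0 : ∀ t < 3, ∀ v, 0 ≤ s t v
  w0 : ∀ t < 3, ∀ v, 0 ≤ w t v
  hw : ∀ t < 3, ∀ v < 4, w t v = (v + 1 : ℕ) * s t v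
  hA : ∀ t < 3, w t 4 = e t * s t 4
  hB : ∀ t < 3, 5 * s t 5 ≤ w t 5 ∧ 6 * s t 5 ≤ w t 5 + s t 4 ∧
    6 * (s t 4 + s t 5) ≤ w t 4 + w t 5 + s t 4
  hL : ∀ t < 3, ∑ v ∈ range 6, w t v ≤ L
  hH : ∀ a b c, Roles a b c → ∀ (lc ga gb na nb : ℕ → ℕ) (k : ℕ), (∀ v, na v ≤ 12 ∧ nb v ≤ 12) →
    k ≤ 12 → na 5 = 0 → nb 5 = 0 →
    ∑ v ∈ range 6, 1 / (2 * (na v : ℝ)) + ∑ v ∈ range 6, 1 / (2 * (nb v : ℝ)) + 1 / k ≤ 1 →
    z ≤ SL 6 (s c) lc 1 + (cost (SL 6 (s a) ga 1 + SL 6 (s b) gb 1) k (SL 6 (w c) lc 1) +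
      (∑ v ∈ range 6, cost (if ga v = 1 then 0 else s a v) (na v) (SL 6 (w c) lc 1) +
      ∑ v ∈ range 6, cost (if gb v = 1 then 0 else s b v) (nb v) (SL 6 (w c) lc 1)))
  hT : ∀ a b c, Roles a b c → ∀ r : ℕ, r ≤ 1 →
    w c 4 + w c 5 ≤ ∑ v ∈ range 6, s a v + ∑ v ∈ range 6, s b v ∨
    (5 + r) * z ≤ (5 + r) * (s c 4 + (∑ v ∈ range 6, s a v + ∑ v ∈ range 6, s b v) / 2) +
      (∑ v ∈ range 6, s a v + ∑ v ∈ range 6, s b v) + r * s c 4

/-- The class of an item. -/
def cl (A j : ℕ) : ℕ := if j < 4 then j else if j = A then 4 else 5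

theorem cl_lt (A j : ℕ) : cl A j < 6 := by unfold cl; split_ifs <;> omega

theorem sum_push (n A : ℕ) (F : ℕ → ℕ → ℝ) :
    ∑ j ∈ range n, F (cl A j) j = ∑ v ∈ range 6, SL n (F v) (cl A) v := by
  simp only [SL]
  rw [Finset.sum_comm]
  refine Finset.sum_congr rfl fun j _ => ?_
  rw [Finset.sum_ite_eq, if_pos (Finset.mem_range.2 (cl_lt A j))]

theorem SL_push (n A : ℕ) (f : ℕ → ℝ) (l : ℕ → ℕ) (τ : ℕ) :
    SL n f (fun j => l (cl A j)) τ = SL 6 (SL n f (cl A)) l τ := by
  rw [SL, sum_push n A fun v j => if l v = τ then f j else 0]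
  refine Finset.sum_congr rfl fun v _ => ?_
  split_ifs
  · rfl
  · simp [SL]

theorem SL_one {n A v : ℕ} (h4 : 4 ≤ A) (hA : A < n) (hv : v ≤ 4) (f : ℕ → ℝ) :
    SL n f (cl A) v = f (if v < 4 then v else A) := by
  rw [SL, Finset.sum_eq_single (if v < 4 then v else A)]
  · rw [if_pos]; unfold cl; split_ifs <;> omega
  · intro j _ hj
    rw [if_neg]; revert hj; unfold cl; split_ifs <;> omega
  · intro hj
    exfalso; apply hj; rw [Finset.mem_range]; split_ifs <;> omega

theorem SL_nonneg {n : ℕ} {f : ℕ → ℝ} (hf : ∀ j < n, 0 ≤ f j) (l : ℕ → ℕ) (τ : ℕ) :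
    0 ≤ SL n f l τ :=
  Finset.sum_nonneg fun j hj => by
    split_ifs
    · exact hf j (Finset.mem_range.1 hj)
    · rfl

theorem cost_nonneg {s : ℝ} (hs : 0 ≤ s) (n : ℕ) (Q : ℝ) : 0 ≤ cost s n Q :=
  le_trans (by linarith) (le_max_left _ _)

theorem cost_add {s σ : ℝ} (hσ : 0 ≤ σ) (n : ℕ) (Q : ℝ) :
    cost s n Q + σ ≤ cost (s + σ) n Q + σ / 2 := by
  have h1 : (s + σ) / 2 ≤ cost (s + σ) n Q := le_max_left _ _
  have h2 : (s + σ) - Q / (2 * n) ≤ cost (s + σ) n Q := le_max_right _ _
  have h3 : cost s n Q ≤ cost (s + σ) n Q - σ / 2 := max_le (by linarith) (by linarith)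
  linarith

theorem piece {x β Q : ℝ} (k : ℕ) (hx : 0 < x) (hβ : x ≤ β) (hQ : 0 ≤ Q) :
    (⌈k * β / (2 * x)⌉₊ : ℝ) * x ≤ k * β ∧ 1 / (2 * (⌈k * β / (2 * x)⌉₊ : ℝ)) ≤ x / β * (1 / k) ∧
      cost x ⌈k * β / (2 * x)⌉₊ Q ≤ x / β * cost β k Q := by
  have hβ0 : 0 < β := by linarith
  rcases Nat.eq_zero_or_pos k with rfl | hk
  · simp only [Nat.cast_zero, zero_mul, zero_div, Nat.ceil_zero, mul_zero, div_zero, le_refl,
      true_and]
    rw [cost_zero hx.le, cost_zero hβ0.le, div_mul_cancel₀ _ hβ0.ne']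
  have hk' : (1 : ℝ) ≤ k := by exact_mod_cast hk
  obtain ⟨y, hy⟩ : ∃ y, y = k * β / (2 * x) := ⟨_, rfl⟩
  have e : y * (2 * x) = k * β := by rw [hy]; field_simp
  have hy0 : 1 / 2 ≤ y := by
    rw [hy, le_div_iff₀ (by positivity)]; nlinarith
  rw [← hy]
  have h1 : y ≤ ⌈y⌉₊ := Nat.le_ceil y
  have h2 : (⌈y⌉₊ : ℝ) ≤ 2 * y := by
    rcases le_total y 1 with h | h
    · have : ⌈y⌉₊ ≤ 1 := Nat.ceil_le.2 (by exact_mod_cast h)
      have : (⌈y⌉₊ : ℝ) ≤ 1 := by exact_mod_cast this
      linarith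
    · have := Nat.ceil_lt_add_one (by linarith : 0 ≤ y)
      linarith
  have h0 : (0 : ℝ) < ⌈y⌉₊ := by linarith
  refine ⟨by nlinarith, ?_, max_le ?_ ?_⟩
  · rw [div_mul_div_comm, div_le_div_iff₀ (by positivity) (by positivity)]
    nlinarith
  · calc x / 2 = x / β * (β / 2) := by field_simp
      _ ≤ _ := mul_le_mul_of_nonneg_left (le_max_left _ _) (by positivity)
  · refine le_trans ?_ (mul_le_mul_of_nonneg_left (le_max_right _ _) (by positivity))
    have h3 : x / β * (Q / (2 * k)) ≤ Q / (2 * (⌈y⌉₊ : ℝ)) := by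
      rw [div_mul_div_comm, div_le_div_iff₀ (by positivity) (by positivity)]
      nlinarith [mul_le_mul_of_nonneg_left h2 (mul_nonneg hQ hx.le)]
    rw [mul_sub, div_mul_cancel₀ _ hβ0.ne']
    linarith

theorem greedy (T : Finset ℕ) (w : ℕ → ℝ) (Q : ℝ) (h : Q ≤ ∑ j ∈ T, w j) :
    ∃ M ⊆ T, Q ≤ ∑ j ∈ M, w j ∧ (M = ∅ ∨ ∃ i ∈ M, ∑ j ∈ M.erase i, w j ≤ Q) := by
  obtain ⟨M, hM, hmin⟩ := (T.powerset.filter fun M => Q ≤ ∑ j ∈ M, w j).exists_min_image
    Finset.card ⟨T, by simp [h]⟩
  rw [Finset.mem_filter, Finset.mem_powerset] at hM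
  refine ⟨M, hM.1, hM.2, M.eq_empty_or_nonempty.imp id fun ⟨i, hi⟩ => ⟨i, hi, ?_⟩⟩
  by_contra hc
  have := hmin (M.erase i) (Finset.mem_filter.2
    ⟨Finset.mem_powerset.2 ((Finset.erase_subset _ _).trans hM.1), (not_le.1 hc).le⟩)
  have := Finset.card_erase_lt_of_mem hi
  omega

/-- The data of the items. -/
structure RD (K : ℕ) (s w : ℕ → ℕ → ℝ) (L : ℝ) : Prop where
  hK : 5 ≤ K
  s0 : ∀ t < 3, ∀ j < K + 1, 0 ≤ s t j
  hw : ∀ t < 3, ∀ j < K, w t j = (j + 1 : ℕ) * s t j
  hwK : ∀ t < 3, (K + 1 : ℕ) * s t K ≤ w t K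
  hL : ∀ t < 3, ∑ j ∈ range (K + 1), w t j ≤ L
  hS : ∀ a b c, Roles a b c → ∑ j ∈ range (K + 1), s a j + ∑ j ∈ range (K + 1), s b j ≤ L

namespace RD

variable {K : ℕ} {s w : ℕ → ℕ → ℝ} {L z : ℝ} (d : RD K s w L)

include d

theorem le_w {t j : ℕ} (ht : t < 3) (hj : j < K + 1) : (j + 1 : ℕ) * s t j ≤ w t j := by
  rcases Nat.lt_succ_iff_lt_or_eq.1 hj with h | rfl
  · exact (d.hw t ht j h).ge
  · exact d.hwK t ht

theorem w0 {t j : ℕ} (ht : t < 3) (hj : j < K + 1) : 0 ≤ w t j :=
  le_trans (mul_nonneg (Nat.cast_nonneg _) (d.s0 t ht j hj)) (d.le_w ht hj)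

theorem top_le {t : ℕ} (ht : t < 3) : s t K ≤ L / K := by
  have h1 := (Finset.single_le_sum (fun j hj => d.w0 ht (Finset.mem_range.1 hj))
    (Finset.self_mem_range_succ K)).trans (d.hL t ht)
  have h2 := d.hwK t ht
  have h3 := d.s0 t ht K (by omega)
  have hK : (5 : ℝ) ≤ K := by exact_mod_cast d.hK
  rw [le_div_iff₀ (by linarith)]
  push_cast at h2
  linarith

theorem sub_le {t r : ℕ} (ht : t < 3) (hr : r ≤ 1) {m : ℝ} (hm : s t 4 ≤ m) (p : ℕ → Prop)
    [DecidablePred p] (hp : ∀ j, p j → 4 ≤ j) :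
    (5 + r) * ∑ j ∈ range (K + 1), (if p j then s t j else 0) ≤
      ∑ j ∈ range (K + 1), (if p j then w t j else 0) + r * m := by
  have hK := d.hK
  have hm0 : 0 ≤ m := (d.s0 t ht 4 (by omega)).trans hm
  have hr' : (r : ℝ) ≤ 1 := by exact_mod_cast hr
  have hr0 : (0 : ℝ) ≤ r := Nat.cast_nonneg r
  have e : ∑ j ∈ range (K + 1), (if j = 4 then r * m else 0) = r * m := by
    rw [Finset.sum_ite_eq', if_pos (Finset.mem_range.2 (by omega))]
  rw [← e, ← Finset.sum_add_distrib, Finset.mul_sum]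
  refine Finset.sum_le_sum fun j hj => ?_
  have h1 := d.le_w ht (Finset.mem_range.1 hj)
  have h2 := d.s0 t ht j (Finset.mem_range.1 hj)
  by_cases h3 : p j
  · rw [if_pos h3, if_pos h3]
    split_ifs with h4
    · subst h4; push_cast at h1; nlinarith
    · have : (5 : ℝ) ≤ j := by have := hp j h3; exact_mod_cast (by omega : 5 ≤ j)
      push_cast at h1; nlinarith
  · rw [if_neg h3, if_neg h3]
    split_ifs
    · nlinarith
    · simp

theorem side {t A : ℕ} (ht : t < 3) (h4 : 4 ≤ A) (hA : A < K) (g n : ℕ → ℕ) (hn : ∀ v, n v ≤ 12)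
    (h5 : n 5 = 0) {k : ℕ} (hk : k ≤ 12) {β Q : ℝ} (hQ : 0 ≤ Q) (hβL : β ≤ L)
    (hβ : ∑ j ∈ range (K + 1),
      (if g (cl A j) = 1 ∧ ¬ (j = K ∨ s t j ≤ L / K ^ 2) then s t j else 0) ≤ β) :
    ∃ m : ℕ → ℕ, (∀ j, m j ≤ 12 * K ^ 2) ∧ m K = 0 ∧
      ∑ j ∈ range (K + 1), 1 / (2 * (m j : ℝ)) ≤ ∑ v ∈ range 6, 1 / (2 * (n v : ℝ)) +
        (∑ j ∈ range (K + 1),
          (if g (cl A j) = 1 ∧ ¬ (j = K ∨ s t j ≤ L / K ^ 2) then s t j else 0)) / β * (1 / k) ∧
      ∑ j ∈ range (K + 1), cost (s t j) (m j) Q ≤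
        ∑ v ∈ range 6, cost (if g v = 1 then 0 else SL (K + 1) (s t) (cl A) v) (n v) Q +
        ((∑ j ∈ range (K + 1), (if g (cl A j) = 1 ∧ ¬ (j = K ∨ s t j ≤ L / K ^ 2) then s t j
          else 0)) / β * cost β k Q + ∑ j ∈ range (K + 1),
          (if g (cl A j) = 1 ∧ (j = K ∨ s t j ≤ L / K ^ 2) then s t j else 0)) := by
  have hK := d.hK
  have hK' : (5 : ℝ) ≤ K := by exact_mod_cast hK
  have hL0 : 0 ≤ L :=
    (Finset.sum_nonneg fun j hj => d.w0 ht (Finset.mem_range.1 hj)).trans (d.hL t ht)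
  have hbig : ∀ j < K + 1, g (cl A j) = 1 → ¬ (j = K ∨ s t j ≤ L / K ^ 2) →
      0 < s t j ∧ s t j ≤ β := by
    intro j hj h1 h2
    refine ⟨lt_of_le_of_lt (by positivity) (not_le.1 fun h => h2 (Or.inr h)), le_trans ?_ hβ⟩
    refine le_trans (le_of_eq (if_pos ⟨h1, h2⟩).symm) (Finset.single_le_sum (f := fun j =>
      if g (cl A j) = 1 ∧ ¬ (j = K ∨ s t j ≤ L / K ^ 2) then s t j else 0) (fun i hi => ?_)
      (Finset.mem_range.2 hj))
    split_ifs
    · exact d.s0 t ht i (Finset.mem_range.1 hi)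
    · rfl
  refine ⟨fun j => if g (cl A j) = 1 then (if j < K + 1 ∧ ¬ (j = K ∨ s t j ≤ L / K ^ 2) then
    ⌈k * β / (2 * s t j)⌉₊ else 0) else n (cl A j), fun j => ?_, ?_, ?_, ?_⟩
  · dsimp only
    split_ifs with h1 h2
    · obtain ⟨h3, h4⟩ := hbig j h2.1 h1 h2.2
      have h6 := (piece k h3 h4 hQ).1
      have h7 : L / K ^ 2 < s t j := not_le.1 fun h => h2.2 (Or.inr h)
      rw [div_lt_iff₀ (by positivity)] at h7
      have h8 : (k : ℝ) ≤ 12 := by exact_mod_cast hk
      have h9 : (⌈k * β / (2 * s t j)⌉₊ : ℝ) ≤ 12 * K ^ 2 := by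
        refine le_of_mul_le_mul_right ?_ h3
        nlinarith
      exact_mod_cast h9
    · exact Nat.zero_le _
    · exact (hn _).trans (by nlinarith)
  · have : cl A K = 5 := by unfold cl; split_ifs <;> omega
    simp [this, h5]
  · have e1 : ∑ j ∈ range (K + 1), 1 / (2 * (n (cl A j) : ℝ)) =
        ∑ v ∈ range 6, 1 / (2 * (n v : ℝ)) := by
      rw [sum_push (K + 1) A fun v _ => 1 / (2 * (n v : ℝ))]
      refine Finset.sum_congr rfl fun v hv => ?_
      by_cases h : v = 5
      · subst h; simp [SL, h5]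
      · rw [SL_one h4 (by omega) (by have := Finset.mem_range.1 hv; omega)]
    rw [← e1, Finset.sum_div, Finset.sum_mul, ← Finset.sum_add_distrib]
    refine Finset.sum_le_sum fun j hj => ?_
    have hj' := Finset.mem_range.1 hj
    have h0 : 0 ≤ 1 / (2 * (n (cl A j) : ℝ)) := by positivity
    dsimp only
    by_cases h1 : g (cl A j) = 1
    · by_cases h2 : j = K ∨ s t j ≤ L / K ^ 2
      · simp [h1, h2]
      · obtain ⟨h3, h4⟩ := hbig j hj' h1 h2
        have := (piece k h3 h4 hQ).2.1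
        rw [if_pos h1, if_pos ⟨hj', h2⟩, if_pos ⟨h1, h2⟩]
        linarith
    · simp [h1]
  · have e1 : ∑ j ∈ range (K + 1), cost (if g (cl A j) = 1 then 0 else s t j) (n (cl A j)) Q =
        ∑ v ∈ range 6, cost (if g v = 1 then 0 else SL (K + 1) (s t) (cl A) v) (n v) Q := by
      rw [sum_push (K + 1) A fun v j => cost (if g v = 1 then 0 else s t j) (n v) Q]
      refine Finset.sum_congr rfl fun v hv => ?_
      by_cases h : v = 5
      · subst h
        rw [h5]
        split_ifs
        · simp [SL, cost_zero]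
        · rw [cost_zero (SL_nonneg (d.s0 t ht) _ _)]
          refine Finset.sum_congr rfl fun j hj => ?_
          dsimp only
          rw [cost_zero (d.s0 t ht j (Finset.mem_range.1 hj))]
      · have hv4 : v ≤ 4 := by have := Finset.mem_range.1 hv; omega
        rw [SL_one h4 (by omega) hv4, SL_one h4 (by omega) hv4]
    rw [← e1, Finset.sum_div, Finset.sum_mul, ← Finset.sum_add_distrib, ← Finset.sum_add_distrib]
    refine Finset.sum_le_sum fun j hj => ?_
    have hj' := Finset.mem_range.1 hj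
    dsimp only
    by_cases h1 : g (cl A j) = 1
    · have h0 := cost_nonneg le_rfl (n (cl A j)) Q
      by_cases h2 : j = K ∨ s t j ≤ L / K ^ 2
      · rw [if_pos h1, if_neg fun h => h.2 h2, if_pos h1, if_neg fun h => h.2 h2, if_pos ⟨h1, h2⟩,
          cost_zero (d.s0 t ht j hj')]
        simpa using h0
      · obtain ⟨h3, h4⟩ := hbig j hj' h1 h2
        have := (piece k h3 h4 hQ).2.2
        rw [if_pos h1, if_pos ⟨hj', h2⟩, if_pos h1, if_pos ⟨h1, h2⟩, if_neg fun h => h2 h.2]
        linarith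
    · simp [h1]

theorem small_le {t : ℕ} (ht : t < 3) (p : ℕ → Prop) [DecidablePred p] :
    ∑ j ∈ range (K + 1), (if p j ∧ (j = K ∨ s t j ≤ L / K ^ 2) then s t j else 0) ≤ 2 * (L / K) := by
  have hK' : (5 : ℝ) ≤ K := by exact_mod_cast d.hK
  have hL0 : 0 ≤ L :=
    (Finset.sum_nonneg fun j hj => d.w0 ht (Finset.mem_range.1 hj)).trans (d.hL t ht)
  rw [Finset.sum_range_succ]
  have h1 : ∑ j ∈ range K, (if p j ∧ (j = K ∨ s t j ≤ L / K ^ 2) then s t j else 0) ≤
      ∑ _j ∈ range K, L / K ^ 2 := Finset.sum_le_sum fun j hj => by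
    split_ifs with h
    · exact h.2.resolve_left (Finset.mem_range.1 hj).ne
    · positivity
  have h2 : ∑ _j ∈ range K, L / K ^ 2 = L / K := by
    rw [Finset.sum_const, Finset.card_range, nsmul_eq_mul]; field_simp
  have h3 := d.top_le ht
  have h4 : 0 ≤ L / K := by positivity
  split_ifs <;> linarith

theorem realH (hH : RH K (12 * K ^ 2) s w z) {a b c A A' : ℕ} (r : Roles a b c) (h4 : 4 ≤ A)
    (hA : A < K) (h4' : 4 ≤ A') (hA' : A' < K) (lc ga gb na nb : ℕ → ℕ) (k : ℕ)
    (hn : ∀ v, na v ≤ 12 ∧ nb v ≤ 12) (hk : k ≤ 12) (ha5 : na 5 = 0) (hb5 : nb 5 = 0)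
    (hbud : ∑ v ∈ range 6, 1 / (2 * (na v : ℝ)) + ∑ v ∈ range 6, 1 / (2 * (nb v : ℝ)) + 1 / k ≤ 1) :
    z - 2 * (L / K) ≤ SL (K + 1) (s c) lc 1 +
      (cost (SL 6 (SL (K + 1) (s a) (cl A)) ga 1 + SL 6 (SL (K + 1) (s b) (cl A')) gb 1) k
        (SL (K + 1) (w c) lc 1) +
      (∑ v ∈ range 6, cost (if ga v = 1 then 0 else SL (K + 1) (s a) (cl A) v) (na v)
        (SL (K + 1) (w c) lc 1) +
      ∑ v ∈ range 6, cost (if gb v = 1 then 0 else SL (K + 1) (s b) (cl A') v) (nb v)
        (SL (K + 1) (w c) lc 1))) := by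
  obtain ⟨ha, hb, hc, -⟩ := id r
  have hQ : 0 ≤ SL (K + 1) (w c) lc 1 := SL_nonneg (fun j hj => d.w0 hc hj) _ _
  have sp : ∀ t < 3, ∀ (A : ℕ) (g : ℕ → ℕ), ∃ x y, x = ∑ j ∈ range (K + 1),
      (if g (cl A j) = 1 ∧ ¬ (j = K ∨ s t j ≤ L / K ^ 2) then s t j else 0) ∧
      y = ∑ j ∈ range (K + 1), (if g (cl A j) = 1 ∧ (j = K ∨ s t j ≤ L / K ^ 2) then s t j else 0) ∧
      0 ≤ x ∧ 0 ≤ y ∧ y ≤ 2 * (L / K) ∧ x ≤ ∑ j ∈ range (K + 1), s t j ∧
      SL 6 (SL (K + 1) (s t) (cl A)) g 1 = x + y := by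
    intro t ht A g
    refine ⟨_, _, rfl, rfl, Finset.sum_nonneg fun j hj => ?_, Finset.sum_nonneg fun j hj => ?_,
      d.small_le ht _, Finset.sum_le_sum fun j hj => ?_, ?_⟩
    · split_ifs
      · exact d.s0 t ht j (Finset.mem_range.1 hj)
      · rfl
    · split_ifs
      · exact d.s0 t ht j (Finset.mem_range.1 hj)
      · rfl
    · split_ifs
      · rfl
      · exact d.s0 t ht j (Finset.mem_range.1 hj)
    · rw [← SL_push, SL, ← Finset.sum_add_distrib]
      refine Finset.sum_congr rfl fun j _ => ?_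
      by_cases h1 : g (cl A j) = 1 <;> by_cases h2 : j = K ∨ s t j ≤ L / K ^ 2 <;> simp [h1, h2]
  obtain ⟨x, y, ex, ey, x0, y0, y1, x1, e⟩ := sp a ha A ga
  obtain ⟨x', y', ex', ey', x0', y0', y1', x1', e'⟩ := sp b hb A' gb
  have hβL : x + x' ≤ L := by linarith [d.hS a b c r]
  obtain ⟨m, m1, m2, m3, m4⟩ := d.side ha h4 hA ga na (fun v => (hn v).1) ha5 hk hQ hβL
    (by rw [← ex]; linarith)
  obtain ⟨m', m1', m2', m3', m4'⟩ := d.side hb h4' hA' gb nb (fun v => (hn v).2) hb5 hk hQ hβL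
    (by rw [← ex']; linarith)
  rw [← ex] at m3 m4
  rw [← ex'] at m3' m4'
  rw [← ey] at m4
  rw [← ey'] at m4'
  have h1 : x / (x + x') + x' / (x + x') ≤ 1 := by
    rw [← add_div]; exact div_self_le_one _
  have h2 := mul_le_mul_of_nonneg_right h1 (by positivity : (0 : ℝ) ≤ 1 / k)
  have h3 := mul_le_mul_of_nonneg_right h1
    (cost_nonneg (add_nonneg x0 x0') k (SL (K + 1) (w c) lc 1))
  have h5 := hH a b c r lc m m' (fun j => ⟨m1 j, m1' j⟩) m2 m2' (by linarith)
  have h6 := cost_add (s := x + x') (add_nonneg y0 y0') k (SL (K + 1) (w c) lc 1)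
  rw [e, e', show x + y + (x' + y') = x + x' + (y + y') by ring]
  linarith

theorem virt (hP : PC (K + 1) K (fun _ j i => i ∣ ex K j) s w L z) (hH : RH K (12 * K ^ 2) s w z) :
    ∃ A : ℕ → ℕ, VT K (fun t => A t + 1) (fun t => SL (K + 1) (s t) (cl (A t)))
      (fun t => SL (K + 1) (w t) (cl (A t))) L (z - 3 * (L / K)) := by
  have hK := d.hK
  have hK' : (5 : ℝ) ≤ K := by exact_mod_cast hK
  have hL0 : 0 ≤ L := (Finset.sum_nonneg fun j hj =>
    d.w0 (by norm_num) (Finset.mem_range.1 hj)).trans (d.hL 0 (by norm_num))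
  have hη : 0 ≤ L / K := by positivity
  have hex : ∀ t, ∃ A ∈ Finset.Ico 4 K, ∀ j ∈ Finset.Ico 4 K, s t j ≤ s t A := fun t =>
    (Finset.Ico 4 K).exists_max_image (s t) ⟨4, Finset.mem_Ico.2 (by omega)⟩
  choose A hA hmax using hex
  simp only [Finset.mem_Ico] at hA hmax
  have e4 : ∀ t (f : ℕ → ℝ), SL (K + 1) f (cl (A t)) 4 = f (A t) := fun t f => by
    rw [SL_one (hA t).1 (by have := hA t; omega) le_rfl]; rfl
  have eS : ∀ t (f : ℕ → ℝ), ∑ v ∈ range 6, SL (K + 1) f (cl (A t)) v =
      ∑ j ∈ range (K + 1), f j := fun t f => (sum_push (K + 1) (A t) fun _ j => f j).symm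
  have hD : ∀ t j i, j < K + 1 → vD (fun t => A t + 1) t (cl (A t) j) i → i ∣ ex K j := by
    intro t j i hj h
    have := hA t
    unfold vD cl at h
    unfold ex
    by_cases h1 : j < 4
    · rw [if_neg (by omega)]; simpa [h1] using h
    · by_cases h2 : j = A t
      · rw [if_neg (by omega), h2]; simpa [h1, h2, not_lt.2 this.1] using h
      · have : i = 1 := by simpa [h1, h2] using h
        rw [this]; exact one_dvd _
  have e45 : ∀ t (f : ℕ → ℝ), SL (K + 1) f (cl (A t)) 4 + SL (K + 1) f (cl (A t)) 5 =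
      ∑ j ∈ range (K + 1), if 4 ≤ j then f j else 0 := fun t f => by
    rw [SL, SL, ← Finset.sum_add_distrib]
    refine Finset.sum_congr rfl fun j _ => ?_
    unfold cl
    split_ifs <;> first | omega | simp
  refine ⟨A, ⟨fun a b c r => ?_, fun a b c r i h1 h2 la lb lc hf => ?_,
    fun a b c r i g h1 h2 h3 la lb lc hf hend => ?_⟩, by omega,
    fun t _ => by have := hA t; omega, fun t ht v => SL_nonneg (d.s0 t ht) _ _,
    fun t ht v => SL_nonneg (fun j hj => d.w0 ht hj) _ _, fun t ht v hv => ?_, fun t ht => ?_,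
    fun t ht => ?_, fun t ht => by rw [eS]; exact d.hL t ht,
    fun a b c r lc ga gb na nb k hn hk ha5 hb5 hbud => ?_, fun a b c r q hq => ?_⟩
  · rw [eS, eS]; linarith [hP.hT a b c r]
  · simp only [← SL_push]
    refine (hP.hP a b c r i h1 h2 (fun j => la (cl (A a) j)) (fun j => lb (cl (A b) j))
      (fun j => lc (cl (A c) j)) fun j hj => ⟨?_, ?_, (hf _ (cl_lt _ _)).2.2⟩).imp
      (fun h => by linarith) fun h => by linarith
    · exact (hf _ (cl_lt _ _)).1.imp id (And.imp id (hD a j i hj))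
    · exact (hf _ (cl_lt _ _)).2.1.imp id (And.imp id (hD b j i hj))
  · simp only [← SL_push]
    refine (hP.hC a b c r i g h1 h2 h3 (fun j => la (cl (A a) j)) (fun j => lb (cl (A b) j))
      (fun j => lc (cl (A c) j)) (fun j hj => ⟨?_, ?_, ?_⟩)
      (hend.imp (fun h j _ => h _ (cl_lt _ _)) (And.imp id fun h j _ => h _ (cl_lt _ _)))).imp
      (fun h => by linarith) (Or.imp (fun h => by linarith) fun h => by linarith)
    · exact (hf _ (cl_lt _ _)).1.imp id (And.imp id (hD a j i hj))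
    · exact (hf _ (cl_lt _ _)).2.1.imp id (Or.imp id (And.imp id (hD b j g hj)))
    · exact (hf _ (cl_lt _ _)).2.2.imp id (And.imp id (hD c j g hj))
  · have := hA t
    rw [SL_one this.1 (by omega) hv.le, SL_one this.1 (by omega) hv.le, if_pos hv]
    exact d.hw t ht v (by omega)
  · rw [e4, e4]; exact d.hw t ht _ (hA t).2
  · have hm := hmax t 4 (by omega)
    have h5 : ∀ j, cl (A t) j = 5 → 4 ≤ j := fun j => by unfold cl; split_ifs <;> omega
    have k0 := d.sub_le (r := 0) ht (by omega) hm _ h5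
    have k1 := d.sub_le (r := 1) ht le_rfl hm _ h5
    have k2 := d.sub_le (r := 1) ht le_rfl hm (fun j => 4 ≤ j) fun _ h => h
    rw [e45, e45, e4]
    simp only [SL]
    norm_num at k0 k1 k2
    exact ⟨k0, k1, k2⟩
  · have := d.realH hH r (hA a).1 (hA a).2 (hA b).1 (hA b).2 (fun j => lc (cl (A c) j)) ga gb na nb
      k hn hk ha5 hb5 hbud
    simp only [SL_push] at this
    linarith
  · obtain ⟨ha, hb, hc, -⟩ := id r
    rw [e45, eS, eS, e4]
    obtain ⟨τ, hτ⟩ : ∃ τ, τ = ∑ j ∈ range (K + 1), s a j + ∑ j ∈ range (K + 1), s b j := ⟨_, rfl⟩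
    rw [← hτ]
    have hτ0 : 0 ≤ τ := by
      rw [hτ]
      exact add_nonneg (Finset.sum_nonneg fun j hj => d.s0 a ha j (Finset.mem_range.1 hj))
        (Finset.sum_nonneg fun j hj => d.s0 b hb j (Finset.mem_range.1 hj))
    refine (le_total _ τ).imp id fun hle => ?_
    rw [← Finset.sum_filter] at hle
    obtain ⟨M, hM, hQ, hM'⟩ := greedy _ _ _ hle
    have hM4 : ∀ j ∈ M, j < K + 1 ∧ 4 ≤ j := fun j hj => by
      have := Finset.mem_filter.1 (hM hj); exact ⟨Finset.mem_range.1 this.1, this.2⟩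
    have eM : ∀ (M' : Finset ℕ), M' ⊆ M → ∀ f : ℕ → ℝ,
        ∑ j ∈ range (K + 1), (if j ∈ M' then f j else 0) = ∑ j ∈ M', f j := fun M' h f => by
      rw [Finset.sum_ite_mem, Finset.inter_eq_right.2 fun j hj => Finset.mem_range.2 (hM4 j (h hj)).1]
    have eL : ∀ f : ℕ → ℝ, SL (K + 1) f (fun j => if j ∈ M then 1 else 0) 1 = ∑ j ∈ M, f j :=
      fun f => by rw [← eM M subset_rfl]; simp [SL]
    have h1 := d.realH hH r (hA a).1 (hA a).2 (hA b).1 (hA b).2 (fun j => if j ∈ M then 1 else 0)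
      (fun _ => 1) (fun _ => 1) (fun _ => 0) (fun _ => 0) 1 (by simp) (by norm_num) rfl rfl
      (by simp)
    have e1 : ∀ f : ℕ → ℝ, SL 6 f (fun _ => 1) 1 = ∑ v ∈ range 6, f v := fun f => by simp [SL]
    rw [eL, eL, e1, e1, eS, eS, ← hτ] at h1
    simp only [if_true, cost_zero le_rfl, Finset.sum_const_zero, add_zero] at h1
    have h2 : cost τ 1 (∑ j ∈ M, w c j) ≤ τ / 2 := max_le le_rfl (by push_cast; linarith)
    have hm := hmax c 4 (by omega)
    have hm0 : 0 ≤ s c (A c) := d.s0 c hc _ (by have := hA c; omega)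
    have hq0 : (0 : ℝ) ≤ q := Nat.cast_nonneg q
    have h3 : (5 + q) * ∑ j ∈ M, s c j ≤ (5 + q) * (s c (A c) + L / K) + τ + q * s c (A c) := by
      rcases hM' with rfl | ⟨i, hi, h4⟩
      · rw [Finset.sum_empty, mul_zero]; positivity
      · have h5 := d.sub_le hc hq hm (fun j => j ∈ M.erase i)
          fun j hj => (hM4 j (Finset.mem_of_mem_erase hj)).2
        rw [eM _ (Finset.erase_subset _ _), eM _ (Finset.erase_subset _ _)] at h5
        have h6 : s c i ≤ s c (A c) + L / K := by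
          rcases Nat.lt_succ_iff_lt_or_eq.1 (hM4 i hi).1 with h | rfl
          · linarith [hmax c i ⟨(hM4 i hi).2, h⟩]
          · linarith [d.top_le hc]
        rw [← Finset.add_sum_erase M _ hi]
        nlinarith
    nlinarith

end RD

end Pool.Agent.MP_2a5a28_nt.H39

/-! A checker for branching certificates; linear forms are packed into natural numbers. -/

namespace Pool.Agent.MP_2a5a28_nt.H39

open Finset

/-- The base of the packing. -/
def bb : ℕ := 340282366920938463463374607431768211456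

/-- The packed unit vector. -/
def uv (k : ℕ) : ℕ := Nat.add (Nat.pow bb k) (Nat.pow bb 26)

/-- `n` encodes a linear form with value `x`. -/
def Rep (v : ℕ → ℝ) (n : ℕ) (x : ℝ) : Prop :=
  ∃ f : ℕ → ℕ, n = ∑ k ∈ range 26, f k * uv k ∧ x = ∑ k ∈ range 26, f k * v k

variable {v : ℕ → ℝ}

theorem Rep.zero : Rep v 0 0 := ⟨fun _ => 0, by simp, by simp⟩

theorem Rep.add {m n : ℕ} {x y : ℝ} (h : Rep v m x) (h' : Rep v n y) :
    Rep v (Nat.add m n) (x + y) := by
  obtain ⟨f, h1, h2⟩ := h
  obtain ⟨g, h3, h4⟩ := h'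
  refine ⟨fun k => f k + g k, ?_, by simp [h2, h4, add_mul, Finset.sum_add_distrib]⟩
  rw [Nat.add_eq, h1, h3, ← Finset.sum_add_distrib]
  exact Finset.sum_congr rfl fun k _ => (add_mul _ _ _).symm

theorem Rep.mul {n : ℕ} {x : ℝ} (c : ℕ) (h : Rep v n x) : Rep v (Nat.mul c n) (c * x) := by
  obtain ⟨f, h1, h2⟩ := h
  refine ⟨fun k => c * f k, ?_, by simp [h2, mul_assoc, Finset.mul_sum]⟩
  rw [Nat.mul_eq, h1, Finset.mul_sum]
  exact Finset.sum_congr rfl fun k _ => (mul_assoc _ _ _).symm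

theorem Rep.unit {k : ℕ} (hk : k < 26) : Rep v (uv k) (v k) :=
  ⟨fun j => if j = k then 1 else 0, by simp [hk], by simp [hk]⟩

/-- Evaluate a natural number before passing it on. -/
noncomputable def forceN (n : ℕ) (k : ℕ → Bool) : Bool :=
  Nat.rec (k 0) (fun m _ => k (Nat.succ m)) n

theorem forceN_eq (n : ℕ) (k : ℕ → Bool) : forceN n k = k n := by cases n <;> rfl

/-- Digitwise comparison. -/
noncomputable def leD : ℕ → ℕ → ℕ → Bool
  | 0, _, _ => true
  | m + 1, u, w => Nat.ble (Nat.mod u bb) (Nat.mod w bb) &&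
      forceN (Nat.div u bb) fun u' => forceN (Nat.div w bb) fun w' => leD m u' w'

theorem digit {b d r : ℕ} (h : d < b) :
    Nat.mod (r * b + d) b = d ∧ Nat.div (r * b + d) b = r := by
  have hb : 0 < b := by omega
  constructor
  · change (r * b + d) % b = d
    rw [Nat.mul_add_mod_self_right, Nat.mod_eq_of_lt h]
  · change (r * b + d) / b = r
    rw [add_comm, Nat.add_mul_div_right _ _ hb, Nat.div_eq_of_lt h, zero_add]

theorem leD_sound : ∀ (m : ℕ) (f g : ℕ → ℕ) (a b : ℕ), (∀ k < m, f k < bb) → (∀ k < m, g k < bb) →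
    leD m (∑ k ∈ range m, f k * bb ^ k + a * bb ^ m) (∑ k ∈ range m, g k * bb ^ k + b * bb ^ m) = true →
    ∀ k < m, f k ≤ g k
  | 0, _, _, _, _, _, _, _ => fun _ h => absurd h (Nat.not_lt_zero _)
  | m + 1, f, g, a, b, hf, hg, h => by
    have e : ∀ (f : ℕ → ℕ) (a : ℕ), ∑ k ∈ range (m + 1), f k * bb ^ k + a * bb ^ (m + 1) =
        (∑ k ∈ range m, f (k + 1) * bb ^ k + a * bb ^ m) * bb + f 0 := fun f a => by
      rw [Finset.sum_range_succ', add_mul, Finset.sum_mul]
      simp only [pow_succ, mul_assoc, pow_zero, mul_one]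
      ring
    rw [e, e, leD, forceN_eq, forceN_eq, (digit (hf 0 (by omega))).1, (digit (hg 0 (by omega))).1,
      (digit (hf 0 (by omega))).2, (digit (hg 0 (by omega))).2, Bool.and_eq_true, Nat.ble_eq] at h
    have ih := leD_sound m _ _ a b (fun k hk => hf (k + 1) (by omega))
      (fun k hk => hg (k + 1) (by omega)) h.2
    intro k hk
    rcases k with _ | k
    · exact h.1
    · exact ih k (by omega)

/-- The final comparison. -/
noncomputable def fin (u w : ℕ) : Bool :=
  Nat.blt u (Nat.pow bb 27) && Nat.blt w (Nat.pow bb 27) && leD 26 u w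

theorem pack_eq (b n : ℕ) (f : ℕ → ℕ) : ∑ k ∈ range n, f k * Nat.add (Nat.pow b k) (Nat.pow b n) =
    ∑ k ∈ range n, f k * b ^ k + (∑ k ∈ range n, f k) * b ^ n := by
  rw [Finset.sum_mul, ← Finset.sum_add_distrib]
  exact Finset.sum_congr rfl fun k _ => mul_add _ _ _

theorem pack_lt {b n : ℕ} {f : ℕ → ℕ}
    (h : ∑ k ∈ range n, f k * b ^ k + (∑ k ∈ range n, f k) * b ^ n < Nat.pow b (n + 1)) :
    ∀ k < n, f k < b := by
  intro k hk
  rw [Nat.pow_eq, pow_succ' b n] at h
  exact (Finset.single_le_sum (fun _ _ => Nat.zero_le _) (Finset.mem_range.2 hk)).trans_lt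
    (lt_of_mul_lt_mul_right ((Nat.le_add_left _ _).trans_lt h) (Nat.zero_le _))

theorem Rep.le {u w : ℕ} {x y : ℝ} (h : Rep v u x) (h' : Rep v w y) (hv : ∀ k, 0 ≤ v k)
    (hc : fin u w = true) : x ≤ y := by
  obtain ⟨f, h1, h2⟩ := h
  obtain ⟨g, h3, h4⟩ := h'
  replace h1 := h1.trans (pack_eq bb 26 f)
  replace h3 := h3.trans (pack_eq bb 26 g)
  rw [fin, Bool.and_eq_true, Bool.and_eq_true, Nat.blt_eq, Nat.blt_eq, h1, h3] at hc
  have := leD_sound 26 f g _ _ (pack_lt hc.1.1) (pack_lt hc.1.2) hc.2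
  rw [h2, h4]
  refine Finset.sum_le_sum fun k hk => mul_le_mul_of_nonneg_right ?_ (hv k)
  exact_mod_cast this k (Finset.mem_range.1 hk)

/-- The constraint is well formed. -/
def WF (v : ℕ → ℝ) (c : ℕ × ℕ) : Prop := ∃ x y, Rep v c.1 x ∧ Rep v c.2 y

/-- The constraint holds. -/
def Holds (v : ℕ → ℝ) (c : ℕ × ℕ) : Prop := ∃ x y, Rep v c.1 x ∧ Rep v c.2 y ∧ x ≤ y

/-- Combination of the constraints selected by the bits of `m` with multipliers read from `n`. -/
noncomputable def comb (d : ℕ) : List (ℕ × ℕ) → ℕ → ℕ → ℕ → ℕ → Bool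
  | [], _, _, u, w => fin u w
  | c :: ls, m, n, u, w => forceN (Nat.div m 2) fun m' =>
    cond (Nat.beq (Nat.mod m 2) 0) (comb d ls m' n u w)
      (forceN (Nat.mod n d) fun r => forceN (Nat.div n d) fun n' =>
        forceN (Nat.add (Nat.mul r c.2) u) fun u' => forceN (Nat.add (Nat.mul r c.1) w) fun w' =>
          comb d ls m' n' u' w')

theorem comb_sound (hv : ∀ k, 0 ≤ v k) (d : ℕ) : ∀ (ls : List (ℕ × ℕ)) (m n u w : ℕ) (x y : ℝ),
    (∀ c ∈ ls, Holds v c) → Rep v u x → Rep v w y → comb d ls m n u w = true → x ≤ y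
  | [], _, _, _, _, _, _, _, hu, hw, hc => hu.le hw hv hc
  | c :: ls, m, n, u, w, x, y, h, hu, hw, hc => by
    simp only [comb, forceN_eq] at hc
    have h' : ∀ c' ∈ ls, Holds v c' := fun c' hc' => h c' (List.mem_cons_of_mem _ hc')
    cases hb : Nat.beq (Nat.mod m 2) 0
    · rw [hb, cond_false] at hc
      obtain ⟨a, b, ha, hb, hab⟩ := h c List.mem_cons_self
      have h0 := comb_sound hv d ls _ _ _ _ _ _ h' ((hb.mul _).add hu) ((ha.mul _).add hw) hc
      have h1 := mul_le_mul_of_nonneg_left hab (Nat.cast_nonneg (α := ℝ) (Nat.mod n d))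
      linarith
    · rw [hb, cond_true] at hc
      exact comb_sound hv d ls _ _ _ _ _ _ h' hu hw hc

/-- The vector of all variables. -/
noncomputable def vec (s w : ℕ → ℕ → ℝ) (L z : ℝ) (k : ℕ) : ℝ :=
  if k < 24 then (if k % 8 < 6 then s (k / 8) (k % 8) else w (k / 8) (k % 8 - 2))
  else if k = 24 then L else z

/-- The size of an item. -/
def eS (t j : ℕ) : ℕ := uv (Nat.add (Nat.mul 8 t) j)

/-- The weight of an item. -/
def eW (t j : ℕ) : ℕ := cond (Nat.blt j 4) (Nat.mul (j + 1) (eS t j)) (eS t (j + 2))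

/-- The sum over the items with a given label. -/
def fL (e l : ℕ → ℕ) (τ : ℕ) : ℕ → ℕ
  | 0 => 0
  | n + 1 => Nat.add (fL e l τ n) (cond (Nat.beq (l n) τ) (e n) 0)

theorem Rep.fL {e l : ℕ → ℕ} {τ : ℕ} {x : ℕ → ℝ} : ∀ n, (∀ j < n, Rep v (e j) (x j)) →
    Rep v (fL e l τ n) (SL n x l τ)
  | 0, _ => Rep.zero
  | n + 1, h => by
    rw [SL, Finset.sum_range_succ]
    refine (Rep.fL n fun j hj => h j (by omega)).add ?_
    by_cases hl : l n = τ
    · rw [if_pos hl, Nat.beq_eq.mpr hl]; exact h n (by omega)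
    · rw [if_neg hl, Bool.eq_false_iff.2 fun h => hl (Nat.beq_eq.mp h)]; exact Rep.zero

/-- Sizes of the items with a given label. -/
def sL (t : ℕ) (l : ℕ → ℕ) (τ : ℕ) : ℕ := fL (eS t) l τ 6

/-- Weights of the items with a given label. -/
def wL (t : ℕ) (l : ℕ → ℕ) (τ : ℕ) : ℕ := fL (eW t) l τ 6

/-- The total size of a role. -/
def sA (t : ℕ) : ℕ := sL t (fun _ => 0) 0

/-- The label of an item. -/
def lab (code t j : ℕ) : ℕ := Nat.mod (Nat.shiftRight code (Nat.mul 2 (Nat.add (Nat.mul 6 t) j))) 4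

/-- The item is an `i`-th power; `i = 0` stands for the exponent of the fifth item. -/
def dOK (i j : ℕ) : Prop := if i = 0 then j = 4 else if j < 4 then i ∣ j + 1 else i = 1

instance (i j : ℕ) : Decidable (dOK i j) := by unfold dOK; infer_instance

/-- A test holds for all six items. -/
def all6 (p : ℕ → Bool) : Bool := p 0 && p 1 && p 2 && p 3 && p 4 && p 5

theorem all6_iff (p : ℕ → Bool) : all6 p = true ↔ ∀ j < 6, p j = true := by
  simp only [all6, Bool.and_eq_true]
  refine ⟨fun ⟨⟨⟨⟨⟨h0, h1⟩, h2⟩, h3⟩, h4⟩, h5⟩ j hj => ?_, fun h => by simp [h]⟩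
  interval_cases j <;> assumption

/-- Branching certificates. -/
inductive Tree
  | leaf (d m n : ℕ)
  | done
  | pick (i : ℕ) (l r : Tree)
  | p (a b c i code : ℕ) (r : Tree)
  | c (a b c i g code : ℕ) (r : Tree)
  | h (a b c code : ℕ) (r : Tree)
  | t (a b c q : ℕ) (r : Tree)

/-- The total size. -/
def sT : ℕ := Nat.add (Nat.add (sA 0) (sA 1)) (sA 2)

/-- The checker. -/
noncomputable def check : Tree → List (ℕ × ℕ) → List (ℕ × ℕ) → Bool
  | .leaf d m n, ls, _ => forceN (Nat.mod n d) fun r => Nat.ble 1 r &&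
      comb d ls m (Nat.div n d) (Nat.mul r (Nat.mul 9 (uv 25))) (Nat.mul r (Nat.mul 5 sT))
  | .done, _, p => p.isEmpty
  | .pick i l r, ls, p => forceN (p.getD i (0, 0)).1 fun x => forceN (p.getD i (0, 0)).2 fun y =>
      check l ((x, y) :: ls) [(0, 0)] && check r ((y, x) :: ls) (p.eraseIdx i)
  | .p a b c i code r, ls, _ =>
      decide (Roles a b c ∧ i ≤ 4) &&
      all6 (fun j => decide (lab code 0 j = 0 ∨ lab code 0 j = 3 ∧ dOK i j)) &&
      all6 (fun j => decide (lab code 1 j = 0 ∨ lab code 1 j = 3 ∧ i ≠ 0 ∧ dOK i j)) &&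
      all6 (fun j => decide (lab code 2 j = 0 ∨ lab code 2 j = 3)) &&
      forceN (Nat.add (Nat.add (sL a (lab code 0) 0) (sL b (lab code 1) 0)) (sL c (lab code 2) 0))
        fun base => check r ls [(uv 25, base), cond (Nat.beq i 0)
          (Nat.add (uv 25) (uv 24), Nat.add base (Nat.add (sL a (lab code 0) 3) (wL c (lab code 2) 3)))
          (Nat.mul i (Nat.add (uv 25) (uv 24)), Nat.add (Nat.mul i (Nat.add base (wL c (lab code 2) 3)))
            (Nat.add (wL a (lab code 0) 3) (wL b (lab code 1) 3)))]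
  | .c a b c i g code r, ls, _ =>
      decide (Roles a b c ∧ i ≤ 4 ∧ 1 ≤ g ∧ g ≤ 4) &&
      all6 (fun j => decide (lab code 0 j ≤ 2 ∨ lab code 0 j = 3 ∧ dOK i j)) &&
      all6 (fun j => decide (lab code 1 j = 0 ∨ lab code 1 j = 2 ∨ lab code 1 j = 3 ∧ dOK g j)) &&
      all6 (fun j => decide (lab code 2 j ≤ 2 ∨ lab code 2 j = 3 ∧ dOK g j)) &&
      (all6 (fun j => decide (lab code 0 j ≠ 3)) ||
        (decide (i ≠ 1) && all6 fun j => decide (lab code 2 j ≠ 0 ∧ lab code 2 j ≠ 3))) &&
      forceN (Nat.add (Nat.add (Nat.add (Nat.add (sL a (lab code 0) 1) (sL a (lab code 0) 0))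
        (sL b (lab code 1) 0)) (sL c (lab code 2) 1)) (sL c (lab code 2) 0)) fun om =>
      forceN (Nat.add om (Nat.add (Nat.add (sL a (lab code 0) 1) (sL c (lab code 2) 1))
        (Nat.mul 2 (Nat.add (Nat.add (sL a (lab code 0) 2) (sL b (lab code 1) 2))
          (sL c (lab code 2) 2))))) fun base =>
        check r ls [(uv 25, om), (Nat.mul 2 (uv 25), base),
          (Nat.mul g (Nat.add (Nat.mul 2 (uv 25)) (uv 24)),
            Nat.add (Nat.mul 2 (Nat.add (wL b (lab code 1) 3) (wL c (lab code 2) 3)))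
              (Nat.mul g (Nat.add base (Nat.add (Nat.add (wL a (lab code 0) 0) (wL a (lab code 0) 2))
                (wL a (lab code 0) 3)))))]
  | .h a b c code r, ls, _ => decide (Roles a b c) &&
      check r ls [(Nat.mul 2 (uv 25), Nat.add (Nat.mul 2 (sL c (lab code 0) 1)) (Nat.add (sA a) (sA b))),
        (Nat.add (Nat.mul 2 (uv 25)) (wL c (lab code 0) 1),
          Nat.mul 2 (Nat.add (sL c (lab code 0) 1) (Nat.add (sA a) (sA b))))]
  | .t a b c q r, ls, _ => decide (Roles a b c ∧ q ≤ 1) &&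
      check r ls [(Nat.mul (10 + 2 * q) (uv 25),
          Nat.add (Nat.mul (10 + 4 * q) (eS c 4)) (Nat.mul (7 + q) (Nat.add (sA a) (sA b)))),
        (Nat.add (eW c 4) (eW c 5), Nat.add (sA a) (sA b))]

/-- The constraints for one role. -/
def baseR (t : ℕ) : List (ℕ × ℕ) :=
  [(wL t (fun _ => 0) 0, uv 24), (Nat.mul 5 (eS t 4), eW t 4), (Nat.mul 5 (eS t 5), eW t 5),
    (Nat.mul 6 (eS t 5), Nat.add (eW t 5) (eS t 4)),
    (Nat.add (Nat.mul 6 (eS t 5)) (Nat.mul 5 (eS t 4)), Nat.add (eW t 4) (eW t 5))]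

/-- The constraints at the root. -/
def baseL : List (ℕ × ℕ) :=
  [(sA 2, sA 1), (sA 1, sA 0), (sT, uv 24), (uv 25, Nat.add (sA 1) (sA 2)),
    (uv 25, Nat.add (sA 0) (sA 2)), (uv 25, Nat.add (sA 0) (sA 1))] ++
    (baseR 0 ++ (baseR 1 ++ baseR 2))

/-- Evaluate a list before passing it on. -/
noncomputable def forceL : List (ℕ × ℕ) → (List (ℕ × ℕ) → Bool) → Bool
  | [], k => k []
  | c :: l, k => forceN c.1 fun x => forceN c.2 fun y => forceL l fun m => k ((x, y) :: m)

theorem forceL_eq : ∀ (l : List (ℕ × ℕ)) (k : List (ℕ × ℕ) → Bool), forceL l k = k l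
  | [], _ => rfl
  | c :: l, k => by simp only [forceL, forceN_eq, forceL_eq l]

namespace VT

variable {K : ℕ} {e : ℕ → ℕ} {s w : ℕ → ℕ → ℝ} {L z : ℝ} (h : VT K e s w L z)

theorem rZ : Rep (vec s w L z) (uv 25) z := Rep.unit (k := 25) (by norm_num)

theorem rL : Rep (vec s w L z) (uv 24) L := Rep.unit (k := 24) (by norm_num)

theorem rS {t j : ℕ} (ht : t < 3) (hj : j < 6) : Rep (vec s w L z) (eS t j) (s t j) := by
  have e : vec s w L z (8 * t + j) = s t j := by
    rw [vec, if_pos (by omega), if_pos (by omega), show (8 * t + j) / 8 = t by omega,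
      show (8 * t + j) % 8 = j by omega]
  exact e ▸ Rep.unit (k := 8 * t + j) (by omega)

theorem rsL {t : ℕ} (ht : t < 3) (l : ℕ → ℕ) (τ : ℕ) :
    Rep (vec s w L z) (sL t l τ) (SL 6 (s t) l τ) := Rep.fL 6 fun _ hj => rS ht hj

theorem rsA {t : ℕ} (ht : t < 3) : Rep (vec s w L z) (sA t) (∑ j ∈ range 6, s t j) := by
  have := rsL (s := s) (w := w) (L := L) (z := z) ht (fun _ => 0) 0
  rwa [SL, Finset.sum_congr rfl fun _ _ => if_pos rfl] at this

include h

theorem rW {t j : ℕ} (ht : t < 3) (hj : j < 6) : Rep (vec s w L z) (eW t j) (w t j) := by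
  unfold eW
  by_cases h4 : j < 4
  · rw [Nat.blt_eq.mpr h4, cond_true, h.hw t ht j h4]
    exact (rS ht hj).mul _
  · rw [Bool.eq_false_iff.2 fun h => h4 (Nat.blt_eq.mp h), cond_false]
    have e : vec s w L z (8 * t + (j + 2)) = w t j := by
      rw [vec, if_pos (by omega), if_neg (by omega), show (8 * t + (j + 2)) / 8 = t by omega,
        show (8 * t + (j + 2)) % 8 - 2 = j by omega]
    exact e ▸ Rep.unit (k := 8 * t + (j + 2)) (by omega)

theorem rwL {t : ℕ} (ht : t < 3) (l : ℕ → ℕ) (τ : ℕ) :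
    Rep (vec s w L z) (wL t l τ) (SL 6 (w t) l τ) := Rep.fL 6 fun _ hj => h.rW ht hj

omit h in
theorem vD_of {t i j : ℕ} (hj : j < 6) (hd : dOK i j) : vD e t j (if i = 0 then e t else i) := by
  unfold dOK at hd
  unfold vD
  by_cases h0 : i = 0
  · rw [if_pos h0] at hd ⊢; subst hd; simp
  · rw [if_neg h0] at hd ⊢
    split_ifs at hd ⊢ with h1 h2
    · exact hd
    · rw [hd]; exact one_dvd _
    · exact hd

theorem sound (hv : ∀ k, 0 ≤ vec s w L z k) : ∀ (T : Tree) (ls p : List (ℕ × ℕ)),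
    check T ls p = true → (∀ c ∈ ls, Holds (vec s w L z) c) → (∀ c ∈ p, WF (vec s w L z) c) →
    (∃ c ∈ p, Holds (vec s w L z) c) →
    9 * z ≤ 5 * (∑ j ∈ range 6, s 0 j + ∑ j ∈ range 6, s 1 j + ∑ j ∈ range 6, s 2 j) := by
  have hK := h.hK
  intro T
  induction T with
  | leaf d m n =>
    intro ls p hc hl _ _
    simp only [check, forceN_eq, Bool.and_eq_true, Nat.ble_eq] at hc
    have h1 := comb_sound hv d ls _ _ _ _ _ _ hl ((rZ.mul 9).mul _)
      (((((rsA (by norm_num)).add (rsA (by norm_num))).add (rsA (by norm_num))).mul 5).mul _) hc.2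
    have h2 : (0 : ℝ) < ((Nat.mod n d : ℕ) : ℝ) := by exact_mod_cast hc.1
    exact_mod_cast le_of_mul_le_mul_left h1 h2
  | done =>
    intro ls p hc _ _ ⟨c, hp, _⟩
    rw [check, List.isEmpty_iff] at hc
    rw [hc] at hp
    exact absurd hp List.not_mem_nil
  | pick i l r ihl ihr =>
    intro ls p hc hl hw ⟨c, hp, hh⟩
    simp only [check, forceN_eq, Bool.and_eq_true] at hc
    have h0 : Holds (vec s w L z) (0, 0) := ⟨0, 0, Rep.zero, Rep.zero, le_rfl⟩
    by_cases h1 : Holds (vec s w L z) (p.getD i (0, 0))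
    · exact ihl _ _ hc.1 (List.forall_mem_cons.2 ⟨h1, hl⟩)
        (fun c hc => List.mem_singleton.1 hc ▸ ⟨0, 0, Rep.zero, Rep.zero⟩) ⟨_, List.mem_singleton_self _, h0⟩
    · have hi : i < p.length := by
        by_contra hi
        rw [List.getD_eq_default _ _ (not_lt.1 hi)] at h1
        exact h1 h0
      rw [List.getD_eq_getElem _ _ hi] at h1 hc
      obtain ⟨x, y, hx, hy⟩ := hw _ (List.getElem_mem hi)
      refine ihr _ _ hc.2 (List.forall_mem_cons.2 ⟨⟨y, x, hy, hx, ?_⟩, hl⟩)
        (fun c hc => hw c (List.mem_of_mem_eraseIdx hc)) ⟨c, ?_, hh⟩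
      · exact (not_le.1 fun hxy => h1 ⟨x, y, hx, hy, hxy⟩).le
      · obtain ⟨j, hj, rfl⟩ := List.getElem_of_mem hp
        exact List.mem_eraseIdx_iff_getElem.2 ⟨j, hj, fun e => h1 (by subst e; exact hh), rfl⟩
  | p a b c i code r ih =>
    intro ls p hc hl _ _
    simp only [check, forceN_eq, Bool.and_eq_true, all6_iff, decide_eq_true_eq] at hc
    obtain ⟨⟨⟨⟨⟨hr, hi⟩, f0⟩, f1⟩, f2⟩, hc⟩ := hc
    obtain ⟨ha, hb, hc', -⟩ := id hr
    have r0 := ((rsL (s := s) (w := w) (L := L) (z := z) ha (lab code 0) 0).add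
      (rsL hb (lab code 1) 0)).add (rsL hc' (lab code 2) 0)
    have he := h.he a ha
    have key := h.pc.hP a b c hr (if i = 0 then e a else i) (by split_ifs <;> omega)
      (by split_ifs <;> omega) (lab code 0) (lab code 1) (lab code 2) fun j hj =>
        ⟨(f0 j hj).imp id (And.imp id (vD_of hj)), (f1 j hj).imp id (And.imp id fun hd => by
          have := vD_of (e := e) (t := b) hj hd.2
          rwa [if_neg hd.1] at this ⊢), f2 j hj⟩
    by_cases h0 : i = 0
    · subst h0
      rw [if_pos rfl] at key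
      have r1 := r0.add ((rsL ha (lab code 0) 3).add (h.rwL hc' (lab code 2) 3))
      refine ih _ _ hc hl (by
        simp only [List.forall_mem_cons]
        exact ⟨⟨_, _, rZ, r0⟩, ⟨_, _, rZ.add rL, r1⟩, by simp⟩) ?_
      have e1 : SL 6 (w b) (lab code 1) 3 = 0 := Finset.sum_eq_zero fun j hj =>
        if_neg fun h3 => by have := f1 j (Finset.mem_range.1 hj); omega
      have e2 : SL 6 (w a) (lab code 0) 3 = e a * SL 6 (s a) (lab code 0) 3 := by
        rw [SL, SL, Finset.mul_sum]
        refine Finset.sum_congr rfl fun j hj => ?_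
        split_ifs with h3
        · have : j = 4 := ((f0 j (Finset.mem_range.1 hj)).resolve_left (by omega)).2
          rw [this]; exact h.hA a ha
        · exact (mul_zero _).symm
      have e3 : (e a : ℝ) ≠ 0 := by exact_mod_cast (by omega : e a ≠ 0)
      rw [e1, e2, add_zero, mul_div_cancel_left₀ _ e3] at key
      rcases key with k | k
      · exact ⟨_, List.mem_cons_self, _, _, rZ, r0, k⟩
      · exact ⟨_, List.mem_cons_of_mem _ List.mem_cons_self, _, _, rZ.add rL, r1, by linarith⟩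
    · rw [if_neg h0] at key
      rw [Bool.eq_false_iff.2 fun h => h0 (Nat.beq_eq.mp h), cond_false] at hc
      have r1 := ((r0.add (h.rwL hc' (lab code 2) 3)).mul i).add
        ((h.rwL ha (lab code 0) 3).add (h.rwL hb (lab code 1) 3))
      refine ih _ _ hc hl (by
        simp only [List.forall_mem_cons]
        exact ⟨⟨_, _, rZ, r0⟩, ⟨_, _, (rZ.add rL).mul i, r1⟩, by simp⟩) ?_
      have e3 : (0 : ℝ) < i := by exact_mod_cast Nat.pos_of_ne_zero h0
      rcases key with k | k
      · exact ⟨_, List.mem_cons_self, _, _, rZ, r0, k⟩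
      · refine ⟨_, List.mem_cons_of_mem _ List.mem_cons_self, _, _, (rZ.add rL).mul i, r1, ?_⟩
        have k2 := mul_le_mul_of_nonneg_left k e3.le
        have k3 := mul_div_cancel₀ (SL 6 (w a) (lab code 0) 3 + SL 6 (w b) (lab code 1) 3) e3.ne'
        linarith
  | c a b c i g code r ih =>
    intro ls p hc hl _ _
    simp only [check, forceN_eq, Bool.and_eq_true, Bool.or_eq_true, all6_iff, decide_eq_true_eq] at hc
    obtain ⟨⟨⟨⟨⟨⟨hr, hi, hg1, hg⟩, f0⟩, f1⟩, f2⟩, hend⟩, hc⟩ := hc
    obtain ⟨ha, hb, hc', -⟩ := id hr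
    have he := h.he a ha
    have hD : ∀ t j, j < 6 → dOK g j → vD e t j g := fun t j hj hd => by
      have := vD_of (e := e) (t := t) hj hd
      rwa [if_neg (by omega)] at this
    have key := h.pc.hC a b c hr (if i = 0 then e a else i) g (by split_ifs <;> omega) hg1
      (by omega) (lab code 0) (lab code 1) (lab code 2) (fun j hj =>
        ⟨(f0 j hj).imp id (And.imp id (vD_of hj)),
          (f1 j hj).imp id (Or.imp id (And.imp id (hD b j hj))),
          (f2 j hj).imp id (And.imp id (hD c j hj))⟩)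
      (hend.imp id (And.imp (fun _ => by split_ifs <;> omega) id))
    have r0 := ((((rsL (s := s) (w := w) (L := L) (z := z) ha (lab code 0) 1).add
      (rsL ha (lab code 0) 0)).add (rsL hb (lab code 1) 0)).add (rsL hc' (lab code 2) 1)).add
      (rsL hc' (lab code 2) 0)
    have r1 := r0.add (((rsL ha (lab code 0) 1).add (rsL hc' (lab code 2) 1)).add
      ((((rsL ha (lab code 0) 2).add (rsL hb (lab code 1) 2)).add (rsL hc' (lab code 2) 2)).mul 2))
    have r2 := (((h.rwL hb (lab code 1) 3).add (h.rwL hc' (lab code 2) 3)).mul 2).add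
      ((r1.add (((h.rwL ha (lab code 0) 0).add (h.rwL ha (lab code 0) 2)).add
        (h.rwL ha (lab code 0) 3))).mul g)
    have r3 := (((rZ (s := s) (w := w) (L := L) (z := z)).mul 2).add rL).mul g
    refine ih _ _ hc hl (by
      simp only [List.forall_mem_cons]
      exact ⟨⟨_, _, rZ, r0⟩, ⟨_, _, rZ.mul 2, r1⟩, ⟨_, _, r3, r2⟩, by simp⟩) ?_
    have e3 : (0 : ℝ) < g := by exact_mod_cast hg1
    rcases key with k | k | k
    · exact ⟨_, List.mem_cons_self, _, _, rZ, r0, k⟩
    · exact ⟨_, List.mem_cons_of_mem _ List.mem_cons_self, _, _, rZ.mul 2, r1, by exact_mod_cast k⟩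
    · refine ⟨_, List.mem_cons_of_mem _ (List.mem_cons_of_mem _ List.mem_cons_self), _, _, r3, r2, ?_⟩
      have k2 := mul_le_mul_of_nonneg_left k e3.le
      have k3 := mul_div_cancel₀ (SL 6 (w b) (lab code 1) 3 + SL 6 (w c) (lab code 2) 3) e3.ne'
      push_cast
      linarith
  | h a b c code r ih =>
    intro ls p hc hl _ _
    simp only [check, Bool.and_eq_true, decide_eq_true_eq] at hc
    obtain ⟨hr, hc⟩ := hc
    obtain ⟨ha, hb, hc', -⟩ := id hr
    have key := h.hH a b c hr (lab code 0) (fun _ => 1) (fun _ => 1) (fun _ => 0) (fun _ => 0) 1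
      (by simp) (by norm_num) rfl rfl (by simp)
    have e1 : ∀ f : ℕ → ℝ, SL 6 f (fun _ => 1) 1 = ∑ v ∈ range 6, f v := fun f => by simp [SL]
    simp only [e1, if_true, cost_zero le_rfl, Finset.sum_const_zero, add_zero] at key
    have r0 := (rsA (s := s) (w := w) (L := L) (z := z) ha).add (rsA hb)
    have r1 := ((rsL hc' (lab code 0) 1).mul 2).add r0
    have r2 := ((rsL hc' (lab code 0) 1).add r0).mul 2
    have r3 := (rZ.mul 2).add (h.rwL hc' (lab code 0) 1)
    refine ih _ _ hc hl (by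
      simp only [List.forall_mem_cons]
      exact ⟨⟨_, _, rZ.mul 2, r1⟩, ⟨_, _, r3, r2⟩, by simp⟩) ?_
    rcases max_choice ((∑ v ∈ range 6, s a v + ∑ v ∈ range 6, s b v) / 2)
      ((∑ v ∈ range 6, s a v + ∑ v ∈ range 6, s b v) - SL 6 (w c) (lab code 0) 1 / (2 * (1 : ℕ))) with
      k | k <;> rw [cost, k] at key
    · exact ⟨_, List.mem_cons_self, _, _, rZ.mul 2, r1, by push_cast; linarith⟩
    · exact ⟨_, List.mem_cons_of_mem _ List.mem_cons_self, _, _, r3, r2, by push_cast at key ⊢; linarith⟩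
  | t a b c q r ih =>
    intro ls p hc hl _ _
    simp only [check, Bool.and_eq_true, decide_eq_true_eq] at hc
    obtain ⟨⟨hr, hq⟩, hc⟩ := hc
    obtain ⟨ha, hb, hc', -⟩ := id hr
    have r0 := (rsA (s := s) (w := w) (L := L) (z := z) ha).add (rsA hb)
    have r1 := ((rS hc' (by norm_num : 4 < 6)).mul (10 + 4 * q)).add (r0.mul (7 + q))
    have r2 := (h.rW hc' (by norm_num : 4 < 6)).add (h.rW hc' (by norm_num : 5 < 6))
    refine ih _ _ hc hl (by
      simp only [List.forall_mem_cons]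
      exact ⟨⟨_, _, rZ.mul _, r1⟩, ⟨_, _, r2, r0⟩, by simp⟩) ?_
    rcases h.hT a b c hr q hq with k | k
    · exact ⟨_, List.mem_cons_of_mem _ List.mem_cons_self, _, _, r2, r0, k⟩
    · exact ⟨_, List.mem_cons_self, _, _, rZ.mul _, r1, by push_cast; linarith⟩

theorem perm (p : ℕ → ℕ) (hp : ∀ t < 3, p t < 3)
    (hr : ∀ a b c, Roles a b c → Roles (p a) (p b) (p c)) :
    VT K (fun t => e (p t)) (fun t => s (p t)) (fun t => w (p t)) L z :=
  ⟨⟨fun a b c r => h.pc.hT _ _ _ (hr a b c r), fun a b c r => h.pc.hP _ _ _ (hr a b c r),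
    fun a b c r => h.pc.hC _ _ _ (hr a b c r)⟩, h.hK, fun t ht => h.he _ (hp t ht),
    fun t ht => h.s0 _ (hp t ht), fun t ht => h.w0 _ (hp t ht), fun t ht => h.hw _ (hp t ht),
    fun t ht => h.hA _ (hp t ht), fun t ht => h.hB _ (hp t ht), fun t ht => h.hL _ (hp t ht),
    fun a b c r => h.hH _ _ _ (hr a b c r), fun a b c r => h.hT _ _ _ (hr a b c r)⟩

theorem holds_baseR {t : ℕ} (ht : t < 3) : ∀ c ∈ baseR t, Holds (vec s w L z) c := by
  have r4 := rS (s := s) (w := w) (L := L) (z := z) ht (by norm_num : 4 < 6)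
  have r5 := rS (s := s) (w := w) (L := L) (z := z) ht (by norm_num : 5 < 6)
  have w4 := h.rW ht (by norm_num : 4 < 6)
  have w5 := h.rW ht (by norm_num : 5 < 6)
  obtain ⟨h1, h2, h3⟩ := h.hB t ht
  simp only [baseR, List.forall_mem_cons]
  refine ⟨⟨_, _, h.rwL ht _ _, rL, ?_⟩, ⟨_, _, r4.mul 5, w4, ?_⟩, ⟨_, _, r5.mul 5, w5, by exact_mod_cast h1⟩,
    ⟨_, _, r5.mul 6, w5.add r4, by exact_mod_cast h2⟩,
    ⟨_, _, (r5.mul 6).add (r4.mul 5), w4.add w5, by push_cast; linarith⟩, by simp⟩
  · rw [SL, Finset.sum_congr rfl fun _ _ => if_pos rfl]; exact h.hL t ht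
  · rw [h.hA t ht]
    exact mul_le_mul_of_nonneg_right (by exact_mod_cast (h.he t ht).1) (h.s0 t ht 4)

theorem lp_sorted {T : Tree} (hT : forceL baseL (fun ls => check T ls [(0, 0)]) = true)
    (hS : ∑ j ∈ range 6, s 0 j + ∑ j ∈ range 6, s 1 j + ∑ j ∈ range 6, s 2 j ≤ L)
    (h1 : ∑ j ∈ range 6, s 1 j ≤ ∑ j ∈ range 6, s 0 j)
    (h2 : ∑ j ∈ range 6, s 2 j ≤ ∑ j ∈ range 6, s 1 j) :
    9 * z ≤ 5 * (∑ j ∈ range 6, s 0 j + ∑ j ∈ range 6, s 1 j + ∑ j ∈ range 6, s 2 j) := by
  have k : ∀ t < 3, 0 ≤ ∑ j ∈ range 6, s t j := fun t ht =>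
    Finset.sum_nonneg fun j _ => h.s0 t ht j
  have k0 := k 0 (by norm_num)
  have k2 := k 2 (by norm_num)
  rcases le_total z 0 with hz | hz
  · linarith
  rw [forceL_eq] at hT
  have r0 := rsA (s := s) (w := w) (L := L) (z := z) (by norm_num : 0 < 3)
  have r1 := rsA (s := s) (w := w) (L := L) (z := z) (by norm_num : 1 < 3)
  have r2 := rsA (s := s) (w := w) (L := L) (z := z) (by norm_num : 2 < 3)
  refine h.sound (fun k => ?_) T _ _ hT ?_
    (fun c hc => List.mem_singleton.1 hc ▸ ⟨0, 0, Rep.zero, Rep.zero⟩)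
    ⟨_, List.mem_singleton_self _, 0, 0, Rep.zero, Rep.zero, le_rfl⟩
  · unfold vec
    split_ifs
    · exact h.s0 _ (by omega) _
    · exact h.w0 _ (by omega) _
    · linarith
    · exact hz
  · simp only [baseL, List.forall_mem_append, List.forall_mem_cons]
    exact ⟨⟨⟨_, _, r2, r1, h2⟩, ⟨_, _, r1, r0, h1⟩, ⟨_, _, (r0.add r1).add r2, rL, hS⟩,
      ⟨_, _, rZ, r1.add r2, h.pc.hT 0 1 2 (by decide)⟩, ⟨_, _, rZ, r0.add r2, h.pc.hT 1 0 2 (by decide)⟩,
      ⟨_, _, rZ, r0.add r1, h.pc.hT 2 0 1 (by decide)⟩, by simp⟩, h.holds_baseR (by norm_num),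
      h.holds_baseR (by norm_num), h.holds_baseR (by norm_num)⟩

theorem lp {T : Tree} (hT : forceL baseL (fun ls => check T ls [(0, 0)]) = true)
    (hS : ∑ j ∈ range 6, s 0 j + ∑ j ∈ range 6, s 1 j + ∑ j ∈ range 6, s 2 j ≤ L) :
    9 * z ≤ 5 * (∑ j ∈ range 6, s 0 j + ∑ j ∈ range 6, s 1 j + ∑ j ∈ range 6, s 2 j) := by
  have key : ∀ a b c : ℕ, Roles a b c → ∑ j ∈ range 6, s b j ≤ ∑ j ∈ range 6, s a j →
      ∑ j ∈ range 6, s c j ≤ ∑ j ∈ range 6, s b j →
      ∑ j ∈ range 6, s a j + ∑ j ∈ range 6, s b j + ∑ j ∈ range 6, s c j ≤ L →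
      9 * z ≤ 5 * (∑ j ∈ range 6, s a j + ∑ j ∈ range 6, s b j + ∑ j ∈ range 6, s c j) := by
    intro p₀ p₁ p₂ hr a1 a2 a3
    refine (h.perm (fun t => if t = 0 then p₀ else if t = 1 then p₁ else p₂) (fun t _ => ?_)
      fun a b c hh => ?_).lp_sorted hT a3 a1 a2
    · unfold Roles at hr
      split_ifs <;> omega
    · unfold Roles at *
      split_ifs <;> omega
  rcases le_total (∑ j ∈ range 6, s 0 j) (∑ j ∈ range 6, s 1 j) with a | a <;>
  rcases le_total (∑ j ∈ range 6, s 1 j) (∑ j ∈ range 6, s 2 j) with b | b <;>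
  rcases le_total (∑ j ∈ range 6, s 0 j) (∑ j ∈ range 6, s 2 j) with c | c
  · linarith [key 2 1 0 (by decide) b a (by linarith)]
  · linarith [key 2 1 0 (by decide) b a (by linarith)]
  · linarith [key 1 2 0 (by decide) b c (by linarith)]
  · linarith [key 1 0 2 (by decide) a c (by linarith)]
  · linarith [key 2 0 1 (by decide) c a (by linarith)]
  · linarith [key 0 2 1 (by decide) c b (by linarith)]
  · exact key 0 1 2 (by decide) a b hS
  · exact key 0 1 2 (by decide) a b hS

end VT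

end Pool.Agent.MP_2a5a28_nt.H39

/-! The branching certificate (machine generated). -/

namespace Pool.Agent.MP_2a5a28_nt.H39

/-- The certificate. -/
def cert : Tree :=
  (.p 0 2 1 1 251670531 (.pick 1 (.leaf 5 121 5841) (.pick 0 (.p 0 1 2 3 50528304 (.pick 1 (.leaf 5 33 116) (.pick 0 (.p 0 1 2 3 251854896 (.pick 1 (.leaf 5 1921 13331) (.pick 0
  (.p 0 2 1 3 50528304 (.pick 1 (.leaf 6 7681 46556) (.pick 0 (.p 0 2 1 3 251854896 (.pick 1 (.leaf 5 30721 5831) (.pick 0 (.p 1 2 0 3 1057161264 (.pick 0 (.p 0 2 1 2 50381004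
  (.pick 1 (.leaf 9 245761 137567) (.pick 0 (.p 0 1 2 3 1057161264 (.pick 0 (.p 1 2 0 2 51167436 (.pick 1 (.leaf 7 2216558593 2863016) (.pick 0 (.p 0 2 1 2 51167436 (.pick 1 (.leaf
  91 163225010177 4291829207791263992) (.pick 0 (.p 0 1 2 2 51167436 (.pick 1 (.leaf 51 21002977281 598925252390268557) (.pick 0 (.p 0 1 2 4 1057751232 (.pick 0 (.p 0 1 2 2
  1057800396 (.pick 0 (.p 0 1 2 1 855846963 (.pick 0 (.p 0 2 1 0 1056965376 (.pick 0 (.p 0 2 1 4 1057751232 (.pick 0 (.p 0 1 2 1 251719743 (.pick 0 (.p 1 2 0 2 1057800396 (.pick 0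
  (.h 1 2 0 256 (.pick 0 (.c 0 1 2 0 1 45801801556 (.pick 2 (.leaf 31 173409304579 6203127166) (.pick 1 (.c 0 1 2 0 2 45801801540 (.pick 2 (.leaf 31 693637218313 6203126701) (.pick
  0 (.leaf 3 68719476757 151) (.pick 0 (.c 0 1 2 0 3 45801801552 (.pick 0 (.leaf 3 274877907011 151) (.pick 1 (.leaf 31 11098195492993 6203126546) (.pick 0 (.c 0 2 1 0 3
  45801800448 (.pick 0 (.leaf 6 137438954001 5066) (.pick 1 (.h 1 2 0 1104 (.pick 0 (.leaf 3 33556481 52) (.pick 0 (.c 0 1 2 0 1 45801800448 (.pick 0 (.leaf 8 4398046519553 7979)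
  (.pick 0 (.leaf 7 13194139549697 11510) (.pick 0 (.leaf 19 580542139498529 46197233) .done)))) .done))) (.pick 0 (.h 1 2 0 1104 (.pick 0 (.leaf 4 52776558137347 2026) (.pick 0
  (.c 0 1 2 0 1 45801800448 (.pick 0 (.leaf 12 149533581394433 310421) (.pick 0 (.leaf 7 26388279099393 11510) (.pick 0 (.leaf 6 1161084278997025 13796) .done)))) .done)))
  .done)))) .done)))) .done)))) (.pick 0 (.p 0 1 2 1 51130371 (.pick 1 (.leaf 16 5299989643315 142697144118) (.pick 0 (.h 0 2 1 16 (.pick 0 (.leaf 4 274877908553 7674) (.pick 0 (.p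
  0 2 1 0 3472884480 (.pick 1 (.leaf 97 2476237624722219 408050995108263629642868813) (.pick 0 (.h 0 2 1 64 (.pick 0 (.leaf 7 4398046512259 64697) (.pick 0 (.c 0 1 2 0 1
  45801813844 (.pick 2 (.leaf 11 354042744148489 29310616) (.pick 1 (.leaf 8 4398046520321 8035) (.pick 0 (.c 0 1 2 0 2 45801850708 (.pick 2 (.leaf 21 2832341953708035 4502818267)
  (.pick 1 (.leaf 5 73761 3037) (.pick 0 (.p 1 2 0 0 55817798400 (.pick 1 (.leaf 21 15199648742670337 1970018030) (.pick 0 (.p 0 2 1 0 17163092736 (.pick 0 (.t 0 2 1 0 (.pick 1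
  (.leaf 31 18451247673339036819 41438697544270) (.pick 0 (.h 0 2 1 256 (.pick 0 (.leaf 9 18014398517936649 1443037) (.pick 0 (.leaf 181 18482772870747521029 130468060357230947)
  .done))) .done))) (.pick 0 (.p 0 2 1 0 13136560896 (.pick 0 (.leaf 45 20761594282182215715 1553204806951608) (.pick 0 (.leaf 9 23112473287674892881 645052575023) .done)))
  .done))) .done))) .done)))) .done)))) .done))) .done))) .done))) .done))) .done)))) (.pick 0 (.p 2 0 1 0 3472884480 (.pick 0 (.p 2 1 0 0 3472884480 (.pick 0 (.t 1 2 0 1 (.pick 0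
  (.leaf 33 700079669257 18432030779) (.pick 0 (.h 1 2 0 1024 (.pick 0 (.leaf 11 18451179503619 7045449) (.pick 0 (.p 0 2 1 2 4279025868 (.pick 0 (.p 0 1 2 3 4278386736 (.pick 0
  (.p 1 0 2 0 4278190848 (.pick 0 (.c 1 2 0 0 3 45801998160 (.pick 1 (.h 0 2 1 256 (.pick 1 (.h 0 2 1 1024 (.pick 0 (.t 0 2 1 1 (.pick 1 (.leaf 5 36068379437563907 3981) (.pick 0
  (.p 0 2 1 4 55818584256 (.pick 1 (.leaf 45 108244720731291659 7646259044057) (.pick 0 (.p 0 2 1 3 55817994288 (.pick 1 (.leaf 34 432978882925166633 812286463550) (.pick 0 (.h 1 2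
  0 64 (.pick 0 (.leaf 7 844424930132105 22955) (.pick 0 (.h 1 2 0 16 (.pick 0 (.leaf 7 3377699720528393 22955) (.pick 0 (.p 1 2 0 0 68702700288 (.pick 0 (.leaf 17
  18451247673336928769 168065051) (.pick 0 (.leaf 54 313603656452334163025 1504830291787723724) .done))) .done))) .done))) .done))) .done))) .done))) (.pick 0 (.h 1 2 0 1344 (.pick
  1 (.p 1 2 0 4 68703486144 (.pick 0 (.p 0 1 2 1 51376383 (.pick 0 (.leaf 15 1338800542352212013 399663133722859) (.pick 0 (.h 0 2 1 1344 (.pick 1 (.p 0 1 2 1 855896127 (.pick 0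
  (.leaf 121 10701397139562434595 23586319983101629999407) (.pick 0 (.p 1 2 0 3 4278386736 (.pick 1 (.leaf 61 1417088022049628119177 15116492192026859456388292616) (.pick 0 (.p 2 1
  0 0 13941867264 (.pick 1 (.leaf 13 5185277977768251982369 332285330652987252) (.pick 0 (.p 0 1 2 3 55817994288 (.pick 1 (.leaf 259 23116130219359205461163
  99717052663635498208017948343128049234726167574636) (.pick 0 (.leaf 123 55529419434276074033493 51408613371751628909350845718422605650486) .done))) .done))) .done))) .done)))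
  (.pick 0 (.h 0 2 1 1280 (.pick 1 (.leaf 13 20772290331292992035 32892160266) (.pick 0 (.leaf 11 41506300065753335109 680981481) .done))) .done))) .done))) (.pick 0 (.h 0 1 2 256
  (.pick 0 (.p 2 1 0 0 1056965376 (.pick 1 (.leaf 4671 180864561103938650291 350280141743685802382565770503131075654786552194739057508575297221) (.pick 0 (.leaf 36
  325103598100807717 790129038322) .done))) (.pick 0 (.h 0 1 2 320 (.pick 0 (.leaf 101 361153505743064799595 2964342266677424033026807709398711094511) (.pick 0 (.h 0 2 1 1280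
  (.pick 0 (.leaf 111 42659221570362311937 84670999991056428146) (.pick 0 (.h 0 1 2 1040 (.pick 0 (.leaf 205 5197379152167655510659 39442174595000538308122236969057928274683344)
  (.pick 0 (.p 0 2 1 3 4278386736 (.pick 0 (.leaf 1843 21972378043600261630635 583331418638918256147323002879878631307708874411021171791246594152884538583) (.pick 0 (.leaf 331
  43797254174612698699029 90439192577515758984005866643182745376247480440829) .done))) .done))) .done))) .done))) .done))) .done))) (.pick 0 (.h 0 2 1 1280 (.pick 0 (.leaf 11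
  1297353352031502377 61995751) (.pick 0 (.h 1 2 0 1280 (.pick 0 (.leaf 11 166914661189685249 61995751) (.pick 0 (.h 1 2 0 64 (.pick 0 (.leaf 19 20757653632504045577 4533341790)
  (.pick 0 (.leaf 9 1192328001346338885 11123273) .done))) .done))) .done))) .done))) .done))) (.pick 0 (.p 1 2 0 0 1056965376 (.pick 1 (.leaf 2941 5058421990839910443
  6233456478946108707740942457985431765471606911806430739) (.pick 0 (.h 1 2 0 16 (.pick 0 (.leaf 7 52776558133259 22955) (.pick 0 (.c 1 0 2 0 4 45801801540 (.pick 2 (.leaf 61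
  720787046611812385 669070190417) (.pick 1 (.c 1 0 2 0 2 45801801492 (.pick 0 (.leaf 3 2251799813685379 151) (.pick 1 (.leaf 31 5766296372894499073 6189273886) (.pick 0 (.c 1 0 2
  0 2 45801800528 (.pick 0 (.leaf 3 18014398509483011 151) (.pick 1 (.leaf 7 9236882835736889345 105128) (.pick 0 (.p 1 2 0 0 4278190848 (.pick 1 (.c 1 0 2 0 1 45801801472 (.pick 2
  (.leaf 31 369042967865247940609 6189274351) (.pick 0 (.leaf 3 576460752303456265 151) (.pick 0 (.c 0 1 2 4 3 45801997780 (.pick 0 (.leaf 45 10035317006474148487475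
  494758650732330681972) (.pick 1 (.leaf 156 20697823311454420598853 1101357607229413976122) (.pick 0 (.c 1 0 2 0 4 45801800516 (.pick 2 (.leaf 13 4729284011897287344129 4535665)
  (.pick 0 (.leaf 3 36893488147421200417 151) (.pick 0 (.c 1 0 2 0 2 45801800468 (.pick 2 (.leaf 7 37834272095178298753025 105128) (.pick 0 (.leaf 5 18087937 2697) (.pick 0 (.c 1 0
  2 0 1 45801800448 (.pick 2 (.leaf 7 302674176761426390024193 105149) (.pick 1 (.leaf 7 885443715538192695297 4307) (.pick 0 (.leaf 17 18889465931478866071561 68591829) .done))))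
  .done)))) .done)))) .done)))) .done)))) (.pick 0 (.h 1 2 0 1280 (.pick 0 (.leaf 49 83082405925873680897 14756821944496737) (.pick 0 (.leaf 37 166453042227882295301
  1182718003394938) .done))) .done))) .done)))) .done)))) (.pick 0 (.c 0 1 2 2 1 45810890204 (.pick 0 (.leaf 25 662029145224528195 291810092780937) (.pick 1 (.leaf 271
  45045003472959750661 5832747540928115271342802113) (.pick 0 (.p 0 2 1 4 12936020160 (.pick 1 (.leaf 1141 51305006955013212819 507471766451771532566494489110904494319) (.pick 0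
  (.h 1 2 0 64 (.pick 0 (.leaf 9 18014407099424835 692518) (.pick 0 (.leaf 121 42081634918221238401 33467359282957860737) .done))) .done))) .done)))) .done)))) .done))) .done)))
  .done))) (.pick 0 (.leaf 61 1269935930132515 2163357943496243737) (.pick 0 (.h 0 2 1 256 (.pick 0 (.c 1 0 2 0 4 45801801552 (.pick 2 (.leaf 61 90098380826476547 669070190417)
  (.pick 1 (.c 1 0 2 0 4 45801801540 (.pick 2 (.leaf 61 360393523305906185 669070190417) (.pick 0 (.leaf 3 562949953421333 151) (.pick 0 (.p 0 2 1 3 55817994288 (.pick 1 (.leaf 22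
  1734167331514351683 7857879907) (.pick 0 (.c 1 0 2 0 2 45801801492 (.pick 2 (.leaf 31 11532592745788997889 6189273886) (.pick 0 (.leaf 3 18014398509482625 151) (.pick 0 (.c 1 0 2
  0 2 45801801472 (.pick 2 (.leaf 31 92260741966311983105 6189273886) (.pick 0 (.leaf 3 144115188075859973 151) (.pick 0 (.c 1 0 2 0 2 45801800528 (.pick 2 (.leaf 7
  147790125371790213121 105128) (.pick 0 (.leaf 3 1152921504606887937 151) (.pick 0 (.c 1 0 2 0 2 45801800516 (.pick 2 (.leaf 7 1182321002974321704961 105128) (.pick 0 (.leaf 3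
  9223372036855037985 151) (.pick 0 (.c 1 0 2 0 2 45801800512 (.pick 2 (.leaf 7 9458568023794573639681 105128) (.pick 0 (.leaf 3 73786976294840305665 151) (.pick 0 (.p 1 2 0 0
  17163092736 (.pick 0 (.leaf 96 56779078258883376972929 210393198043627869548) (.pick 0 (.c 1 0 2 0 4 45801800468 (.pick 2 (.leaf 13 302674176761426356469761 4535665) (.pick 0
  (.leaf 45 302231454904215706599425 17558831677) (.pick 0 (.c 1 0 2 0 1 45801800464 (.pick 2 (.leaf 7 2421393414091410851758081 105149) (.pick 0 (.leaf 3 18889465931479118249985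
  151) (.pick 0 (.c 1 0 2 0 1 45801800452 (.pick 2 (.leaf 7 19371147312731286814064641 105149) (.pick 0 (.leaf 9 755578637259147529748481 874309) (.pick 0 (.c 1 0 2 0 2 45801800448
  (.pick 1 (.leaf 7 226673591177760150126593 4307) (.pick 1 (.leaf 7 309938357003700589025034241 105128) (.pick 0 (.leaf 3 2417851639229327069020161 151) .done)))) .done))))
  .done)))) .done)))) .done))) .done)))) .done)))) .done)))) .done)))) .done)))) .done))) .done)))) (.pick 0 (.p 1 2 0 0 4278190848 (.pick 0 (.leaf 61 82753643153072147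
  35342050340117967) (.pick 0 (.h 1 2 0 16 (.pick 0 (.leaf 13 9799833064036631051 1805910251) (.pick 0 (.c 0 1 2 2 1 45801813468 (.pick 2 (.leaf 271 8295630513616470305
  64330178934386378585930616) (.pick 1 (.leaf 93 81046778894163706453 157405769910800313703367445) (.pick 0 (.leaf 6 156905411017588081833 12541701) .done)))) .done))) .done)))
  .done)))) (.pick 0 (.p 0 2 1 3 17163288624 (.pick 0 (.leaf 5776 22610409890150253099 198155605956214426673455155856848633616369345889701321053199664430352903944) (.pick 0 (.leaf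
  26851 17550774038480356437 377310789957997970847422262168830574516718739823812283185805341256014577472234568277808937399) .done))) .done))) .done)))) (.pick 0 (.h 0 2 1 256
  (.pick 1 (.leaf 1431 44054132390504503 29774030725959064051910623086323802512186837377893917) (.pick 0 (.c 1 0 2 0 4 45801801556 (.pick 0 (.leaf 71 63155947899453451
  691880054267926) (.pick 1 (.leaf 61 90098380826476549 669070190417) (.pick 0 (.p 1 2 0 0 17163092736 (.pick 0 (.leaf 79 54148748644717587 383691923605990660) (.pick 0 (.c 1 0 2 0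
  1 45801801552 (.pick 2 (.leaf 31 1441574093223624769 6189274351) (.pick 0 (.leaf 3 2251799813685393 151) (.pick 0 (.p 1 2 0 0 4278190848 (.pick 0 (.leaf 102 1372471986443256339
  2208753656532098692846) (.pick 0 (.h 1 2 0 64 (.pick 0 (.leaf 9 156810835426621270025 7832215993) (.pick 0 (.leaf 18 350515158998245921301 63889766779765940) .done))) .done)))
  .done)))) .done))) .done)))) .done))) .done))) (.pick 0 (.h 1 2 0 1344 (.pick 1 (.h 0 1 2 64 (.pick 0 (.leaf 36 1269935930089475 790129737622) (.pick 0 (.h 0 2 1 256 (.pick 0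
  (.leaf 61 157630387151962139 356614886180073217) (.pick 0 (.p 0 2 1 3 55817994288 (.pick 0 (.leaf 1552 702684695768728043
  2212566120604782397832669095920561652026701126222241843171437360) (.pick 0 (.leaf 180 40609063444669072337 872346702965223629808856216171749838607844314754572) .done))) .done)))
  .done))) (.pick 0 (.h 1 2 0 1280 (.pick 0 (.leaf 11 2608041581088833 61995751) (.pick 0 (.h 1 2 0 64 (.pick 0 (.leaf 25 342299959961321705 12039592033627410) (.pick 0 (.leaf 9
  18067175067615253 1564625) .done))) .done))) .done))) .done))) (.pick 0 (.h 1 2 0 64 (.pick 1 (.h 1 2 0 1344 (.pick 1 (.c 0 1 2 2 4 45802586332 (.pick 0 (.leaf 2197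
  548473783867039759 640252465396120316521463767537127410855178371137914380663001214) (.pick 1 (.leaf 1305 2772262438786879525
  28309948960951997851935144975518106790825282566309563140737361) (.pick 0 (.p 2 1 0 0 65481474816 (.pick 0 (.h 0 1 2 256 (.pick 0 (.leaf 8 52776558133315 239514) (.pick 0 (.c 0 1
  2 2 3 45801997788 (.pick 2 (.leaf 43 81557408861651329 2529813965682519) (.pick 0 (.leaf 661 180882856908705238805 20715502901829880919607652016073499071848091698426924196)
  (.pick 0 (.p 0 1 2 2 13942702284 (.pick 0 (.p 0 1 2 3 4278386736 (.pick 0 (.p 0 1 2 1 1057222719 (.pick 1 (.h 0 2 1 320 (.pick 0 (.leaf 277 5049805197378888785935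
  21375169394259035689946388597427593306253373) (.pick 0 (.h 0 2 1 1088 (.pick 0 (.leaf 523 20718593912940282740779 154578247770480416606373727157863761415010472312954) (.pick 0
  (.p 0 2 1 1 1056976911 (.pick 1 (.leaf 709 92455513678191073036747 296802061005140967717390502154246295173574239539749952892051) (.pick 0 (.leaf 1855 184928897569334809072597
  458512103208514434929407708391253551576429008719663836602951582798526742) .done))) .done))) .done))) (.pick 0 (.p 1 2 0 4 4278976704 (.pick 0 (.leaf 20971 11576502842155927324955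
  998660702927379745175755350274529493300935937781231754937030623407542025340460549784390176) (.pick 0 (.leaf 117 30160480603710780047413 3176540357973961798498923904529679421)
  .done))) .done))) (.pick 0 (.p 0 2 1 2 3473719500 (.pick 0 (.leaf 101 5769809180604418269331 213899590588287035744369936171831519) (.pick 0 (.leaf 3301 15081717482534241157141
  1544410050484329873119451849730751190277495916658764435978586839838429) .done))) .done))) (.pick 0 (.c 0 1 2 3 3 45801997680 (.pick 2 (.leaf 2413 2884906843339543818563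
  9678213530272156395728840596210713236933161757340727758964002463799847) (.pick 1 (.p 0 1 2 3 55817994288 (.pick 1 (.leaf 63991 11355177942621408577833
  100630156100465360954236742485930404329878134229313587785020013552228115068659500121436407252758618154959304436) (.pick 0 (.p 0 2 1 2 1057800396 (.pick 1 (.leaf 57
  46130911415116912329891 14365717643539395149229036408262933) (.pick 0 (.p 0 1 2 1 1057026111 (.pick 1 (.leaf 24793 184523069199747559231531
  1511178359792588091114063822294272427989605281117638190774005590757429181918853359126144675131537) (.pick 0 (.h 0 2 1 64 (.pick 0 (.leaf 313 718391154128328558985729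
  47756560090515220123313661694579) (.pick 0 (.h 0 2 1 320 (.pick 1 (.leaf 2665 2963584728718641902201003
  41101106306852923018057779791032149764651612920918441958650487428816017040418586665696019) (.pick 0 (.leaf 303 5209365140353430036025365
  36308471163474547193614124349055803760774534153) .done))) .done))) .done))) .done))) .done))) (.pick 0 (.leaf 3427 11538492461302128298259
  7191576604597266288240403552041726769495475103186988887757082862996425992) .done)))) .done))) .done)))) .done))) (.pick 0 (.h 0 2 1 320 (.pick 0 (.leaf 157 40465088942537704267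
  40567334342150665466456689258504588028134) (.pick 0 (.h 0 1 2 256 (.pick 1 (.leaf 130 180882856977424975131 69182147758433614881863891421474560248929640) (.pick 0 (.leaf 1231
  361765713954849430037 12468669960121047722976513890164179047352716093289791019183828) .done))) .done))) .done))) .done)))) (.pick 0 (.h 1 2 0 1280 (.pick 0 (.leaf 16
  2608041581089025 826545140) (.pick 0 (.leaf 9 1842781488152597 97216787) .done))) .done))) (.pick 0 (.h 0 2 1 64 (.pick 0 (.leaf 7 3298535407619 23837) (.pick 0 (.p 0 2 1 4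
  4278976704 (.pick 0 (.leaf 301 5058391204514760745 2505620667613885075924398468907866) (.pick 0 (.p 0 1 2 4 55818584256 (.pick 1 (.leaf 4681 22537138435273531435
  1988685763155325311803240790085591954259812234918675347) (.pick 0 (.leaf 91 42889749577351237 390370168244532664137) .done))) .done))) .done))) .done))) .done))) .done)))
  .done))) (.pick 0 (.c 0 1 2 2 1 45801801180 (.pick 2 (.leaf 46 10505490006017 2194809175756) (.pick 0 (.h 1 2 0 64 (.pick 1 (.leaf 11 1786706395147 5250491) (.pick 0 (.p 0 2 1 4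
  3473670336 (.pick 1 (.leaf 97 5350223580794891 7618985436670578927) (.pick 0 (.leaf 6 9572348231426133 2078684) .done))) .done))) (.pick 0 (.h 1 2 0 64 (.pick 1 (.leaf 3
  2680059592723 4282) (.pick 0 (.h 0 1 2 256 (.pick 1 (.leaf 211 36363323431715019 8749848628022794116080866) (.pick 0 (.c 0 1 2 4 3 45801801156 (.pick 1 (.leaf 241
  1370433491883262243 3252217464331087904283839208) (.pick 0 (.leaf 5 4398046511189 4922) (.pick 0 (.leaf 91 2022960657619485865 33664903755107033797903) .done)))) .done)))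
  .done))) .done)))) .done))) (.pick 0 (.h 0 2 1 64 (.pick 1 (.leaf 22 5415953764395 39231577453612884) (.pick 0 (.h 1 2 0 1024 (.pick 0 (.leaf 21 18743237279753 543003178) (.pick
  0 (.h 1 2 0 1344 (.pick 1 (.leaf 73 85641166845919785 114851171041886836454285) (.pick 0 (.p 1 2 0 4 3272343744 (.pick 0 (.leaf 2002 342608372971274923
  24641685384497658420186314363813589334558225165493882544) (.pick 0 (.leaf 901 613160251415598165 25816919120031969476475762729373710296205) .done))) .done))) .done))) .done)))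
  .done))) .done))) (.pick 0 (.p 1 2 0 4 1057751232 (.pick 1 (.c 0 1 2 3 3 45801801076 (.pick 0 (.leaf 241 42962558386451 1536858050701193765734684260141) (.pick 1 (.leaf 6
  165357289473 77234) (.pick 0 (.p 1 2 0 2 252494028 (.pick 0 (.leaf 3061 11040823323919507 136384902397600605954638233560488207151289997257792884835934007) (.pick 0 (.leaf 601
  19827699350835489 48755526838559633688279118738435811833222587243) .done))) .done)))) (.pick 0 (.c 0 2 1 3 4 45802587504 (.pick 0 (.leaf 463 2760214420914731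
  52603000734369899265225376484991509901688630377015) (.pick 1 (.leaf 97 5502798001095381 119426345726503647260250348788823435) (.pick 0 (.p 0 2 1 3 3473080368 (.pick 1 (.leaf 1057
  22079413256460625 397822292820432222526847071704258472735987035528501732) (.pick 0 (.h 0 2 1 320 (.pick 0 (.leaf 121 77621191593960779 351913262478610365088145494284331) (.pick 0
  (.p 0 1 2 3 4278386736 (.pick 0 (.leaf 30811 348801372348527915 5142032375351485038892794829722439456071960033223491164529281815935228072115008410397404039829) (.pick 0 (.p 0 2 1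
  2 1057800396 (.pick 0 (.leaf 808 1413082448413480107 2217080550437846805287642320040516630504334009856952297521049798) (.pick 0 (.h 0 1 2 320 (.pick 0 (.leaf 865
  5075855847209456171 28323852103052651898198879748622793387590620980739) (.pick 0 (.leaf 2391 11299021296511656021
  88737965980213668357685111423533552110067816837695600496697493081911943437273) .done))) .done))) .done))) .done))) .done))) .done)))) .done))) .done))) (.pick 0 (.p 0 1 2 1
  251719695 (.pick 1 (.leaf 5 1073745985 2746) (.pick 0 (.p 0 2 1 2 1057800396 (.pick 0 (.h 1 2 0 256 (.pick 0 (.leaf 6 420906795537 59360) (.pick 0 (.h 1 2 0 1024 (.pick 0 (.leaf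
  15 5239860232257 548381014) (.pick 0 (.h 1 2 0 16 (.pick 0 (.c 0 1 2 3 3 45801801072 (.pick 2 (.leaf 4 5291403902979 57194) (.pick 1 (.c 0 1 2 3 1 45801801012 (.pick 2 (.leaf 31
  299891796475913 6203127166) (.pick 0 (.leaf 8 1099511627797 7979) (.pick 0 (.c 0 1 2 3 3 45801799796 (.pick 2 (.leaf 7 147334558122049 112324) (.pick 0 (.leaf 3 70368744177797
  151) (.pick 0 (.h 1 2 0 320 (.pick 0 (.leaf 6 140737488355841 572) (.pick 0 (.c 0 1 2 3 4 45801799984 (.pick 0 (.leaf 3 1125899906845185 151) (.pick 1 (.leaf 61 27443810229293057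
  669485565647) (.pick 0 (.c 0 1 2 3 3 45801800816 (.pick 0 (.leaf 3 9007199254757889 151) (.pick 1 (.leaf 31 363665669910200321 6203126546) (.pick 0 (.c 0 1 2 3 3 45801799728
  (.pick 1 (.leaf 7 13510798882242561 11510) (.pick 1 (.leaf 7 603482350067908609 112324) (.pick 0 (.leaf 8 36028797019490305 7979) .done)))) .done)))) .done)))) .done))) .done))))
  .done)))) (.pick 0 (.c 0 1 2 3 4 45802587508 (.pick 1 (.leaf 3 8796093022227 157) (.pick 1 (.leaf 301 42814982785597477 202962484204286740858317) (.pick 0 (.h 0 2 1 256 (.pick 0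
  (.leaf 31 171242338956379523 29670543900248982) (.pick 0 (.leaf 127 352002063448746757 8748223515615744854723360445254790139) .done))) .done)))) .done)))) (.pick 0 (.h 1 2 0 1280
  (.pick 0 (.leaf 11 163002598817833 61995751) (.pick 0 (.h 0 2 1 272 (.pick 1 (.p 0 2 1 3 1057161264 (.pick 1 (.leaf 9601 1230648198314419207
  8144859210055645540498946007243358263584638079174521909197199) (.pick 0 (.h 0 2 1 1360 (.pick 0 (.p 1 2 0 4 1057751232 (.pick 1 (.leaf 13 61572651155585 4694863) (.pick 0 (.h 0 1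
  2 256 (.pick 0 (.leaf 621 40609028225932501705 49127122267875115281260498773692932802143784940879994) (.pick 0 (.h 0 1 2 1344 (.pick 0 (.leaf 1117 180721290340774054187
  2244191841853601749136500548712587629525447608536451764) (.pick 0 (.p 1 2 0 2 3473719500 (.pick 1 (.leaf 6877 686009687373802644643
  1781277481531232952863949686025748077487939408454698919578410635538947853) (.pick 0 (.p 0 2 1 2 13942702284 (.pick 1 (.leaf 1186 2451410608307372077579
  15442364593186053186249639599414617821714444023855334445347136079) (.pick 0 (.p 0 2 1 2 3473719500 (.pick 1 (.leaf 109 9799310372153394891305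
  25920987788751483011453215955926186221807) (.pick 0 (.p 0 1 2 1 1057173519 (.pick 1 (.leaf 154 43940288518564296204971 390942679094452811473667745864314839660156026719) (.pick 0
  (.p 0 1 2 1 55833590991 (.pick 0 (.leaf 253 175779312517603178087051 119079358328365525793756611444538678618164479472506) (.pick 0 (.leaf 39457 351559201495924367496469
  2176508139816223332208653024240679940095943495170233323577288351467164866020151511838884385869570949693364) .done))) .done))) .done))) .done))) .done))) .done))) .done)))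
  .done))) (.pick 0 (.h 0 1 2 64 (.pick 0 (.leaf 1951 22560799925767127395 4186827984379840572676698464105434934160124191995604774) (.pick 0 (.p 0 2 1 3 3473080368 (.pick 1 (.leaf
  193 90000216429439747371 768924143216055499056539004580238461) (.pick 0 (.p 1 2 0 2 856473612 (.pick 1 (.leaf 19 9233786610993074347 45487192512782) (.pick 0 (.c 1 0 2 2 3
  45801997788 (.pick 0 (.leaf 11 36897991884494880897 550215791) (.pick 1 (.leaf 16 73798235293906665809 38644177498) (.pick 0 (.h 0 1 2 256 (.pick 0 (.leaf 249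
  10367502514989071225859 438486350934256999371970457014754340) (.pick 0 (.p 0 1 2 1 251916303 (.pick 0 (.leaf 7721 46234638321729250480139
  33253090079791719093536598556233121319757077788564113357267458266690449131110520192258448) (.pick 0 (.leaf 442 92455369532232980275221
  16048712716818465972659103208012306948206619756402703196) .done))) .done))) .done)))) .done))) .done))) .done))) .done))) .done))) (.pick 0 (.h 0 2 1 256 (.pick 0 (.leaf 16
  85574989989824547 2502345279030) (.pick 0 (.h 0 1 2 256 (.pick 0 (.leaf 5 9835914367567208587 3049837444) (.pick 0 (.h 0 1 2 1280 (.pick 0 (.leaf 103 43955836067758473771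
  409759846450133288085341221785) (.pick 0 (.leaf 13 83298930555861140565 947968012439824) .done))) .done))) .done))) .done))) .done))) .done))) .done))) .done))) (.pick 0 (.p 1 2
  0 2 1057800204 (.pick 1 (.p 0 2 1 2 252494028 (.pick 1 (.leaf 13 395136991493 294205214) (.pick 0 (.c 0 1 2 3 3 45801997680 (.pick 0 (.leaf 187 1375351607921691
  299256262576981374192555749776246083) (.pick 0 (.p 0 1 2 3 3271753776 (.pick 0 (.leaf 91 153290062920947819 16200204877105898926797797307) (.pick 0 (.p 1 2 0 4 1057751232 (.pick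
  1 (.leaf 25 24739011641609 665082913833) (.pick 0 (.leaf 49 44126700157567749 94305284493601188826551) .done))) .done))) (.pick 0 (.p 0 2 1 2 1057800204 (.pick 0 (.leaf 2311
  342609197755533507 35805263667631639673406917429345767659792399917928987) (.pick 0 (.p 0 1 2 3 13942063152 (.pick 1 (.leaf 13801 1514418938191053067
  3546830893170440259649948361706243596424399469791817666611383) (.pick 0 (.p 1 2 0 2 13137395724 (.pick 1 (.leaf 91 1429367263625505 2713322820814363151) (.pick 0 (.p 0 2 1 2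
  856473804 (.pick 1 (.leaf 475 29457007232244384937 3043305403995115985353914130370159836318837446537) (.pick 0 (.h 0 1 2 1088 (.pick 1 (.leaf 169 18524149726664741547
  373731399373692683864341210091650) (.pick 0 (.p 1 2 0 2 252494028 (.pick 1 (.leaf 241 166021822705026861067 7967076328629042575857531) (.pick 0 (.h 0 1 2 64 (.pick 0 (.leaf 532
  1299420223335412279971 111793114072894493928212902800251807047564003729953375) (.pick 0 (.leaf 1675 3692114026012694565201 292125379440418669447636859289257721354292057108475594)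
  .done))) .done))) .done))) .done))) .done))) .done))) .done))) .done)))) .done))) (.pick 0 (.c 2 0 1 1 2 45343360346 (.pick 1 (.leaf 613 19829795295595147
  23341108652279747749649520921312933124106163809588379) (.pick 0 (.leaf 1741 38322447012861205 1411183740814937813380772039453699379054671299581) (.pick 0 (.leaf 364
  88326381473122857 503648317089458310538243488454545271245746524728) .done)))) .done))) .done))) .done))) .done))) (.pick 0 (.c 1 0 2 3 1 45801813364 (.pick 2 (.leaf 4 939524113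
  3709) (.pick 0 (.leaf 10 293668782357 33591641273) (.pick 0 (.p 0 2 1 2 252494028 (.pick 1 (.leaf 105 1197443324597521 14507650704977683586706591) (.pick 0 (.h 1 2 0 320 (.pick 0
  (.leaf 147 5353277302506827 3238730734304813239299138397527178) (.pick 0 (.h 1 2 0 1344 (.pick 0 (.leaf 141 21560735826211 13194644568348112030984693) (.pick 0 (.leaf 321
  15802387291716181 163681881190857415345767098087940996414365596) .done))) .done))) .done))) .done)))) .done))) (.pick 0 (.c 1 0 2 3 1 45801813364 (.pick 0 (.leaf 4 74490871827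
  355961) (.pick 1 (.leaf 4 939589633 3709) (.pick 0 (.h 1 2 0 320 (.pick 1 (.leaf 27 656593387571 17322240863788555) (.pick 0 (.leaf 85 1197577542308133 863692728629629047603474)
  .done))) .done)))) .done))) (.pick 0 (.c 0 1 2 3 3 45801997686 (.pick 1 (.p 1 2 0 4 856424640 (.pick 0 (.h 0 2 1 256 (.pick 1 (.p 0 2 1 2 252494028 (.pick 1 (.leaf 41
  299395190887489 3412649314152262679) (.pick 0 (.h 1 2 0 64 (.pick 1 (.h 1 2 0 320 (.pick 0 (.leaf 21 2342905708675 239502241633) (.pick 0 (.h 0 2 1 1280 (.pick 0 (.leaf 529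
  344774251381579 2179955182419764085150554491699482832990612979728096) (.pick 0 (.p 1 2 0 1 855650307 (.pick 0 (.p 0 2 1 3 1057161264 (.pick 0 (.h 1 2 0 1088 (.pick 0 (.leaf 9
  154344011866145 874956926) (.pick 0 (.h 0 2 1 320 (.pick 1 (.h 0 2 1 1088 (.pick 1 (.p 0 2 1 4 1057751232 (.pick 0 (.h 1 2 0 1344 (.pick 0 (.leaf 11 5216083162170385 61995751)
  (.pick 0 (.c 1 0 2 3 3 45801997680 (.pick 2 (.leaf 4 123145302311169 3701) (.pick 1 (.p 0 1 2 1 251916303 (.pick 0 (.h 0 2 1 1344 (.pick 0 (.leaf 199 5332402696295064449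
  6438796564499658537604664) (.pick 0 (.p 0 1 2 1 1057222671 (.pick 0 (.p 0 2 1 3 3473080368 (.pick 1 (.leaf 181 1260291823323373144197 80059556736093122466986856040685838514)
  (.pick 0 (.h 0 1 2 256 (.pick 0 (.leaf 37 5778447086888437174419 42179133451820173258014100) (.pick 0 (.p 0 1 2 3 13942063152 (.pick 1 (.leaf 25 3046108695959951149675
  92625719681175727878327668) (.pick 0 (.h 1 2 0 16 (.pick 0 (.leaf 11 2656403204208214542625 7490384070) (.pick 0 (.p 1 2 0 4 1057751232 (.pick 1 (.leaf 53 9446174117628643116163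
  16450746837533833) (.pick 0 (.p 0 1 2 3 4278386736 (.pick 0 (.leaf 25 1323650732695117383211049 4547324109478483161991992495) (.pick 0 (.leaf 641 2600121611578749343805509
  6772333385120776775482529672863466199906468901470925729120657000) .done))) .done))) .done))) .done))) .done))) .done))) (.pick 0 (.h 0 1 2 64 (.pick 0 (.leaf 61
  232890145030400906507 139741405540969135793471562) (.pick 0 (.p 0 1 2 3 3473080368 (.pick 0 (.leaf 205 11521180629283201229995 1375951609251791326330352699650159016881646140863)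
  (.pick 0 (.leaf 265 682601598221191334741 3119169279804637594766390557858210183652846982) .done))) .done))) .done))) .done))) (.pick 0 (.h 1 2 0 336 (.pick 0 (.leaf 49
  313632366917222139051 2819046005316713234560151) (.pick 0 (.h 1 2 0 1104 (.pick 0 (.leaf 317 43242455383144484011 5968484405626189568856501387892210615090121927619) (.pick 0 (.p
  1 2 0 3 13942063152 (.pick 1 (.leaf 4 31525197391593481 3701) (.pick 0 (.p 1 2 0 3 55817994288 (.pick 0 (.leaf 7 126101892299227779 1870677923) (.pick 0 (.leaf 4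
  252201579132747793 3701) .done))) .done))) .done))) .done))) .done))) (.pick 0 (.leaf 1045 2677671487812474059 327728868287711352137609203275401318079870243447720) .done))))
  .done))) (.pick 0 (.p 1 2 0 3 13942063152 (.pick 0 (.leaf 21 9068771905898531 136813912204) (.pick 0 (.leaf 59 21515252122259717 184060320999792457067) .done))) .done))) (.pick 0
  (.p 0 2 1 3 3473080368 (.pick 0 (.leaf 253 227999131330024475 71425847158509017718519892992792828956) (.pick 0 (.leaf 751 352978421183815701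
  3268351549342875140121837165229205654721624) .done))) .done))) (.pick 0 (.p 0 2 1 3 13942063152 (.pick 1 (.leaf 649 16055069862543883 1106022785037125784238985108881872499)
  (.pick 0 (.p 0 2 1 3 3271753776 (.pick 1 (.h 0 2 1 64 (.pick 1 (.leaf 55 87960931287063 3096812996173954) (.pick 0 (.p 1 2 0 4 52597358784 (.pick 0 (.leaf 55 78407880618774904899
  4685626270034776917371) (.pick 0 (.h 0 1 2 256 (.pick 1 (.leaf 36241 361783728233148056619
  2579637596916960511973038076732814714543617158731508034830941792471473127210427415436131637) (.pick 0 (.leaf 25 110682716242180047377 11911913867260) .done))) .done))) .done)))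
  (.pick 0 (.c 0 1 2 3 3 45801997680 (.pick 0 (.leaf 217 1409802622409646243 2946967963589843463607303775138463401) (.pick 0 (.leaf 261 2819323769842581845
  73438890028056277137277610168425979642) (.pick 0 (.leaf 106 5648217688892244105 2173744370974926508725566983) .done)))) .done))) .done))) .done))) .done))) (.pick 0 (.p 1 2 0 3
  52596768816 (.pick 1 (.leaf 421 335900936503559 10502320516217028563246689673) (.pick 0 (.leaf 11 74217034875525 563696113) .done))) .done))) (.pick 0 (.c 0 2 1 3 1 45801801072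
  (.pick 0 (.leaf 13 5085241278595 40911511) (.pick 0 (.leaf 67 335351046480133 2037023583829317) (.pick 0 (.leaf 26 600333348782601 11424958776) .done)))) .done))) .done)))
  .done))) (.pick 0 (.h 0 2 1 320 (.pick 0 (.leaf 4 17763984737827 110462) (.pick 0 (.c 1 2 0 3 3 45801997680 (.pick 0 (.leaf 7 652835030025 171740) (.pick 1 (.leaf 226
  37589570560017 269036800436976265334) (.pick 0 (.c 0 1 2 2 4 45801801164 (.pick 0 (.leaf 51 169599735701569 11726275355276846) (.pick 1 (.leaf 61 335076168564865 31581710182247)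
  (.pick 0 (.p 1 2 0 3 3271753776 (.pick 0 (.leaf 21 7696581460487 173627204465) (.pick 0 (.p 0 2 1 4 1057751232 (.pick 1 (.leaf 17 4798268743616585 29951657153) (.pick 0 (.h 0 2 1
  1280 (.pick 0 (.leaf 12 35184378388513 11672992) (.pick 0 (.leaf 706 45222930844779302997 147504769859272985730829456237006239090104859750373068170) .done))) .done))) .done)))
  .done)))) .done)))) .done))) .done))) .done))) (.pick 0 (.c 1 0 2 0 4 45801801540 (.pick 2 (.leaf 161 23090283184163 1459528583590280523947) (.pick 0 (.leaf 8 37391989538885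
  20747131) (.pick 0 (.p 0 2 1 3 55817994288 (.pick 1 (.leaf 22 26530012987411 7856474371) (.pick 0 (.p 1 2 0 0 855638784 (.pick 0 (.leaf 1771 619042234702923
  1792488202905473344481718180541810398677767254042) (.pick 0 (.leaf 7 1196577888666769 13637501) .done))) .done))) .done)))) .done))) (.pick 0 (.c 0 2 1 3 1 45801801076 (.pick 0
  (.leaf 25 12079595523 4106314983) (.pick 1 (.leaf 3 15032385553 475) (.pick 0 (.c 0 1 2 3 1 45801801072 (.pick 0 (.leaf 5 60129542225 46547) (.pick 1 (.leaf 25 330712481825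
  2156438733) (.pick 0 (.leaf 901 10548439679049 34752456598952596923594171) .done)))) .done)))) .done))) (.pick 1 (.c 0 1 2 3 1 45801801076 (.pick 0 (.leaf 211 164953653255
  1750857381698788589323897) (.pick 1 (.leaf 7 20669661185 181295) (.pick 0 (.c 0 1 2 3 3 45801997684 (.pick 0 (.leaf 25 12885426225 6069239134) (.pick 0 (.leaf 111 2347200676065
  31062999439614426577) (.pick 0 (.leaf 256 1979982020617 113781683644560518894938) .done)))) .done)))) (.pick 0 (.leaf 276 5371662106669 372381972065827242930114308488922204)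
  .done)))) .done))) (.pick 0 (.c 2 0 1 3 1 45801813364 (.pick 2 (.leaf 4 117448705 3709) (.pick 1 (.c 2 0 1 3 4 45802587504 (.pick 2 (.leaf 13 469762081 4694863) (.pick 1 (.h 1 2
  0 1344 (.pick 0 (.leaf 121 299394117140643 16315098873215288073669) (.pick 0 (.c 0 2 1 2 3 45801997788 (.pick 2 (.leaf 61 1243393032203 47347217170043) (.pick 1 (.p 0 2 1 1
  50589699 (.pick 1 (.leaf 4 30064771105 3709) (.pick 0 (.p 1 2 0 2 252494028 (.pick 1 (.leaf 67 22010092492769313 184406518963524372761513298) (.pick 0 (.c 2 0 1 3 3 45801997680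
  (.pick 0 (.leaf 53 79508434624675 880876840662909095) (.pick 1 (.leaf 4 962081062913 3701) (.pick 0 (.p 1 2 0 4 1057751232 (.pick 1 (.leaf 1471 632300552784773139
  43285317861003759995672444214815198477869813060220448) (.pick 0 (.p 0 2 1 3 3473080368 (.pick 0 (.p 0 2 1 2 1057800396 (.pick 1 (.leaf 951 293327714275338371
  13536219205974929044414193758957226116347053754466) (.pick 0 (.p 0 1 2 1 3473141775 (.pick 1 (.leaf 971 20304602073894259227
  17168672892517675405043559532606880295505507192579406411847) (.pick 0 (.p 0 2 1 3 4278386736 (.pick 1 (.leaf 325 80930107555009660963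
  469718903131974742536984661160050826375435419) (.pick 0 (.p 0 1 2 1 251719743 (.pick 0 (.leaf 67 325017748233079390219 302276860960622207569654351415956231) (.pick 0 (.leaf 1711
  649746140190100179265 853391636984716980995236369492484769479972288369006314814421) .done))) .done))) .done))) .done))) (.pick 0 (.h 0 2 1 64 (.pick 0 (.leaf 43
  10956431060653588489 200864322117373946643) (.pick 0 (.leaf 1171 21925862763965489733 266911929930148988265677587216652116788723487699) .done))) .done))) .done))) .done))))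
  .done))) .done))) (.pick 0 (.leaf 19 193273594371 145110110811) .done)))) .done))) (.pick 0 (.leaf 7 293400088739 344618856) .done)))) (.pick 0 (.leaf 5 872415275 273296)
  .done)))) .done))) (.pick 0 (.c 2 0 1 3 2 45801801072 (.pick 0 (.leaf 13 109052419 24009483) (.pick 1 (.leaf 9 385875969 397253) (.pick 0 (.leaf 13 234881033 4693459) .done))))
  .done))) .done))) .done))) .done))) (.pick 0 (.c 2 0 1 3 1 45801813360 (.pick 1 (.leaf 4 458755 3677) (.pick 1 (.leaf 8 917581 14136921) (.pick 0 (.leaf 31 297013289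
  2539948078780682) .done)))) .done))) .done))) (.pick 0 (.h 1 2 0 16 (.pick 1 (.leaf 4 57347 3677) (.pick 0 (.c 0 1 2 3 3 45801801072 (.pick 2 (.leaf 5 2523139 46662) (.pick 0 (.p
  0 2 1 3 1057161264 (.pick 1 (.leaf 91 4565502091 57222764889321167) (.pick 0 (.c 0 1 2 3 2 45801801080 (.pick 0 (.leaf 61 20413677739 7159741710123056252) (.pick 0 (.leaf 3
  16777297 157) (.pick 0 (.leaf 31 73165447337 110169553692149) .done)))) .done))) (.pick 0 (.p 0 1 2 2 252494028 (.pick 1 (.leaf 109 554700881 4947260561017339) (.pick 0 (.p 0 1 2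
  3 1057161264 (.pick 1 (.leaf 25 40843105347 7525109036372253914) (.pick 0 (.p 1 2 0 4 856424640 (.pick 1 (.leaf 541 5121246497 158853999592057186290251963) (.pick 0 (.c 0 2 1 3 1
  45801813360 (.pick 2 (.leaf 5 83895433 180562) (.pick 0 (.leaf 7 1375733761 72564) (.pick 0 (.p 0 2 1 2 4077699276 (.pick 0 (.leaf 1081 171945257837651
  808269269204882381370677350490117982801286419451178512) (.pick 0 (.leaf 157 343890515675301 535559998367906659704407940575338606790) .done))) .done)))) .done))) .done))) .done)))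
  .done)))) .done))) .done))) .done))) .done))) .done))) .done))) .done)))

theorem cert_ok : forceL baseL (fun ls => check cert ls [(0, 0)]) = true := by decide +kernel

end Pool.Agent.MP_2a5a28_nt.H39
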