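import Pool.Agent.MP_2a5a28_nt.H39.Tools
import Pool.Agent.MP_2a5a28_nt.H37.Defs

/-! The number of exceptional triples in terms of the radical and a small power of the height. -/

namespace Pool.Agent.MP_2a5a28_nt.H39

open Finset UniqueFactorizationMonoid

set_option linter.unusedSectionVars false

theorem card_image_le_of_fibers {α β γ : Type*} [DecidableEq β] [DecidableEq γ] (S : Finset α)
    (f : α → β) (g : α → γ) (m k : ℝ) (hk0 : 0 ≤ k) (hm : ((S.image f).card : ℝ) ≤ m)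
    (hk : ∀ P₀ ∈ S, ∀ W : Finset γ, (∀ w ∈ W, ∃ P ∈ S, f P = f P₀ ∧ g P = w) → (W.card : ℝ) ≤ k) :
    ((S.image g).card : ℝ) ≤ m * k := by
  have h1 : S.image g = (S.image fun P => (f P, g P)).image Prod.snd := by
    rw [Finset.image_image]; rfl
  have h2 : ((S.image g).card : ℝ) ≤ (S.image fun P => (f P, g P)).card := by
    rw [h1]; exact_mod_cast Finset.card_image_le
  refine h2.trans (card_le_of_fibers _ Prod.fst m k hk0 ?_ fun W hW hc => ?_)
  · rw [Finset.image_image]; exact hm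
  · refine card_le_of_nonempty _ _ hk0 fun q₀ hq₀ => ?_
    obtain ⟨P₀, hP₀, e₀⟩ := Finset.mem_image.1 (hW hq₀)
    have hinj : Set.InjOn Prod.snd (W : Set (β × γ)) := fun p hp q hq e => Prod.ext (hc p hp q hq) e
    rw [← Finset.card_image_of_injOn hinj]
    refine hk P₀ hP₀ _ fun w hw => ?_
    obtain ⟨q, hq, rfl⟩ := Finset.mem_image.1 hw
    obtain ⟨P, hP, e⟩ := Finset.mem_image.1 (hW hq)
    refine ⟨P, hP, ?_, congrArg Prod.snd e⟩
    have := hc q hq q₀ hq₀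
    rw [← e, ← e₀] at this
    exact this

theorem dyadic_bounds {x y : ℝ} (hx : 0 < x) (h : Int.log 2 x = Int.log 2 y) :
    (2 : ℝ) ^ Int.log 2 y ≤ x ∧ x ≤ 2 * 2 ^ Int.log 2 y := by
  have h1 := Int.lt_zpow_succ_log_self (R := ℝ) (b := 2) (by norm_num) x
  have h2 := Int.zpow_log_le_self (R := ℝ) (b := 2) (by norm_num) hx
  rw [zpow_add₀ (by norm_num), zpow_one] at h1
  push_cast at h1 h2
  rw [← h]
  exact ⟨h2, by linarith⟩

theorem RD.bound {K : ℕ} {s w : ℕ → ℕ → ℝ} {L z : ℝ} (d : RD K s w L)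
    (hP : PC (K + 1) K (fun _ j i => i ∣ ex K j) s w L z) (hH : RH K (12 * K ^ 2) s w z)
    (hS : ∑ j ∈ range (K + 1), s 0 j + ∑ j ∈ range (K + 1), s 1 j + ∑ j ∈ range (K + 1), s 2 j ≤ L) :
    z ≤ L * (3 / K) + (∑ j ∈ range (K + 1), s 0 j + ∑ j ∈ range (K + 1), s 1 j +
      ∑ j ∈ range (K + 1), s 2 j) * (5 / 9) := by
  obtain ⟨A, h⟩ := d.virt hP hH
  have e : ∀ t, ∑ v ∈ range 6, SL (K + 1) (s t) (cl (A t)) v = ∑ j ∈ range (K + 1), s t j :=
    fun t => (sum_push (K + 1) (A t) fun _ j => s t j).symm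
  have := h.lp cert_ok (by rw [e, e, e]; exact hS)
  rw [e, e, e] at this
  have e2 : L * (3 / K) = 3 * (L / K) := by ring
  linarith

variable {R : Type*} [CommRing R] [IsDomain R] [IsPrincipalIdealRing R] [NormalizationMonoid R]
  [DecidableEq R] {V : Type*} [Fintype V] {α : Type*}

/-- A family of exceptional triples of height at most `X` and radical at most `Y`. -/
structure Fam (E : Emb R V) (S : Finset α) (x : ℕ → α → R) (X Y : ℝ) : Prop where
  sum : ∀ P ∈ S, x 0 P + x 1 P + x 2 P = 0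
  ne : ∀ t < 3, ∀ P ∈ S, x t P ≠ 0
  cop : ∀ P ∈ S, ∀ a < 3, ∀ b < 3, a ≠ b → IsCoprime (x a P) (x b P)
  inj : ∀ P ∈ S, ∀ P' ∈ S, x 0 P * x 1 P' = x 0 P' * x 1 P → P = P'
  ht : ∀ P ∈ S, E.hgt (x 0 P) (x 1 P) (x 2 P) ≤ X
  rad : ∀ P ∈ S, E.rd (x 0 P) * E.rd (x 1 P) * E.rd (x 2 P) ≤ E.hgt (x 0 P) (x 1 P) (x 2 P)
  radY : ∀ P ∈ S, E.rd (x 0 P) * E.rd (x 1 P) * E.rd (x 2 P) ≤ Y

theorem Fam.mono {E : Emb R V} {S S' : Finset α} {x : ℕ → α → R} {X Y : ℝ} (h : Fam E S x X Y)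
    (hS : S' ⊆ S) : Fam E S' x X Y :=
  ⟨fun P hP => h.sum P (hS hP), fun t ht P hP => h.ne t ht P (hS hP), fun P hP => h.cop P (hS hP),
    fun P hP P' hP' => h.inj P (hS hP) P' (hS hP'), fun P hP => h.ht P (hS hP),
    fun P hP => h.rad P (hS hP), fun P hP => h.radY P (hS hP)⟩

theorem card_bal (E : Emb R V) (W : Finset R) {Y : ℝ} (hY : 1 ≤ Y)
    (h : ∀ a ∈ W, E.N a ≤ Y ∧ ∀ ν, |E.σ ν a| ^ Fintype.card V ≤ E.c * E.N a) :
    (W.card : ℝ) ≤ E.c * (E.c * Y) := by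
  have hc := E.one_le_c
  exact E.box _ (by nlinarith) _ fun a ha ν =>
    ((h a ha).2 ν).trans (mul_le_mul_of_nonneg_left (h a ha).1 (by linarith))

theorem Fam.cls_bound {E : Emb R V} {S : Finset α} {x : ℕ → α → R} {X Y : ℝ} (h : Fam E S x X Y)
    (hfin : ∀ q : R, q ≠ 0 → Finite (R ⧸ Ideal.span {q})) {K E₀ : ℕ} (hK : 5 ≤ K)
    (hE : ∑ j ∈ range (K + 1), ex K j ≤ E₀) (hE' : 12 * K ^ 2 * K + 1 ≤ E₀)
    (I : ℕ → ℕ → α → R) (r : ℕ → α → R)
    (hF : ∀ t < 3, ∀ P ∈ S, IFac E K (x t P) (fun j => I t j P) (r t P)) {β B Δ : ℝ} (hβ : 1 ≤ β)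
    (hI : ∀ t < 3, ∀ j < K + 1, ∀ P ∈ S, ∀ ν, |E.σ ν (I t j P)| ≤ β)
    (hr : ∀ t < 3, ∀ P ∈ S, E.N (r t P) ≤ B) (hβB : β ≤ B) (hS : Ctx E K (2 ^ E₀) B Δ)
    (hcΔ : 2 * E.c ^ 2 ≤ Δ)
    (hB : (2 * E.c * ((2 * β) ^ E₀) ^ 2) ^ Fintype.card V ≤ B) {P₀ : α} (hP₀ : P₀ ∈ S)
    (c₁ : ∀ P ∈ S, ∀ t < 3, ∀ j < K + 1, ∀ ν,
      Int.log 2 |E.σ ν (I t j P)| = Int.log 2 |E.σ ν (I t j P₀)|)
    (c₂ : ∀ P ∈ S, ∀ t < 3, Int.log 2 (E.N (r t P)) = Int.log 2 (E.N (r t P₀))) :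
    (S.card : ℝ) ≤ Δ ^ (50 * (K + 1) + 3) * (X ^ (3 / K : ℝ) * Y ^ (5 / 9 : ℝ)) := by
  have hc := E.one_le_c
  have hΔ := hS.two_le
  have hne : ∀ t < 3, ∀ j < K + 1, ∀ P ∈ S, I t j P ≠ 0 := fun t ht j hj P hP =>
    ne_zero_of_dvd_ne_zero (h.ne t ht P hP) ((hF t ht P hP).dvd hj)
  have hx : ∀ t < 3, ∀ P ∈ S, grp K (I t) (ex K) P = x t P := fun t ht P hP => (hF t ht P hP).eq.symm
  obtain ⟨T, hT⟩ : ∃ T : ℕ → ℕ → V → ℝ,
    T = fun t j ν => 2 * 2 ^ Int.log 2 |E.σ ν (I t j P₀)| := ⟨_, rfl⟩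
  obtain ⟨Q, hQ⟩ : ∃ Q : ℕ → ℝ, Q = fun t => 2 ^ Int.log 2 (E.N (r t P₀)) := ⟨_, rfl⟩
  have hrng : ∀ t < 3, ∀ j < K + 1, Rng E S (I t j) (T t j) 2 := by
    intro t ht j hj P hP ν
    have := dyadic_bounds (E.abs_pos (hne t ht j hj P hP) ν) (c₁ P hP t ht j hj ν)
    rw [hT]
    exact ⟨by linarith [this.1], this.2⟩
  have hQ1 : ∀ t < 3, ∀ P ∈ S, Q t ≤ E.N (r t P) ∧ E.N (r t P) ≤ 2 * Q t := by
    intro t ht P hP
    rw [hQ]
    exact dyadic_bounds (E.N_pos (hF t ht P hP).r_ne) (c₂ P hP t ht)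
  have hQ2 : ∀ t < 3, 1 ≤ Q t := by
    intro t ht
    rw [hQ]
    refine one_le_zpow₀ (by norm_num) ?_
    rw [← Int.zpow_le_iff_le_log (by norm_num) (E.N_pos (hF t ht P₀ hP₀).r_ne), zpow_zero]
    exact E.one_le_N (hF t ht P₀ hP₀).r_ne
  have hNT : ∀ t < 3, ∀ j < K + 1, ∀ P ∈ S, E.N (I t j P) ≤ ∏ ν, T t j ν := fun t ht j hj P hP =>
    E.N_le_of_box fun ν => (hrng t ht j hj P hP ν).2
  have hT1 : ∀ t < 3, ∀ j < K + 1, 1 ≤ ∏ ν, T t j ν := fun t ht j hj =>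
    (E.one_le_N (hne t ht j hj P₀ hP₀)).trans (hNT t ht j hj P₀ hP₀)
  have hT0 : ∀ t j ν, 0 < T t j ν := fun t j ν => by rw [hT]; positivity
  have hTN : ∀ t < 3, ∀ j < K + 1, ∏ ν, T t j ν ≤ 2 ^ Fintype.card V * E.N (I t j P₀) := by
    intro t ht j hj
    rw [Emb.N, ← Finset.card_univ, ← Finset.prod_const, ← Finset.prod_mul_distrib]
    exact Finset.prod_le_prod (fun ν _ => (hT0 t j ν).le) fun ν _ => (hrng t ht j hj P₀ hP₀ ν).1
  have hgpos : ∀ t ν, 0 < grT K (T t) (ex K) ν := fun t ν => by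
    unfold grT pw
    exact Finset.prod_pos fun j _ => pow_pos (hT0 t j ν) _
  have htop : ∀ t < 3, ∀ ν, grT K (T t) (ex K) ν ≤ topT K T ν := by
    intro t ht ν
    unfold topT
    interval_cases t
    · exact (le_max_left _ _).trans (le_max_left _ _)
    · exact (le_max_right _ _).trans (le_max_left _ _)
    · exact le_max_right _ _
  obtain ⟨M, hM⟩ : ∃ M : ℝ, M = ∏ ν, topT K T ν := ⟨_, rfl⟩
  have hM0 : 0 < M := by
    rw [hM]; exact Finset.prod_pos fun ν _ => (hgpos 0 ν).trans_le (htop 0 (by norm_num) ν)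
  have hκ : ((2 : ℝ) ^ E₀) ^ Fintype.card V ≤ Δ := by
    have := hS.pow_le (c := 1) (k := 1) (by norm_num) (by linarith [hS.one_le_G']) (by omega)
    rwa [one_mul, pow_one] at this
  have hκ' : (((2 : ℝ) ^ Fintype.card V) ^ K) ^ 3 ≤ Δ := by
    refine le_trans ?_ hκ
    rw [← pow_mul, ← pow_mul, ← pow_mul]
    refine pow_le_pow_right₀ (by norm_num) ?_
    rw [mul_comm]
    exact Nat.mul_le_mul_right _ (by nlinarith)
  obtain ⟨L, hL⟩ : ∃ L : ℝ, L = Real.log (Δ * M) := ⟨_, rfl⟩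
  have heL : Real.exp L = Δ * M := by rw [hL, Real.exp_log (by positivity)]
  obtain ⟨s, hs⟩ : ∃ s : ℕ → ℕ → ℝ, s = fun t j => if j = K then Real.log (Q t) else ell T t j :=
    ⟨_, rfl⟩
  have hs1 : ∀ t, ∀ j < K, s t j = ell T t j := fun t j hj => by rw [hs]; exact if_neg hj.ne
  have hs2 : ∀ t, s t K = Real.log (Q t) := fun t => by rw [hs]; exact if_pos rfl
  have hcls : Cls E K E₀ S I T s L Δ (2 * β) := by
    refine ⟨⟨P₀, hP₀⟩, hrng, fun P hP => ?_, hne, fun P hP a ha b hb hab => ?_,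
      fun P hP P' hP' e => ?_, fun t ht j hj ν => ?_, by linarith, hΔ, hE,
      fun t ht j hj => ?_, fun t _ => hs1 t, fun t ht => ?_, by rw [heL, hM]⟩
    · rw [hx 0 (by norm_num) P hP, hx 1 (by norm_num) P hP, hx 2 (by norm_num) P hP]
      exact h.sum P hP
    · rw [hx a ha P hP, hx b hb P hP]; exact h.cop P hP a ha b hb hab
    · rw [hx 0 (by norm_num) P hP, hx 1 (by norm_num) P hP, hx 0 (by norm_num) P' hP',
        hx 1 (by norm_num) P' hP'] at e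
      exact h.inj P hP P' hP' e
    · have := (hrng t ht j hj P₀ hP₀ ν).1
      have := hI t ht j hj P₀ hP₀ ν
      linarith
    · by_cases h4 : j = K
      · subst h4
        have h1 := hQ2 t ht
        rw [hs2, Real.exp_log (by linarith)]
        have := card_image_le_of_fibers S (r t) (I t j) (E.c * (E.c * (2 * Q t))) Δ (by linarith)
          (card_bal E _ (by linarith) fun a ha => by
            obtain ⟨P, hP, rfl⟩ := Finset.mem_image.1 ha
            exact ⟨(hQ1 t ht P hP).2, (hF t ht P hP).balr⟩)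
          (fun P₁ hP₁ W hW => hS.small.smooth (r t P₁) (hF t ht P₁ hP₁).r_ne (hr t ht P₁ hP₁) W
            fun d hd => by
              obtain ⟨P, hP, e, rfl⟩ := hW d hd
              exact ⟨hne t ht j hj P hP, fun ν => (hI t ht j hj P hP ν).trans hβB,
                fun p hp hd => e ▸ (hF t ht P hP).sm p hp hd⟩)
        calc _ ≤ 2 * E.c ^ 2 * (Δ * Q t) := this.trans (le_of_eq (by ring))
          _ ≤ Δ * (Δ * Q t) := by gcongr
          _ = _ := by ring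
      · have h1 := hT1 t ht j hj
        rw [hs1 t j (by omega), ell, Real.exp_log (by linarith)]
        have := card_bal E (S.image (I t j)) h1 fun a ha => by
          obtain ⟨P, hP, rfl⟩ := Finset.mem_image.1 ha
          exact ⟨hNT t ht j hj P hP, (hF t ht P hP).bal j (by omega)⟩
        calc _ ≤ E.c ^ 2 * ∏ ν, T t j ν := this.trans (le_of_eq (by ring))
          _ ≤ _ := mul_le_mul_of_nonneg_right (by nlinarith) (by linarith)
    · rw [hs2]; exact Real.log_nonneg (hQ2 t ht)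
  have hex : ∀ j, ex K j ≤ ex K j := fun _ => le_rfl
  have hHM : E.hgt (x 0 P₀) (x 1 P₀) (x 2 P₀) ≤ M := by
    rw [hM]
    refine Finset.prod_le_prod (fun ν _ => by positivity) fun ν _ => ?_
    have k : ∀ t < 3, |E.σ ν (x t P₀)| ≤ topT K T ν := fun t ht => by
      rw [← hx t ht P₀ hP₀]
      exact (hcls.grp_rng ht hex P₀ hP₀ ν).2.trans (htop t ht ν)
    exact max_le (max_le (k 0 (by norm_num)) (k 1 (by norm_num))) (k 2 (by norm_num))
  have hMX : M ≤ Δ * X := by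
    have hH0 : 0 ≤ E.hgt (x 0 P₀) (x 1 P₀) (x 2 P₀) := Finset.prod_nonneg fun _ _ => by positivity
    refine le_trans ?_ (mul_le_mul hκ (h.ht P₀ hP₀) hH0 (by linarith))
    rw [hM, Emb.hgt, ← Finset.card_univ, ← Finset.prod_const, ← Finset.prod_mul_distrib]
    refine Finset.prod_le_prod
      (fun ν _ => (hgpos 0 ν).le.trans (htop 0 (by norm_num) ν)) fun ν _ => ?_
    have k : ∀ t < 3, grT K (T t) (ex K) ν ≤ 2 ^ E₀ * |E.σ ν (x t P₀)| := fun t ht => by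
      rw [← hx t ht P₀ hP₀]
      exact (hcls.grp_rng ht hex P₀ hP₀ ν).1
    refine max_le (max_le ((k 0 (by norm_num)).trans ?_) ((k 1 (by norm_num)).trans ?_))
      ((k 2 (by norm_num)).trans ?_) <;> refine mul_le_mul_of_nonneg_left ?_ (by positivity)
    · exact (le_max_left _ _).trans (le_max_left _ _)
    · exact (le_max_right _ _).trans (le_max_left _ _)
    · exact le_max_right _ _
  have hz : ∀ t < 3, Real.exp (∑ j ∈ range (K + 1), s t j) ≤
      (2 ^ Fintype.card V) ^ K * E.rd (x t P₀) := by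
    intro t ht
    rw [Finset.sum_range_succ, Real.exp_add, hs2, Real.exp_log (by linarith [hQ2 t ht]),
      ← (hF t ht P₀ hP₀).rad, ← mul_assoc, Real.exp_sum]
    refine mul_le_mul ?_ (hQ1 t ht P₀ hP₀).1 (by linarith [hQ2 t ht])
      (mul_nonneg (by positivity) (Finset.prod_nonneg fun _ _ => E.N_nonneg _))
    conv_rhs => rw [← Finset.card_range K, ← Finset.prod_const, Finset.card_range,
      ← Finset.prod_mul_distrib]
    refine Finset.prod_le_prod (fun _ _ => (Real.exp_pos _).le) fun j hj => ?_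
    have hj' := Finset.mem_range.1 hj
    rw [hs1 t j hj', ell, Real.exp_log (by linarith [hT1 t ht j (by omega)])]
    exact hTN t ht j (by omega)
  obtain ⟨σ, hσ⟩ : ∃ σ, σ = ∑ j ∈ range (K + 1), s 0 j + ∑ j ∈ range (K + 1), s 1 j +
    ∑ j ∈ range (K + 1), s 2 j := ⟨_, rfl⟩
  have hσ1 : Real.exp σ ≤ Δ * (E.rd (x 0 P₀) * E.rd (x 1 P₀) * E.rd (x 2 P₀)) := by
    rw [hσ, Real.exp_add, Real.exp_add]
    have k0 := hz 0 (by norm_num)
    have k1 := hz 1 (by norm_num)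
    have k2 := hz 2 (by norm_num)
    have n0 := (Real.exp_pos _).le.trans k0
    have n1 := (Real.exp_pos _).le.trans k1
    have n2 : ∀ a, 0 ≤ E.rd a := fun a => Finset.prod_nonneg fun _ _ => E.N_nonneg _
    calc _ ≤ ((2 ^ Fintype.card V) ^ K * E.rd (x 0 P₀)) * ((2 ^ Fintype.card V) ^ K *
          E.rd (x 1 P₀)) * ((2 ^ Fintype.card V) ^ K * E.rd (x 2 P₀)) := by gcongr
      _ = ((2 ^ Fintype.card V) ^ K) ^ 3 * (E.rd (x 0 P₀) * E.rd (x 1 P₀) * E.rd (x 2 P₀)) := by ring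
      _ ≤ _ := mul_le_mul_of_nonneg_right hκ' (mul_nonneg (mul_nonneg (n2 _) (n2 _)) (n2 _))
  have hσL : σ ≤ L := by
    rw [← Real.exp_le_exp, heL]
    exact hσ1.trans (mul_le_mul_of_nonneg_left ((h.rad P₀ hP₀).trans hHM) (by linarith))
  have hs0 : ∀ t < 3, 0 ≤ ∑ j ∈ range (K + 1), s t j := fun t ht =>
    Finset.sum_nonneg fun j hj => hcls.s_nonneg ht (Finset.mem_range.1 hj)
  have hrd : RD K s (wgt K T) L := by
    refine ⟨hK, fun t ht j hj => hcls.s_nonneg ht hj, fun t ht j hj => ?_, fun t ht => ?_,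
      fun t ht => ?_, fun a b c ⟨ha, hb, hc, h1, h2, h3⟩ => ?_⟩
    · rw [wgt, ex, if_neg hj.ne, hs1 t j hj]
    · have h1 : Q t ^ (K + 1) ≤ ∏ ν, T t K ν :=
        (pow_le_pow_left₀ (by linarith [hQ2 t ht]) (hQ1 t ht P₀ hP₀).1 _).trans
          ((hF t ht P₀ hP₀).pow.trans (hNT t ht K (by omega) P₀ hP₀))
      have h2 := Real.log_le_log (pow_pos (by linarith [hQ2 t ht]) _) h1
      rw [Real.log_pow] at h2
      rw [wgt, ex, if_pos rfl, hs2, Nat.cast_one, one_mul]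
      exact h2
    · rw [← Real.exp_le_exp, heL]
      refine le_trans (hcls.prod_grT ht (ex K)).ge (le_trans ?_ (le_mul_of_one_le_left hM0.le (by linarith)))
      rw [hM]
      exact Finset.prod_le_prod (fun ν _ => (hgpos t ν).le) fun ν _ => htop t ht ν
    · have := hs0 c hc
      rw [hσ] at hσL
      interval_cases a <;> interval_cases b <;> interval_cases c <;> first | contradiction | linarith
  have key := hrd.bound (hcls.pc hS hB) (hcls.rh hS hfin hE' hB) (hσ ▸ hσL)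
  have hS0 : (0 : ℝ) < S.card := by exact_mod_cast hcls.nonempty.card_pos
  have hK' : (5 : ℝ) ≤ K := by exact_mod_cast hK
  rw [← hσ, Real.log_le_iff_le_exp (by positivity), div_le_iff₀ (by positivity), Real.exp_add,
    Real.exp_mul, Real.exp_mul, heL] at key
  have hX : 0 ≤ X := by nlinarith
  have hσY := hσ1.trans (mul_le_mul_of_nonneg_left (h.radY P₀ hP₀) (by linarith))
  have hY : 0 ≤ Y := by nlinarith [Real.exp_pos σ]
  have k1 : (Δ * M) ^ (3 / K : ℝ) ≤ Δ ^ 2 * X ^ (3 / K : ℝ) := by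
    calc _ ≤ (Δ ^ 2 * X) ^ (3 / K : ℝ) :=
          Real.rpow_le_rpow (by positivity) (by nlinarith) (by positivity)
      _ ≤ _ := by
          rw [Real.mul_rpow (by positivity) hX]
          refine mul_le_mul_of_nonneg_right (Real.rpow_le_self_of_one_le (by nlinarith) ?_)
            (by positivity)
          rw [div_le_one (by linarith)]; linarith
  have k2 : Real.exp σ ^ (5 / 9 : ℝ) ≤ Δ * Y ^ (5 / 9 : ℝ) := by
    calc _ ≤ (Δ * Y) ^ (5 / 9 : ℝ) := Real.rpow_le_rpow (by positivity) hσY (by norm_num)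
      _ ≤ _ := by
          rw [Real.mul_rpow (by positivity) hY]
          exact mul_le_mul_of_nonneg_right (Real.rpow_le_self_of_one_le (by linarith) (by norm_num))
            (by positivity)
  calc _ ≤ _ := key
    _ ≤ Δ ^ 2 * X ^ (3 / K : ℝ) * (Δ * Y ^ (5 / 9 : ℝ)) * Δ ^ (50 * (K + 1)) := by gcongr
    _ = _ := by ring

/-- A bound for the norms of all auxiliary elements. -/
noncomputable def bB (E : Emb R V) (E₀ : ℕ) (β : ℝ) : ℝ :=
  (2 * E.c * ((2 * ((E.c * β) ^ E₀) ^ Fintype.card V) ^ E₀) ^ 2) ^ Fintype.card V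

theorem box_bound (E : Emb R V) (hfin : ∀ q : R, q ≠ 0 → Finite (R ⧸ Ideal.span {q})) {K E₀ : ℕ}
    (hK : 5 ≤ K) (hE : ∑ j ∈ range (K + 1), ex K j ≤ E₀) (hE' : 12 * K ^ 2 * K + 1 ≤ E₀)
    (δ : ℝ) (hδ : 0 < δ) :
    ∃ C : ℝ, 0 ≤ C ∧ ∀ (S : Finset α) (x : ℕ → α → R) (X Y β : ℝ), Fam E S x X Y → 0 ≤ X → 0 ≤ Y →
      1 ≤ β → (∀ t < 3, ∀ P ∈ S, ∀ ν, |E.σ ν (x t P)| ≤ β) →
      (S.card : ℝ) ≤ C * bB E E₀ β ^ δ * (X ^ (3 / K : ℝ) * Y ^ (5 / 9 : ℝ)) := by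
  classical
  have hc := E.one_le_c
  have hn := E.pos_card
  obtain ⟨m, hm⟩ : ∃ m : ℕ, m = Fintype.card ((Fin 3 × Fin (K + 1) × V) ⊕ Fin 3) := ⟨_, rfl⟩
  have hm0 : (0 : ℝ) < m := by
    rw [hm]; exact_mod_cast Fintype.card_pos
  obtain ⟨k, hk⟩ : ∃ k : ℕ, k = 50 * (K + 1) + 3 := ⟨_, rfl⟩
  have hk0 : (0 : ℝ) < k := by rw [hk]; positivity
  obtain ⟨C₁, hC₁, h₁⟩ := exists_pow_bound (δ / (2 * m)) (by positivity)
  obtain ⟨C₂, hC₂, h₂⟩ := exists_ctx E hfin (G := K) (by omega) (κ := 2 ^ E₀) (δ := δ / (2 * k))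
    (one_le_pow₀ (by norm_num)) (by positivity)
  have hC₂' : 0 ≤ C₂ := le_trans (by positivity) hC₂
  refine ⟨C₁ ^ m * C₂ ^ k, by positivity, fun S x X Y β h hX hY hβ hb => ?_⟩
  have hf : ∀ t P, ∃ π r, t < 3 → P ∈ S → IFac E K (x t P) π r := by
    intro t P
    by_cases h0 : x t P = 0
    · exact ⟨fun _ => 1, 1, fun ht hP => (h.ne t ht P hP h0).elim⟩
    · obtain ⟨π, r, hh⟩ := exists_fac E K h0
      exact ⟨π, r, fun _ _ => hh⟩
  choose π r hF using hf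
  obtain ⟨β₁, hβ₁⟩ : ∃ β₁ : ℝ, β₁ = ((E.c * β) ^ E₀) ^ Fintype.card V := ⟨_, rfl⟩
  have hβ1 : 1 ≤ β₁ := by
    rw [hβ₁]; exact one_le_pow₀ (one_le_pow₀ (one_le_mul_of_one_le_of_one_le hc hβ))
  have hbox := fun t ht P hP => (hF t P ht hP).box hE (h.ne t ht P hP) hβ (hb t ht P hP)
  rw [← hβ₁] at hbox
  obtain ⟨B, hB⟩ : ∃ B : ℝ, B = bB E E₀ β := ⟨_, rfl⟩
  have hB' : (2 * E.c * ((2 * β₁) ^ E₀) ^ 2) ^ Fintype.card V = B := by rw [hB, bB, hβ₁]
  have hβB : β₁ ^ Fintype.card V ≤ B := by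
    rw [← hB']
    refine pow_le_pow_left₀ (by linarith) ?_ _
    have k1 : 2 * β₁ ≤ ((2 * β₁) ^ E₀) ^ 2 := by
      rw [← pow_mul]; exact le_self_pow₀ (by linarith) (by omega)
    nlinarith
  have hβB' : β₁ ≤ B := (le_self_pow₀ hβ1 hn.ne').trans hβB
  have hB1 : 1 ≤ B := hβ1.trans hβB'
  have hB0 : 0 < B := by linarith
  obtain ⟨J, hJ1, hJ2⟩ := h₁ B hB1
  have hsm := h₂ B hB1
  rw [← hB]
  have key : (S.card : ℝ) ≤ (2 * J + 1) ^ m * ((C₂ * B ^ (δ / (2 * k))) ^ k *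
      (X ^ (3 / K : ℝ) * Y ^ (5 / 9 : ℝ))) := by
    refine card_le_of_fibers S (fun P (i : (Fin 3 × Fin (K + 1) × V) ⊕ Fin 3) => Int.log 2
      (Sum.elim (fun q P => |E.σ q.2.2 (π q.1 P q.2.1)|) (fun t P => E.N (r t P)) i P)) _ _
      (by positivity) ?_ fun S' hS' hcl => ?_
    · rw [hm]
      refine card_image_log S _ J ?_ ?_
      · rintro (⟨t, j, ν⟩ | t) P hP
        · refine (E.one_le_pow_mul (ne_zero_of_dvd_ne_zero (h.ne t t.2 P hP) ((hF t P t.2 hP).dvd j.2))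
            ((hbox t t.2 P hP).1 j j.2) ν).trans (mul_le_mul_of_nonneg_right ?_ (abs_nonneg _))
          exact (pow_le_pow_right₀ hβ1 (Nat.sub_le _ _)).trans (hβB.trans hJ1)
        · exact one_le_mul_of_one_le_of_one_le (one_le_pow₀ (by norm_num))
            (E.one_le_N (hF t P t.2 hP).r_ne)
      · rintro (⟨t, j, ν⟩ | t) P hP
        · exact ((hbox t t.2 P hP).1 j j.2 ν).trans (hβB'.trans hJ1)
        · exact (hbox t t.2 P hP).2.trans (hβB'.trans hJ1)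
    · refine card_le_of_nonempty _ _ (by positivity) fun P₀ hP₀ => ?_
      rw [hk] at hsm ⊢
      exact (h.mono hS').cls_bound hfin hK hE hE' (fun t j P => π t P j) r
        (fun t ht P hP => hF t P ht (hS' hP)) hβ1
        (fun t ht j hj P hP => (hbox t ht P (hS' hP)).1 j hj)
        (fun t ht P hP => (hbox t ht P (hS' hP)).2.trans hβB') hβB' hsm
        (hC₂.trans (le_mul_of_one_le_right hC₂' (Real.one_le_rpow hB1 (by positivity)))) hB'.le hP₀
        (fun P hP t ht j hj ν => congrFun (hcl P hP P₀ hP₀) (Sum.inl (⟨t, ht⟩, ⟨j, hj⟩, ν)))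
        (fun P hP t ht => congrFun (hcl P hP P₀ hP₀) (Sum.inr ⟨t, ht⟩))
  have e1 : ((2 * J + 1 : ℝ)) ^ m ≤ C₁ ^ m * B ^ (δ / 2) := by
    refine (pow_le_pow_left₀ (by positivity) hJ2 m).trans (le_of_eq ?_)
    rw [mul_pow, ← Real.rpow_natCast (B ^ _) m, ← Real.rpow_mul hB0.le]
    congr 2; field_simp
  have e2 : (C₂ * B ^ (δ / (2 * k))) ^ k = C₂ ^ k * B ^ (δ / 2) := by
    rw [mul_pow, ← Real.rpow_natCast (B ^ _) k, ← Real.rpow_mul hB0.le]
    congr 2; field_simp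
  have e3 : B ^ δ = B ^ (δ / 2) * B ^ (δ / 2) := by
    rw [← Real.rpow_add hB0]; congr 1; ring
  rw [e2] at key
  refine key.trans ?_
  calc _ ≤ C₁ ^ m * B ^ (δ / 2) * (C₂ ^ k * B ^ (δ / 2) *
        (X ^ (3 / K : ℝ) * Y ^ (5 / 9 : ℝ))) := by gcongr
    _ = _ := by rw [e3]; ring

theorem main (E : Emb R V) (hfin : ∀ q : R, q ≠ 0 → Finite (R ⧸ Ideal.span {q})) (η : ℝ)
    (hη : 0 < η) : ∃ C : ℝ, 0 ≤ C ∧ ∀ (S : Finset α) (x : ℕ → α → R) (X Y : ℝ), Fam E S x X Y →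
      1 ≤ X → 0 ≤ Y → (S.card : ℝ) ≤ C * (X ^ η * Y ^ (5 / 9 : ℝ)) := by
  have hc := E.one_le_c
  have hn := E.pos_card
  obtain ⟨K, hK⟩ : ∃ K : ℕ, K = ⌈6 / η⌉₊ + 5 := ⟨_, rfl⟩
  have hK' : 3 / (K : ℝ) ≤ η / 2 := by
    have h1 := Nat.le_ceil (6 / η)
    rw [div_le_iff₀ hη] at h1
    rw [hK, div_le_iff₀ (by positivity)]
    push_cast
    linarith
  obtain ⟨E₀, hE₀⟩ : ∃ E₀ : ℕ, E₀ = ∑ j ∈ range (K + 1), ex K j + (12 * K ^ 2 * K + 1) := ⟨_, rfl⟩
  obtain ⟨D, hD⟩ : ∃ D : ℕ, D = 4 * E₀ ^ 2 * Fintype.card V ^ 2 := ⟨_, rfl⟩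
  have hD0 : (0 : ℝ) < D := by
    have : 0 < E₀ := by omega
    rw [hD]; positivity
  obtain ⟨C, hC, h₁⟩ := box_bound (α := α) E hfin (K := K) (E₀ := E₀) (by omega) (by omega)
    (by omega) (η / (2 * D)) (by positivity)
  have e2 : 0 ≤ bB E E₀ E.c := by unfold bB; positivity
  refine ⟨C * bB E E₀ E.c ^ (η / (2 * D)), by positivity, fun S x X Y h hX hY => ?_⟩
  have hX0 : 0 < X := by linarith
  have hu : ∀ P, ∃ u : Rˣ, P ∈ S → ∀ ν, |E.σ ν (u * x 0 P)| ≤ E.c * X := by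
    intro P
    by_cases hP : P ∈ S
    · obtain ⟨u, hu⟩ := E.exists_bal (h.ne 0 (by norm_num) P hP) hX0.le
        ((E.N_le_of_box fun ν => (le_max_left _ _).trans (le_max_left _ _)).trans
          ((h.ht P hP).trans (le_self_pow₀ hX hn.ne')))
      exact ⟨u, fun _ => hu⟩
    · exact ⟨1, fun h => (hP h).elim⟩
  choose u hu using hu
  have hne : ∀ t < 3, ∀ P ∈ S, (u P : R) * x t P ≠ 0 := fun t ht P hP =>
    mul_ne_zero (u P).ne_zero (h.ne t ht P hP)
  have hfam : Fam E S (fun t P => u P * x t P) X Y := by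
    refine ⟨fun P hP => ?_, hne, fun P hP a ha b hb hab => ?_, fun P hP P' hP' e => ?_,
      fun P hP => ?_, fun P hP => ?_, fun P hP => ?_⟩
    · linear_combination (u P : R) * h.sum P hP
    · exact (isCoprime_mul_unit_left (u P).isUnit _ _).2 (h.cop P hP a ha b hb hab)
    · refine h.inj P hP P' hP' (mul_left_cancel₀ (mul_ne_zero (u P).ne_zero (u P').ne_zero) ?_)
      linear_combination e
    · rw [E.hgt_unit]; exact h.ht P hP
    · simp only [E.hgt_unit, E.rd_unit]; exact h.rad P hP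
    · simp only [E.rd_unit]; exact h.radY P hP
  have key := h₁ S _ X Y (E.c * X ^ 2) hfam hX0.le hY
    (one_le_mul_of_one_le_of_one_le hc (one_le_pow₀ hX)) fun t ht P hP ν => by
      have k1 := E.max_le_hgt (hne 0 (by norm_num) P hP) (u P * x 1 P) (u P * x 2 P) ν
      have k2 : |E.σ ν (u P * x 0 P)| * E.hgt (u P * x 0 P) (u P * x 1 P) (u P * x 2 P) ≤
          E.c * X * X := mul_le_mul (hu P hP ν) (hfam.ht P hP)
            (Finset.prod_nonneg fun _ _ => by positivity) (by positivity)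
      refine le_trans ?_ (k1.trans (k2.trans (le_of_eq (by ring))))
      interval_cases t
      · exact (le_max_left _ _).trans (le_max_left _ _)
      · exact (le_max_right _ _).trans (le_max_left _ _)
      · exact le_max_right _ _
  have e1 : bB E E₀ (E.c * X ^ 2) = bB E E₀ E.c * X ^ D := by
    unfold bB
    simp only [mul_pow, ← pow_mul, hD]
    ring
  have e3 : (D : ℝ) * (η / (2 * D)) = η / 2 := by field_simp
  rw [e1, Real.mul_rpow e2 (by positivity), ← Real.rpow_natCast X, ← Real.rpow_mul hX0.le, e3] at key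
  have e4 : X ^ η = X ^ (η / 2) * X ^ (η / 2) := by
    rw [← Real.rpow_add hX0]; congr 1; ring
  have e5 := Real.rpow_le_rpow_of_exponent_le hX hK'
  calc _ ≤ _ := key
    _ ≤ C * (bB E E₀ E.c ^ (η / (2 * D)) * X ^ (η / 2)) * (X ^ (η / 2) * Y ^ (5 / 9 : ℝ)) := by gcongr
    _ = _ := by rw [e4]; ring

theorem partM (E : Emb R V) (hfin : ∀ q : R, q ≠ 0 → Finite (R ⧸ Ideal.span {q})) (ε A : ℝ)
    (hε : 0 < ε) : ∃ C : ℝ, ∀ Y : ℝ, 1 ≤ Y → ∀ S : Finset (R × R × R),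
      (∀ a b c, (a, b, c) ∈ S → a + b + c = 0 ∧ IsCoprime a b ∧ a * b * c ≠ 0 ∧
        E.hgt a b c ≤ Y ^ A ∧ E.rd (a * b * c) ≤ E.hgt a b c ∧ E.rd (a * b * c) ≤ Y) →
      (∀ a b c, ∀ u : Rˣ, (a, b, c) ∈ S → (u * a, u * b, u * c) ∈ S → u = 1) →
      (S.card : ℝ) ≤ C * Y ^ (5 / 9 + ε) := by
  have hA : 0 < max A 1 := lt_max_of_lt_right one_pos
  obtain ⟨C, -, hC⟩ := main (α := R × R × R) E hfin (ε / max A 1) (by positivity)
  refine ⟨C, fun Y hY S h hu => (hC S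
    (fun t P => if t = 0 then P.1 else if t = 1 then P.2.1 else P.2.2) (Y ^ max A 1) Y ?_
    (Real.one_le_rpow hY hA.le) (by linarith)).trans (le_of_eq ?_)⟩
  swap
  · rw [← Real.rpow_mul (by linarith), mul_div_cancel₀ _ hA.ne', ← Real.rpow_add (by linarith),
      add_comm]
  have hc : ∀ a b c, (a, b, c) ∈ S → IsCoprime a c ∧ IsCoprime b c := by
    intro a b c hP
    obtain ⟨h1, ⟨x, y, h2⟩, -⟩ := h a b c hP
    exact ⟨⟨x - y, -y, by linear_combination h2 - y * h1⟩,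
      ⟨y - x, -x, by linear_combination h2 - x * h1⟩⟩
  have hr : ∀ a b c, (a, b, c) ∈ S → E.rd (a * b * c) = E.rd a * E.rd b * E.rd c := by
    intro a b c hP
    rw [E.rd_mul ((hc a b c hP).1.mul_left (hc a b c hP).2), E.rd_mul (h a b c hP).2.1]
  refine ⟨fun ⟨a, b, c⟩ hP => (h a b c hP).1, fun t ht ⟨a, b, c⟩ hP => ?_,
    fun ⟨a, b, c⟩ hP s hs t ht hst => ?_, fun ⟨a, b, c⟩ hP ⟨a', b', c'⟩ hP' e => ?_,
    fun ⟨a, b, c⟩ hP => (h a b c hP).2.2.2.1.trans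
      (Real.rpow_le_rpow_of_exponent_le hY (le_max_left _ _)),
    fun ⟨a, b, c⟩ hP => (hr a b c hP).ge.trans (h a b c hP).2.2.2.2.1,
    fun ⟨a, b, c⟩ hP => (hr a b c hP).ge.trans (h a b c hP).2.2.2.2.2⟩
  · have h0 := (h a b c hP).2.2.1
    interval_cases t
    · exact left_ne_zero_of_mul (left_ne_zero_of_mul h0)
    · exact right_ne_zero_of_mul (left_ne_zero_of_mul h0)
    · exact right_ne_zero_of_mul h0
  · have h1 := (h a b c hP).2.1
    obtain ⟨h2, h3⟩ := hc a b c hP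
    interval_cases s <;> interval_cases t <;>
      first | contradiction | assumption | exact h1.symm | exact h2.symm | exact h3.symm
  · have e' : a * b' = a' * b := e
    obtain ⟨s1, c1, n1, -⟩ := h a b c hP
    obtain ⟨s2, c2, -⟩ := h a' b' c' hP'
    have ha : a ≠ 0 := left_ne_zero_of_mul (left_ne_zero_of_mul n1)
    obtain ⟨u, rfl⟩ : Associated a a' := associated_of_dvd_dvd
      (c1.dvd_of_dvd_mul_right ⟨b', e'.symm⟩) (c2.dvd_of_dvd_mul_right ⟨b, e'⟩)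
    have hb : b' = u * b := mul_left_cancel₀ ha (by linear_combination e')
    have hc : c' = u * c := by linear_combination s2 - (u : R) * s1 - hb
    rw [hb, hc, mul_comm a] at hP' ⊢
    rw [hu a b c u hP hP']
    simp

end Pool.Agent.MP_2a5a28_nt.H39

/-! The ring of integers of `ℚ(√5)`. -/

namespace Pool.Agent.MP_2a5a28_nt.H39

open Finset UniqueFactorizationMonoid Real

set_option linter.unusedSectionVars false

/-- The abstract ring `ℤ[ω]`, `ω² = 1 + ω`. -/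
abbrev GQ : Type := QuadraticAlgebra ℤ 1 1

/-- The real embedding sending `ω` to `r`. -/
noncomputable def gemb (r : ℝ) (h : r ^ 2 = r + 1) : GQ →+* ℝ where
  toFun z := z.re + z.im * r
  map_one' := by simp [QuadraticAlgebra.re_one, QuadraticAlgebra.im_one]
  map_mul' z w := by
    simp only [QuadraticAlgebra.re_mul, QuadraticAlgebra.im_mul]
    push_cast
    linear_combination (-(z.im : ℝ) * w.im) * h
  map_zero' := by simp
  map_add' z w := by
    simp only [QuadraticAlgebra.re_add, QuadraticAlgebra.im_add]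
    push_cast
    ring

/-- The two embeddings. -/
noncomputable def gσ : Fin 2 → GQ →+* ℝ :=
  ![gemb goldenRatio goldenRatio_sq, gemb goldenConj goldenConj_sq]

theorem gσ_zero (z : GQ) : gσ 0 z = z.re + z.im * goldenRatio := rfl

theorem gσ_one (z : GQ) : gσ 1 z = z.re + z.im * goldenConj := rfl

theorem coords_eq {x y x' y' : ℤ}
    (h : (x : ℝ) + y * goldenRatio = x' + y' * goldenRatio) : x = x' ∧ y = y' := by
  by_cases hy : y = y'
  · subst hy
    exact ⟨by exact_mod_cast add_right_cancel h, rfl⟩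
  · exfalso
    have h1 : ((y - y' : ℤ) : ℝ) * goldenRatio = (x' - x : ℤ) := by push_cast; linarith
    exact (goldenRatio_irrational.intCast_mul (sub_ne_zero.2 hy)).ne_int _ h1

theorem gσ_inj : Function.Injective (gσ 0) := fun z w h => by
  obtain ⟨h1, h2⟩ := coords_eq (show (z.re : ℝ) + z.im * goldenRatio = w.re + w.im * goldenRatio from h)
  exact QuadraticAlgebra.ext h1 h2

theorem gdomain : IsDomain GQ := gσ_inj.isDomain

theorem gnorm (z : GQ) : gσ 0 z * gσ 1 z = (z.norm : ℤ) := by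
  rw [gσ_zero, gσ_one, QuadraticAlgebra.norm_def]
  push_cast
  linear_combination ((z.re : ℝ) * z.im) * goldenRatio_add_goldenConj +
    ((z.im : ℝ) * z.im) * goldenRatio_mul_goldenConj

theorem gnorm_ne {z : GQ} (hz : z ≠ 0) : z.norm ≠ 0 := by
  have := gdomain
  intro h
  have h1 := QuadraticAlgebra.algebraMap_norm_eq_mul_star z
  rw [h, map_zero] at h1
  exact mul_ne_zero hz (star_ne_zero.2 hz) h1.symm

theorem exists_int_div (w n : ℤ) (hn : n ≠ 0) : ∃ q : ℤ, 2 * |w - q * n| ≤ |n| := by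
  have hn' : (n : ℚ) ≠ 0 := by exact_mod_cast hn
  refine ⟨round ((w : ℚ) / n), ?_⟩
  have h1 := abs_sub_round ((w : ℚ) / n)
  have h2 : (w : ℚ) - round ((w : ℚ) / n) * n = ((w : ℚ) / n - round ((w : ℚ) / n)) * n := by
    field_simp
  have h3 : 2 * |(w : ℚ) - round ((w : ℚ) / n) * n| ≤ |(n : ℚ)| := by
    rw [h2, abs_mul]
    nlinarith [abs_nonneg (n : ℚ)]
  exact_mod_cast h3

theorem gdiv (a b : GQ) (hb : b ≠ 0) : ∃ q : GQ, |(a - q * b).norm| < |b.norm| := by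
  have hn := gnorm_ne hb
  obtain ⟨q₁, h₁⟩ := exists_int_div (a * star b).re b.norm hn
  obtain ⟨q₂, h₂⟩ := exists_int_div (a * star b).im b.norm hn
  refine ⟨⟨q₁, q₂⟩, ?_⟩
  obtain ⟨s, hs⟩ : ∃ s, s = (a * star b).re - q₁ * b.norm := ⟨_, rfl⟩
  obtain ⟨t, ht⟩ : ∃ t, t = (a * star b).im - q₂ * b.norm := ⟨_, rfl⟩
  have e : (a - ⟨q₁, q₂⟩ * b).norm * b.norm = s * s + s * t - t * t := by
    rw [hs, ht]
    simp only [QuadraticAlgebra.norm_def, QuadraticAlgebra.re_mul, QuadraticAlgebra.im_mul,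
      QuadraticAlgebra.re_sub, QuadraticAlgebra.im_sub, QuadraticAlgebra.re_star,
      QuadraticAlgebra.im_star]
    ring
  rw [← hs] at h₁
  rw [← ht] at h₂
  have h0 : 0 < |b.norm| := abs_pos.2 hn
  have h3 : |s * s + s * t - t * t| ≤ |s| * |s| + |s| * |t| + |t| * |t| := by
    simp only [← abs_mul]
    exact (abs_sub _ _).trans (add_le_add_left (abs_add_le _ _) _)
  have h4 : |(a - ⟨q₁, q₂⟩ * b).norm| * |b.norm| < |b.norm| * |b.norm| := by
    rw [← abs_mul, e]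
    have := abs_nonneg s
    have := abs_nonneg t
    nlinarith
  exact lt_of_mul_lt_mul_right h4 h0.le

theorem gpid : IsPrincipalIdealRing GQ := by
  classical
  refine ⟨fun I => ?_⟩
  by_cases hI : I = ⊥
  · rw [hI]; exact bot_isPrincipal
  have hex : ∃ n : ℕ, ∃ b ∈ I, b ≠ 0 ∧ b.norm.natAbs = n := by
    obtain ⟨b, hb, hb0⟩ := Submodule.exists_mem_ne_zero_of_ne_bot hI
    exact ⟨_, b, hb, hb0, rfl⟩
  obtain ⟨b, hb, hb0, hbn⟩ := Nat.find_spec hex
  refine ⟨b, le_antisymm (fun a ha => ?_) ((Ideal.span_singleton_le_iff_mem _).2 hb)⟩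
  obtain ⟨q, hq⟩ := gdiv a b hb0
  have : a - q * b = 0 := by
    by_contra h0
    have := Nat.find_min' hex ⟨a - q * b, I.sub_mem ha (I.mul_mem_left q hb), h0, rfl⟩
    rw [← hbn] at this
    rw [Int.abs_eq_natAbs, Int.abs_eq_natAbs] at hq
    omega
  exact Ideal.mem_span_singleton'.2 ⟨q, (sub_eq_zero.1 this).symm⟩

theorem gprod (z : GQ) : ∏ ν, |gσ ν z| = |((z.norm : ℤ) : ℝ)| := by
  rw [Fin.prod_univ_two, ← abs_mul, gnorm]

/-- The fundamental unit. -/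
def gunit : GQˣ := ⟨⟨0, 1⟩, ⟨-1, 1⟩, by ext <;> simp [QuadraticAlgebra.re_one, QuadraticAlgebra.im_one],
  by ext <;> simp [QuadraticAlgebra.re_one, QuadraticAlgebra.im_one]⟩

theorem gσ_unit (ν : Fin 2) (k : ℤ) : gσ ν ((gunit ^ k : GQˣ) : GQ) = gσ ν (gunit : GQ) ^ k := by
  have := congrArg Units.val (map_zpow (Units.map (gσ ν).toMonoidHom) gunit k)
  rw [Units.val_zpow_eq_zpow_val] at this
  exact this

theorem gbalance (a : GQ) (ha : a ≠ 0) :
    ∃ u : GQˣ, ∀ ν, |gσ ν (u * a)| ^ Fintype.card (Fin 2) ≤ 21 * ∏ ν, |gσ ν a| := by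
  have h0 : gσ 0 a * gσ 1 a ≠ 0 := by rw [gnorm]; exact_mod_cast gnorm_ne ha
  have hA : 0 < |gσ 0 a| := abs_pos.2 (left_ne_zero_of_mul h0)
  have hB : 0 < |gσ 1 a| := abs_pos.2 (right_ne_zero_of_mul h0)
  have hφ := one_lt_goldenRatio
  have hφ2 := goldenRatio_lt_two
  obtain ⟨k, hk1, hk2⟩ := exists_mem_Ico_zpow (div_pos hB hA) (show 1 < goldenRatio ^ 2 by nlinarith)
  have hp : 0 < goldenRatio ^ k := zpow_pos goldenRatio_pos k
  have e : (goldenRatio ^ 2) ^ k = (goldenRatio ^ k) ^ 2 := by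
    rw [← zpow_natCast, ← zpow_natCast, ← zpow_mul, ← zpow_mul, mul_comm]
  rw [zpow_add₀ (by positivity), zpow_one, e, div_lt_iff₀ hA] at hk2
  rw [e, le_div_iff₀ hA] at hk1
  have e0 : |gσ 0 ((gunit ^ k : GQˣ) : GQ)| = goldenRatio ^ k := by
    rw [gσ_unit, abs_zpow, gσ_zero]; simp [gunit, abs_of_pos goldenRatio_pos]
  have e1 : |gσ 1 ((gunit ^ k : GQˣ) : GQ)| = (goldenRatio ^ k)⁻¹ := by
    rw [gσ_unit, abs_zpow, gσ_one, ← inv_zpow, inv_goldenRatio]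
    simp [gunit, abs_of_neg goldenConj_neg]
  refine ⟨gunit ^ k, fun ν => ?_⟩
  rw [Fin.prod_univ_two, Fintype.card_fin, map_mul, abs_mul]
  generalize goldenRatio ^ k = p at *
  have hAB := mul_pos hA hB
  fin_cases ν
  · simp only [Fin.zero_eta, e0]
    nlinarith [mul_le_mul_of_nonneg_right hk1 hA.le]
  · simp only [Fin.mk_one, e1]
    rw [mul_pow, inv_pow, inv_mul_le_iff₀ (by positivity)]
    have h4 : goldenRatio ^ 2 ≤ 21 := by nlinarith
    have h5 : p ^ 2 * goldenRatio ^ 2 * |gσ 0 a| ≤ p ^ 2 * 21 * |gσ 0 a| := by gcongr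
    nlinarith [mul_le_mul_of_nonneg_right (hk2.le.trans h5) hB.le]

theorem card_Icc_floor (s : ℝ) (hs : 0 ≤ s) :
    ((Finset.Icc (-(⌊s⌋₊ : ℤ)) ⌊s⌋₊).card : ℝ) ≤ 2 * s + 1 := by
  have h : ((⌊s⌋₊ : ℤ) + 1 - -(⌊s⌋₊ : ℤ)).toNat = 2 * ⌊s⌋₊ + 1 := by omega
  rw [Int.card_Icc, h]
  push_cast
  linarith [Nat.floor_le hs]

theorem mem_Icc_floor {s : ℝ} {x : ℤ} (h : |(x : ℝ)| ≤ s) :
    x ∈ Finset.Icc (-(⌊s⌋₊ : ℤ)) ⌊s⌋₊ := by
  have h1 : x.natAbs ≤ ⌊s⌋₊ := Nat.le_floor (by rw [Nat.cast_natAbs]; exact_mod_cast h)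
  rw [Finset.mem_Icc]
  omega

theorem gbox (T : ℝ) (hT : 1 ≤ T) (S : Finset GQ)
    (h : ∀ a ∈ S, ∀ ν, |gσ ν a| ^ Fintype.card (Fin 2) ≤ T) : (S.card : ℝ) ≤ 21 * T := by
  obtain ⟨s, hs, rfl⟩ : ∃ s : ℝ, 1 ≤ s ∧ T = s ^ 2 :=
    ⟨√T, Real.one_le_sqrt.2 hT, (Real.sq_sqrt (by linarith)).symm⟩
  have h5 : (2 : ℝ) ≤ √5 := Real.le_sqrt_of_sq_le (by norm_num)
  have hc := Finset.card_le_card_of_injOn (s := S)
    (t := Finset.Icc (-(⌊3 * s⌋₊ : ℤ)) ⌊3 * s⌋₊ ×ˢ Finset.Icc (-(⌊s⌋₊ : ℤ)) ⌊s⌋₊)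
    (fun z => (z.re, z.im)) (fun z hz => ?_) (fun z _ w _ e =>
      QuadraticAlgebra.ext (congrArg Prod.fst e) (congrArg Prod.snd e))
  · rw [Finset.card_product] at hc
    have h1 := card_Icc_floor (3 * s) (by linarith)
    have h2 := card_Icc_floor s (by linarith)
    calc (S.card : ℝ) ≤ ((Finset.Icc (-(⌊3 * s⌋₊ : ℤ)) ⌊3 * s⌋₊).card : ℝ) *
          (Finset.Icc (-(⌊s⌋₊ : ℤ)) ⌊s⌋₊).card := by exact_mod_cast hc
      _ ≤ (2 * (3 * s) + 1) * (2 * s + 1) := by gcongr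
      _ ≤ (7 * s) * (3 * s) := by gcongr <;> linarith
      _ = _ := by ring
  · have k : ∀ ν, |gσ ν z| ≤ s := fun ν =>
      le_of_pow_le_pow_left₀ two_ne_zero (by linarith) (by simpa using h z hz ν)
    have k0 := k 0
    have k1 := k 1
    have e : gσ 0 z - gσ 1 z = z.im * √5 := by
      rw [gσ_zero, gσ_one, ← goldenRatio_sub_goldenConj]; ring
    have k2 : |(z.im : ℝ)| ≤ s := by
      have : |gσ 0 z - gσ 1 z| ≤ s + s := (abs_sub _ _).trans (add_le_add k0 k1)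
      rw [e, abs_mul, abs_of_pos (by linarith : (0 : ℝ) < √5)] at this
      nlinarith [abs_nonneg (z.im : ℝ)]
    have k3 : |(z.re : ℝ)| ≤ 3 * s := by
      have e2 : (z.re : ℝ) = gσ 0 z - z.im * goldenRatio := by rw [gσ_zero]; ring
      rw [e2]
      refine (abs_sub _ _).trans ?_
      rw [abs_mul, abs_of_pos goldenRatio_pos]
      nlinarith [abs_nonneg (z.im : ℝ), goldenRatio_lt_two, goldenRatio_pos]
    exact Finset.mem_coe.2 (Finset.mem_product.2 ⟨mem_Icc_floor k3, mem_Icc_floor k2⟩)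

/-- The structure of the abstract ring. -/
noncomputable def gE : Emb GQ (Fin 2) where
  σ := gσ
  c := 21
  cls z := (z.re, z.im)
  one_le_c := by norm_num
  pos_card := by simp
  one_le_norm a ha := by
    rw [gprod]
    exact_mod_cast Int.one_le_abs (gnorm_ne ha)
  two_le_norm p hp := by
    rw [gprod]
    have h1 := gnorm_ne hp.ne_zero
    have h2 : ¬ IsUnit p.norm := fun h => hp.not_isUnit (QuadraticAlgebra.isUnit_iff_norm_isUnit.2 h)
    rw [Int.isUnit_iff_natAbs_eq] at h2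
    have h3 : (2 : ℤ) ≤ |p.norm| := by rw [Int.abs_eq_natAbs]; omega
    exact_mod_cast h3
  balance := gbalance
  box := gbox
  cls_dvd a b h := by
    have h1 := (ZMod.intCast_eq_intCast_iff_dvd_sub _ _ 144).1 (congrArg Prod.fst h).symm
    have h2 := (ZMod.intCast_eq_intCast_iff_dvd_sub _ _ 144).1 (congrArg Prod.snd h).symm
    exact (QuadraticAlgebra.algebraMap_dvd_iff (r := (144 : ℤ))).2 ⟨h1, h2⟩

theorem gcard {p : GQ} : (Nat.card (GQ ⧸ Ideal.span {p}) : ℝ) = gE.N p := by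
  have := gdomain
  have := gpid
  have h := Ideal.absNorm_span_singleton p
  rw [Ideal.absNorm_apply, Submodule.cardQuot_apply] at h
  have h2 : Algebra.norm ℤ p = p.norm := by
    rw [Algebra.norm_apply, ← QuadraticAlgebra.det_toLinearMap_eq_norm]
    rfl
  rw [h, h2, Nat.cast_natAbs, Int.cast_abs]
  exact (gprod p).symm

/-- Transport along a ring isomorphism. -/
noncomputable def embMap {R R' : Type*} [CommRing R] [CommRing R'] {V : Type*} [Fintype V]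
    (E : Emb R V) (e : R ≃+* R') : Emb R' V where
  σ ν := (E.σ ν).comp e.symm.toRingHom
  c := E.c
  cls z := E.cls (e.symm z)
  one_le_c := E.one_le_c
  pos_card := E.pos_card
  one_le_norm a ha := E.one_le_norm (e.symm a) (by simpa using ha)
  two_le_norm p hp := E.two_le_norm (e.symm p) ((MulEquiv.prime_iff e.symm).2 hp)
  balance a ha := by
    obtain ⟨u, hu⟩ := E.balance (e.symm a) (by simpa using ha)
    refine ⟨Units.map e.toMonoidHom u, fun ν => ?_⟩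
    simpa using hu ν
  box T hT S h := by
    classical
    rw [← Finset.card_image_of_injective S e.symm.injective]
    refine E.box T hT _ fun a ha ν => ?_
    obtain ⟨b, hb, rfl⟩ := Finset.mem_image.1 ha
    exact h b hb ν
  cls_dvd a b h := by
    have := map_dvd e (E.cls_dvd _ _ h)
    simpa [map_ofNat] using this

open H37 in
/-- The map to the concrete ring. -/
noncomputable def toO : GQ →+* O :=
  (gσ 0).codRestrict (Algebra.adjoin ℤ ({goldenRatio} : Set ℝ)) fun z => by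
    rw [gσ_zero]
    exact add_mem (intCast_mem _ _) (mul_mem (intCast_mem _ _) (Algebra.subset_adjoin rfl))

theorem toO_bij : Function.Bijective toO := by
  refine ⟨fun z w h => gσ_inj (congrArg Subtype.val h), fun ⟨t, ht⟩ => ?_⟩
  have key : ∃ z : GQ, gσ 0 z = t := by
    induction ht using Algebra.adjoin_induction with
    | mem t h => exact ⟨⟨0, 1⟩, by rw [Set.mem_singleton_iff.1 h, gσ_zero]; simp⟩
    | algebraMap r => exact ⟨r, by simp⟩
    | add a b _ _ ha hb =>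
      obtain ⟨x, rfl⟩ := ha
      obtain ⟨y, rfl⟩ := hb
      exact ⟨x + y, map_add _ _ _⟩
    | mul a b _ _ ha hb =>
      obtain ⟨x, rfl⟩ := ha
      obtain ⟨y, rfl⟩ := hb
      exact ⟨x * y, map_mul _ _ _⟩
  obtain ⟨z, hz⟩ := key
  exact ⟨z, Subtype.ext hz⟩

/-- The structure of the ring of rational integers. -/
noncomputable def zE : Emb ℤ Unit where
  σ _ := Int.castRingHom ℝ
  c := 3
  cls z := (z, 0)
  one_le_c := by norm_num
  pos_card := by simp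
  one_le_norm a ha := by
    simp only [Finset.univ_unique, Finset.prod_singleton, eq_intCast]
    exact_mod_cast Int.one_le_abs ha
  two_le_norm p hp := by
    simp only [Finset.univ_unique, Finset.prod_singleton, eq_intCast]
    have h2 := (Int.prime_iff_natAbs_prime.1 hp).two_le
    have h3 : (2 : ℤ) ≤ |p| := by rw [Int.abs_eq_natAbs]; omega
    exact_mod_cast h3
  balance a _ := ⟨1, fun _ => by
    simp only [Finset.univ_unique, Finset.prod_singleton, Fintype.card_unique, pow_one,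
      Units.val_one, one_mul]
    linarith [abs_nonneg (Int.castRingHom ℝ a)]⟩
  box T hT S h := by
    have h1 : S ⊆ Finset.Icc (-(⌊T⌋₊ : ℤ)) ⌊T⌋₊ := fun a ha =>
      mem_Icc_floor (by simpa using h a ha ())
    have h2 := card_Icc_floor T (by linarith)
    have h3 : (S.card : ℝ) ≤ (Finset.Icc (-(⌊T⌋₊ : ℤ)) ⌊T⌋₊).card := by
      exact_mod_cast Finset.card_le_card h1
    linarith
  cls_dvd a b h := (ZMod.intCast_eq_intCast_iff_dvd_sub _ _ 144).1 (congrArg Prod.fst h).symm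

theorem zrad (n : ℕ) (hn : n ≠ 0) : zE.rd (n : ℤ) = ((∏ p ∈ n.primeFactors, p : ℕ) : ℝ) := by
  have : primeFactors (n : ℤ) = n.primeFactors.image (fun p : ℕ => (p : ℤ)) := by
    ext p
    rw [mem_primeFactors, mem_normalizedFactors_iff' (by exact_mod_cast hn), Finset.mem_image]
    constructor
    · rintro ⟨h1, h2, h3⟩
      have h4 : 0 ≤ p := by rw [← h2, ← Int.abs_eq_normalize]; exact abs_nonneg p
      lift p to ℕ using h4
      exact ⟨p, Nat.mem_primeFactors.2 ⟨Nat.prime_iff_prime_int.2 h1.prime,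
        by exact_mod_cast h3, hn⟩, rfl⟩
    · rintro ⟨q, hq, rfl⟩
      obtain ⟨h1, h2, -⟩ := Nat.mem_primeFactors.1 hq
      exact ⟨(Nat.prime_iff_prime_int.1 h1).irreducible, Int.normalize_coe_nat q,
        by exact_mod_cast h2⟩
  rw [Emb.rd, this, Finset.prod_image fun _ _ _ _ h => by exact_mod_cast h]
  push_cast
  exact Finset.prod_congr rfl fun p _ => by simp [Emb.N, zE]

end Pool.Agent.MP_2a5a28_nt.H39

/-! The bound for triples of moderate height over the two concrete rings. -/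

namespace Pool.Agent.MP_2a5a28_nt.H39

open Finset UniqueFactorizationMonoid Real

open H37 in
theorem partM_O (ε A : ℝ) (hε : 0 < ε) : ∃ C : ℝ, ∀ Y : ℝ, 1 ≤ Y → ∀ S : Finset (O × O × O),
    (∀ a b c, (a, b, c) ∈ S → ∃ x₁ y₁ x₂ y₂ x₃ y₃ : ℤ,
      (a : ℝ) = (x₁ : ℝ) + (y₁ : ℝ) * goldenRatio ∧
      (b : ℝ) = (x₂ : ℝ) + (y₂ : ℝ) * goldenRatio ∧
      (c : ℝ) = (x₃ : ℝ) + (y₃ : ℝ) * goldenRatio ∧
      a + b + c = 0 ∧ Ideal.span ({a, b, c} : Set O) = ⊤ ∧ a * b * c ≠ 0 ∧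
      ht x₁ y₁ x₂ y₂ x₃ y₃ ≤ Y ^ A ∧ H37.rad (a * b * c) ≤ ht x₁ y₁ x₂ y₂ x₃ y₃ ∧
      H37.rad (a * b * c) ≤ Y) →
    (∀ a b c, ∀ u : Oˣ, (a, b, c) ∈ S → (u * a, u * b, u * c) ∈ S → u = 1) →
    (S.card : ℝ) ≤ C * Y ^ (5 / 9 + ε) := by
  classical
  obtain ⟨e, he⟩ : ∃ e : GQ ≃+* O, ∀ z, (e z : ℝ) = gσ 0 z :=
    ⟨RingEquiv.ofBijective toO toO_bij, fun _ => rfl⟩
  have := gpid
  have : IsPrincipalIdealRing O := IsPrincipalIdealRing.of_surjective e.toRingHom e.surjective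
  let : StrongNormalizationMonoid O := UniqueFactorizationMonoid.strongNormalizationMonoid
  have hcard : ∀ p : O, ((Nat.card (O ⧸ Ideal.span {p}) : ℕ) : ℝ) = (embMap gE e).N p := fun p => by
    have e2 := Ideal.quotientEquiv (Ideal.span {e.symm p}) (Ideal.span {p}) e
      (by rw [Ideal.map_span]; simp)
    rw [← Nat.card_congr e2.toEquiv, gcard]
    rfl
  obtain ⟨C, hC⟩ := partM (embMap gE e) (fun q hq => Nat.finite_of_card_ne_zero fun h => by
    have := (embMap gE e).N_pos hq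
    rw [← hcard, h] at this
    simp at this) ε A hε
  refine ⟨C, fun X hX S h hu => hC X hX S (fun a b c hP => ?_) hu⟩
  obtain ⟨x₁, y₁, x₂, y₂, x₃, y₃, h₁, h₂, h₃, hs, hc, hn, hH, hr, hY⟩ := h a b c hP
  have k : ∀ (t : O) (x y : ℤ), (t : ℝ) = x + y * goldenRatio →
      (embMap gE e).σ 0 t = x + y * goldenRatio ∧ (embMap gE e).σ 1 t = x + y * goldenConj := by
    intro t x y h
    have : e.symm t = ⟨x, y⟩ := gσ_inj (by rw [← he, e.apply_symm_apply, h]; rfl)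
    constructor
    · change gσ 0 (e.symm t) = _
      rw [this]; rfl
    · change gσ 1 (e.symm t) = _
      rw [this]; rfl
  have hht : (embMap gE e).hgt a b c = ht x₁ y₁ x₂ y₂ x₃ y₃ := by
    rw [Emb.hgt, Fin.prod_univ_two, (k a _ _ h₁).1, (k a _ _ h₁).2, (k b _ _ h₂).1, (k b _ _ h₂).2,
      (k c _ _ h₃).1, (k c _ _ h₃).2, ht]
  have hrad : H37.rad (a * b * c) = (embMap gE e).rd (a * b * c) :=
    (embMap gE e).rd_eq (fun P => ((Nat.card (O ⧸ P) : ℕ) : ℝ)) hcard hn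
  refine ⟨hs, ?_, hn, hht ▸ hH, by rw [hht, ← hrad]; exact hr, hrad ▸ hY⟩
  have h1 : (1 : O) ∈ Ideal.span ({a, b, c} : Set O) := hc ▸ Submodule.mem_top
  obtain ⟨x, y, z, h1⟩ := Submodule.mem_span_triple.1 h1
  exact ⟨x - z, y - z, by simp only [smul_eq_mul] at h1; linear_combination h1 - z * hs⟩

theorem partM_Z (ε A : ℝ) (hε : 0 < ε) : ∃ C : ℝ, ∀ Y : ℝ, 1 ≤ Y → ∀ S : Finset (ℕ × ℕ × ℕ),
    (∀ a b c, (a, b, c) ∈ S → 1 ≤ a ∧ 1 ≤ b ∧ a + b = c ∧ Nat.Coprime a b ∧ (c : ℝ) ≤ Y ^ A ∧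
      ∏ p ∈ (a * b * c).primeFactors, p ≤ c ∧
      ((∏ p ∈ (a * b * c).primeFactors, p : ℕ) : ℝ) ≤ Y) →
    (S.card : ℝ) ≤ C * Y ^ (5 / 9 + ε) := by
  obtain ⟨C, hC⟩ := partM zE (fun q hq => Ideal.finiteQuotientOfFreeOfNeBot _ (by simpa using hq))
    ε A hε
  refine ⟨C, fun Y hY S hS => ?_⟩
  have hinj : Function.Injective
      fun t : ℕ × ℕ × ℕ => ((t.1 : ℤ), (t.2.1 : ℤ), -(t.2.2 : ℤ)) := by
    rintro ⟨a, b, c⟩ ⟨a', b', c'⟩ h
    simpa using h
  rw [← Finset.card_image_of_injective _ hinj]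
  refine hC Y hY _ (fun a b c h => ?_) fun a b c u h h' => ?_
  · obtain ⟨⟨a', b', c'⟩, h1, h2⟩ := Finset.mem_image.1 h
    simp only [Prod.mk.injEq] at h2
    obtain ⟨rfl, rfl, rfl⟩ := h2
    obtain ⟨ha, hb, rfl, hco, hc, hr, hrY⟩ := hS _ _ _ h1
    have hht : zE.hgt a' b' (-((a' + b' : ℕ) : ℤ)) = (a' + b' : ℕ) := by
      have h1 : (0 : ℝ) ≤ a' := Nat.cast_nonneg _
      have h2 : (0 : ℝ) ≤ b' := Nat.cast_nonneg _
      simp only [Emb.hgt, zE, Finset.univ_unique, Finset.prod_singleton, eq_intCast, Int.cast_neg,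
        Int.cast_natCast, abs_neg, Nat.abs_cast]
      push_cast
      exact max_eq_right (max_le (by linarith) (by linarith))
    have hn : a' * b' * (a' + b') ≠ 0 := by positivity
    have e : (a' : ℤ) * b' * -((a' + b' : ℕ) : ℤ) = (-1 : ℤˣ) * ((a' * b' * (a' + b') : ℕ) : ℤ) := by
      push_cast; ring
    refine ⟨by push_cast; ring, Nat.isCoprime_iff_coprime.2 hco, ?_, hht ▸ hc, ?_, ?_⟩
    · have : (a' : ℤ) * b' * (a' + b' : ℕ) ≠ 0 := by exact_mod_cast hn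
      rwa [mul_neg, neg_ne_zero]
    · rw [hht, e, zE.rd_unit, zrad _ hn]
      exact_mod_cast hr
    · rw [e, zE.rd_unit, zrad _ hn]
      exact hrY
  · obtain ⟨⟨a', b', c'⟩, h1, h2⟩ := Finset.mem_image.1 h
    obtain ⟨⟨a'', b'', c''⟩, h3, h4⟩ := Finset.mem_image.1 h'
    simp only [Prod.mk.injEq] at h2 h4
    rcases Int.units_eq_one_or u with rfl | rfl
    · rfl
    · exfalso
      have h5 := h4.1
      have h6 := (hS _ _ _ h1).1
      rw [← h2.1] at h5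
      simp only [Units.val_neg, Units.val_one] at h5
      omega

end Pool.Agent.MP_2a5a28_nt.H39
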