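import Pool.Agent.MP_2a5a28_nt.ToolC
import Pool.Agent.MP_2a5a28_nt.Small
import Pool.Agent.MP_2a5a28_nt.H39.Cert

/-! The ratio lemma and the Thue lemma for arbitrary exponents. -/

namespace Pool.Agent.MP_2a5a28_nt.H39

open Finset UniqueFactorizationMonoid

set_option linter.unusedSectionVars false

variable {R : Type*} [CommRing R] [IsDomain R] [IsPrincipalIdealRing R]

theorem dvd_mul_sub (g : ℕ) (hg1 : 1 ≤ g) (m A B : R) (hm : m ≠ 0)
    (hB : IsCoprime m B) (h1 : m ∣ A ^ g - B ^ g) (h2 : (g : R) ^ 2 ∣ A - B)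
    (h3 : ∀ π, Prime π → π ∣ m → π ∣ A - B) : m ∣ g * (A - B) := by
  obtain ⟨t, ht⟩ := h2
  have : ∃ w, A ^ g - B ^ g = (g * (A - B)) * (B ^ (g - 1) + g * t * w) := by
    obtain ⟨w, hw⟩ : A - B ∣ (∑ i ∈ range g, A ^ i * B ^ (g - 1 - i)) - g * B ^ (g - 1) := by
      have e : (g : R) * B ^ (g - 1) = ∑ i ∈ range g, B ^ i * B ^ (g - 1 - i) := by
        rw [Finset.sum_congr rfl (g := fun _ => B ^ (g - 1)) fun i hi => by
          rw [← pow_add]; congr 1; have := Finset.mem_range.1 hi; omega]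
        simp
      rw [e, ← Finset.sum_sub_distrib]
      exact Finset.dvd_sum fun i _ => by
        rw [← sub_mul]; exact (sub_dvd_pow_sub_pow A B i).mul_right _
    refine ⟨w, ?_⟩
    rw [← (Commute.all A B).geom_sum₂_mul g]
    linear_combination (A - B) * hw + (A - B) * w * ht
  obtain ⟨w, hw⟩ := this
  rw [hw] at h1
  refine IsCoprime.dvd_of_dvd_mul_right ?_ h1
  refine isCoprime_of_prime_dvd (fun h => hm h.1) fun π hπ hπm hπS => ?_
  have h4 := h3 π hπ hπm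
  have h5 : π ∣ g * t := by
    refine hπ.dvd_of_dvd_pow (n := 2) (h4.trans ⟨t, ?_⟩)
    rw [ht]; ring
  have h6 : π ∣ B ^ (g - 1) := by
    have := dvd_sub hπS (h5.mul_right w)
    simpa using this
  exact hπ.not_isUnit (hB.isUnit_of_dvd' hπm (hπ.dvd_of_dvd_pow h6))

theorem root_classes {α : Type*} (G g : ℕ) (hg1 : 1 ≤ g) (hg4 : g ≤ G) (m p q : R)
    (hp : IsCoprime m p) (Y Y' : α → R) (k : ℝ) (hk : 0 ≤ k) (P : Finset R)
    (hP : ∀ π ∈ P, Prime π ∧ π ∣ m) :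
    ∀ S : Finset α, (∀ x ∈ S, IsCoprime m (Y' x)) → (∀ x ∈ S, m ∣ p * Y x ^ g - q * Y' x ^ g) →
      (∀ S' ⊆ S, (∀ π ∈ P, ∀ x ∈ S', ∀ y ∈ S', π ∣ Y x * Y' y - Y' x * Y y) → (S'.card : ℝ) ≤ k) →
      (S.card : ℝ) ≤ (G : ℝ) ^ P.card * k := by
  classical
  induction P using Finset.induction_on with
  | empty => intro S _ _ h; simpa using h S subset_rfl (by simp)
  | insert π P hπP ih =>
    intro S hY' hdvd h
    obtain ⟨hπ, hπm⟩ := hP π (Finset.mem_insert_self _ _)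
    rw [Finset.card_insert_of_notMem hπP, pow_succ', mul_assoc]
    have hmax : (Ideal.span {π}).IsMaximal :=
      PrincipalIdealRing.isMaximal_of_irreducible hπ.irreducible
    let _ : Field (R ⧸ Ideal.span {π}) := Ideal.Quotient.field _
    set φ := Ideal.Quotient.mk (Ideal.span {π}) with hφ
    have hker : ∀ a, φ a = 0 ↔ π ∣ a := fun a => by
      rw [hφ, Ideal.Quotient.eq_zero_iff_mem, Ideal.mem_span_singleton]
    have hne : ∀ a, IsCoprime m a → φ a ≠ 0 := fun a ha h0 =>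
      hπ.not_isUnit (ha.isUnit_of_dvd' hπm ((hker a).1 h0))
    refine card_le_of_fibers S (fun x => φ (Y x) / φ (Y' x)) G _ (by positivity) ?_ ?_
    · have : S.image (fun x => φ (Y x) / φ (Y' x)) ⊆
          (Polynomial.nthRoots g (φ q / φ p)).toFinset := by
        intro t ht
        obtain ⟨x, hx, rfl⟩ := Finset.mem_image.1 ht
        rw [Multiset.mem_toFinset, Polynomial.mem_nthRoots (by omega), div_pow,
          div_eq_div_iff (pow_ne_zero _ (hne _ (hY' x hx))) (hne _ hp)]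
        have := (hker _).2 (hπm.trans (hdvd x hx))
        rw [map_sub, map_mul, map_mul, map_pow, map_pow] at this
        linear_combination this
      have h1 := (Finset.card_le_card this).trans
        ((Multiset.toFinset_card_le _).trans ((Polynomial.card_nthRoots _ _).trans hg4))
      exact_mod_cast h1
    · intro S₁ hS₁ hc
      refine ih (fun π' h' => hP π' (Finset.mem_insert_of_mem h')) S₁
        (fun x hx => hY' x (hS₁ hx)) (fun x hx => hdvd x (hS₁ hx)) fun S' hS' h' => ?_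
      refine h S' (hS'.trans hS₁) fun π' hπ' x hx y hy => ?_
      rcases Finset.mem_insert.1 hπ' with rfl | hπ'
      · have := hc x (hS' hx) y (hS' hy)
        rw [div_eq_div_iff (hne _ (hY' x (hS₁ (hS' hx)))) (hne _ (hY' y (hS₁ (hS' hy))))] at this
        rw [← hker, map_sub, map_mul, map_mul]
        linear_combination this
      · exact h' π' hπ' x hx y hy

theorem card_image_of_pow_eq {α : Type*} [DecidableEq R] (S : Finset α) (x : α → R) (G i : ℕ)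
    (hi : 1 ≤ i) (hi4 : i ≤ G) (h : ∀ a ∈ S, ∀ b ∈ S, x a ^ i = x b ^ i) :
    ((S.image x).card : ℝ) ≤ G := by
  rcases S.eq_empty_or_nonempty with rfl | ⟨b, hb⟩
  · simp
  have : S.image x ⊆ (Polynomial.nthRoots i (x b ^ i)).toFinset := by
    intro t ht
    obtain ⟨a, ha, rfl⟩ := Finset.mem_image.1 ht
    rw [Multiset.mem_toFinset, Polynomial.mem_nthRoots (by omega)]
    exact h a ha b hb
  have h1 := (Finset.card_le_card this).trans
    ((Multiset.toFinset_card_le _).trans ((Polynomial.card_nthRoots _ _).trans hi4))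
  exact_mod_cast h1

variable [NormalizationMonoid R] {V : Type*} [Fintype V]

/-- `Δ` bounds all divisor type quantities and all constants. -/
structure Ctx (E : Emb R V) (G : ℕ) (κ B Δ : ℝ) : Prop where
  small : Small E B Δ
  one_le_G : 1 ≤ G
  one_le_κ : 1 ≤ κ
  omega : ∀ r, r ≠ 0 → E.N r ≤ B → (G : ℝ) ^ (primeFactors r).card ≤ Δ
  cls : ∃ f : R → ℕ, (∀ S : Finset R, ((S.image f).card : ℝ) ≤ Δ) ∧
    ∀ a b, f a = f b → ∀ g, 1 ≤ g → g ≤ G → (g : R) ^ 2 ∣ a - b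
  big : (6 * G * κ ^ (2 * G + 5)) ^ Fintype.card V ≤ Δ

namespace Ctx

variable {E : Emb R V} {G : ℕ} {κ B Δ : ℝ} (h : Ctx E G κ B Δ)

include h

theorem pow_le {c : ℝ} {k : ℕ} (hc0 : 0 ≤ c) (hc : c ≤ 6 * G) (hk : k ≤ 2 * G + 5) :
    (c * κ ^ k) ^ Fintype.card V ≤ Δ := by
  have hκ := h.one_le_κ
  refine le_trans (pow_le_pow_left₀ (by positivity) ?_ _) h.big
  exact mul_le_mul hc (pow_le_pow_right₀ hκ hk) (by positivity) (by positivity)

theorem one_le_G' : (1 : ℝ) ≤ G := by exact_mod_cast h.one_le_G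

theorem six_le : 6 * (G : ℝ) ≤ Δ := by
  have h1 := h.pow_le (c := 6 * G) (k := 0) (by positivity) le_rfl (Nat.zero_le _)
  rw [pow_zero, mul_one] at h1
  exact (le_self_pow₀ (by linarith [h.one_le_G']) E.pos_card.ne').trans h1

theorem two_le : 2 ≤ Δ := by linarith [h.six_le, h.one_le_G']

end Ctx

theorem ratio_count {α : Type*} {E : Emb R V} {G : ℕ} {κ B Δ : ℝ} (hS : Ctx E G κ B Δ) (g : ℕ)
    (hg1 : 1 ≤ g) (hg4 : g ≤ G) (m p q : R) (hm : m ≠ 0) (hmB : E.N m ≤ B) (S : Finset α) (Y Y' : α → R)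
    (T T' δ : V → ℝ) (Q k : ℝ) (hk : 0 ≤ k) (hQ0 : 0 ≤ Q) (hp : IsCoprime m p)
    (hY : ∀ x ∈ S, IsCoprime m (Y x)) (hY' : ∀ x ∈ S, IsCoprime m (Y' x))
    (hdvd : ∀ x ∈ S, m ∣ p * Y x ^ g - q * Y' x ^ g) (h0 : ∀ x ∈ S, Y x ≠ 0 ∧ Y' x ≠ 0)
    (hT : ∀ x ∈ S, ∀ ν, |E.σ ν (Y x)| ≤ T ν) (hT' : ∀ x ∈ S, ∀ ν, |E.σ ν (Y' x)| ≤ T' ν)
    (hδ : ∀ x ∈ S, ∀ y ∈ S, ∀ ν, |E.σ ν ((Y x * Y' y) ^ g - (Y' x * Y y) ^ g)| ≤
      δ ν * |E.σ ν ((Y' x * Y y) ^ g)|)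
    (hQ : ∏ ν, T ν * T' ν * δ ν ≤ Q * E.N m)
    (hfib : ∀ S' ⊆ S, (∀ x ∈ S', ∀ y ∈ S', Y x * Y' y = Y' x * Y y) → (S'.card : ℝ) ≤ k) :
    (S.card : ℝ) ≤ Δ ^ 4 * (1 + Q) * k := by
  classical
  have hn := E.pos_card
  set n := Fintype.card V with hndef
  have hΔ := hS.small.one_le
  have hG := hS.one_le_G'
  obtain ⟨cls, hcls1, hcls2⟩ := hS.cls
  obtain ⟨L, hL1, hL2, hL3⟩ := exists_grid n hn (G ^ n * Q) (by positivity)
  have hL0 : (0 : ℝ) < L := by exact_mod_cast hL1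
  -- cells
  have hcell : ∀ ν, ∃ f : α → ℕ, (∀ x ∈ S, f x ∈ Finset.range (L + 1)) ∧
      ∀ x ∈ S, ∀ y ∈ S, f x = f y →
        L * |(|E.σ ν (Y x)| / |E.σ ν (Y' x)|) ^ g - (|E.σ ν (Y y)| / |E.σ ν (Y' y)|) ^ g| ≤
          δ ν * (|E.σ ν (Y y)| / |E.σ ν (Y' y)|) ^ g := by
    intro ν
    refine exists_cells S (fun x => (|E.σ ν (Y x)| / |E.σ ν (Y' x)|) ^ g) (δ ν) L hL1 ?_ ?_
    · intro x hx
      exact pow_pos (div_pos (E.abs_pos (h0 x hx).1 ν) (E.abs_pos (h0 x hx).2 ν)) _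
    · intro x hx y hy
      have a1 := E.abs_pos (h0 x hx).2 ν
      have a2 := E.abs_pos (h0 y hy).2 ν
      have h1 := hδ x hx y hy ν
      rw [map_sub] at h1
      have h2 := (abs_abs_sub_abs_le_abs_sub _ _).trans h1
      simp only [map_pow, map_mul, abs_pow, abs_mul] at h2
      have e : (|E.σ ν (Y x)| / |E.σ ν (Y' x)|) ^ g - (|E.σ ν (Y y)| / |E.σ ν (Y' y)|) ^ g
          = ((|E.σ ν (Y x)| * |E.σ ν (Y' y)|) ^ g - (|E.σ ν (Y' x)| * |E.σ ν (Y y)|) ^ g) /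
            (|E.σ ν (Y' x)| * |E.σ ν (Y' y)|) ^ g := by
        simp only [div_pow, mul_pow]; field_simp
      rw [e, abs_div, abs_of_pos (by positivity : 0 < (|E.σ ν (Y' x)| * |E.σ ν (Y' y)|) ^ g),
        div_le_iff₀ (by positivity)]
      refine h2.trans (le_of_eq ?_)
      simp only [div_pow, mul_pow]; field_simp
  choose f hf1 hf2 using hcell
  have key : (S.card : ℝ) ≤ (G : ℝ) ^ (primeFactors m).card * ((Δ * Δ) * (2 ^ n * ((L + 1) ^ n * k))) := by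
    refine root_classes G g hg1 hg4 m p q hp Y Y' _ (by positivity) (primeFactors m)
      (fun π hπ => ⟨Emb.prime_of_mem hπ, dvd_of_mem_normalizedFactors (mem_primeFactors.1 hπ)⟩)
      S hY' hdvd fun S₁ hS₁ c₁ => ?_
    refine card_le_of_fibers S₁ (fun x => (cls (Y x), cls (Y' x))) _ _ (by positivity) ?_
      fun S₂ hS₂ c₂ => ?_
    · refine card_image_pair S₁ (fun x => cls (Y x)) (fun x => cls (Y' x)) ?_ ?_
      · have := hcls1 (S₁.image Y); rwa [Finset.image_image] at this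
      · have := hcls1 (S₁.image Y'); rwa [Finset.image_image] at this
    refine card_le_of_fibers S₂ (fun x ν => decide (0 < E.σ ν (Y x * Y' x))) _ _ (by positivity) ?_
      fun S₃ hS₃ c₃ => ?_
    · have := Finset.card_le_univ (S₂.image fun x ν => decide (0 < E.σ ν (Y x * Y' x)))
      simp only [Fintype.card_pi, Fintype.card_bool, Finset.prod_const, Finset.card_univ] at this
      exact_mod_cast this
    refine card_le_of_fibers S₃ (fun x ν => f ν x) _ _ hk ?_ fun S₄ hS₄ c₄ => ?_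
    · have : S₃.image (fun x ν => f ν x) ⊆ Fintype.piFinset fun _ : V => Finset.range (L + 1) := by
        intro e he
        obtain ⟨x, hx, rfl⟩ := Finset.mem_image.1 he
        exact Fintype.mem_piFinset.2 fun ν => hf1 ν x (hS₁ (hS₂ (hS₃ hx)))
      have h3 := Finset.card_le_card this
      rw [Fintype.card_piFinset, Finset.prod_const, Finset.card_univ, Finset.card_range] at h3
      exact_mod_cast h3
    have hsub : S₄ ⊆ S := hS₄.trans (hS₃.trans (hS₂.trans hS₁))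
    refine hfib S₄ hsub fun x hx y hy => ?_
    by_contra hne
    have hx' := hsub hx
    have hy' := hsub hy
    have hD : Y x * Y' y - Y' x * Y y ≠ 0 := sub_ne_zero.2 hne
    have d1 : m ∣ (Y x * Y' y) ^ g - (Y' x * Y y) ^ g := by
      refine hp.dvd_of_dvd_mul_left ?_
      have := dvd_sub ((hdvd x hx').mul_right (Y' y ^ g)) ((hdvd y hy').mul_right (Y' x ^ g))
      refine this.trans (dvd_of_eq ?_)
      ring
    have d2 : (g : R) ^ 2 ∣ Y x * Y' y - Y' x * Y y := by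
      have := c₂ x (hS₃ (hS₄ hx)) y (hS₃ (hS₄ hy))
      have e1 := hcls2 _ _ (congrArg Prod.fst this) g hg1 hg4
      have e2 := hcls2 _ _ (congrArg Prod.snd this) g hg1 hg4
      have := dvd_sub (e1.mul_right (Y' y)) (e2.mul_right (Y y))
      refine this.trans (dvd_of_eq ?_)
      ring
    have d3 := dvd_mul_sub g hg1 m _ _ hm ((hY' x hx').mul_right (hY y hy')) d1 d2
      (fun π hπ hπm => by
        obtain ⟨π', h1, h2⟩ := exists_mem_normalizedFactors_of_dvd hm hπ.irreducible hπm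
        exact h2.dvd.trans (c₁ π' (mem_primeFactors.2 h1) x (hS₂ (hS₃ (hS₄ hx))) y
          (hS₂ (hS₃ (hS₄ hy)))))
    have hgN : E.N (g : R) = (g : ℝ) ^ n := by simp [Emb.N, hndef]
    have hg0 : (g : R) ≠ 0 := by
      intro h
      have : E.N (g : R) = 0 := by
        rw [h]
        obtain ⟨ν⟩ : Nonempty V := Fintype.card_pos_iff.1 hn
        exact Finset.prod_eq_zero (Finset.mem_univ ν) (by simp)
      rw [hgN] at this
      have : (0 : ℝ) < (g : ℝ) ^ n := by positivity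
      linarith
    have n1 := E.N_le_of_dvd d3 (mul_ne_zero hg0 hD)
    rw [E.N_mul, hgN] at n1
    have n2 : ∀ ν, L * |E.σ ν (Y x * Y' y - Y' x * Y y)| ≤ T ν * T' ν * δ ν := by
      intro ν
      have a1 := E.abs_pos (h0 x hx').2 ν
      have a2 := E.abs_pos (h0 y hy').2 ν
      have a3 := E.abs_pos (h0 x hx').1 ν
      have a4 := E.abs_pos (h0 y hy').1 ν
      have h1 := hf2 ν x hx' y hy' (congrFun (c₄ x hx y hy) ν)
      obtain ⟨g', rfl⟩ : ∃ g', g = g' + 1 := ⟨g - 1, by omega⟩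
      have h2 := abs_sub_mul_pow_le (div_pos a3 a1).le (div_pos a4 a2).le g'
      have h3 : 0 < (|E.σ ν (Y y)| / |E.σ ν (Y' y)|) ^ g' := by positivity
      have h4 : L * |(|E.σ ν (Y x)| / |E.σ ν (Y' x)|) - (|E.σ ν (Y y)| / |E.σ ν (Y' y)|)| ≤
          δ ν * (|E.σ ν (Y y)| / |E.σ ν (Y' y)|) := by
        refine le_of_mul_le_mul_right ?_ h3
        calc _ = L * (|(|E.σ ν (Y x)| / |E.σ ν (Y' x)|) - (|E.σ ν (Y y)| / |E.σ ν (Y' y)|)| *
              (|E.σ ν (Y y)| / |E.σ ν (Y' y)|) ^ g') := by ring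
          _ ≤ _ := mul_le_mul_of_nonneg_left h2 hL0.le
          _ ≤ _ := h1
          _ = _ := by ring
      have hsgn : 0 < E.σ ν (Y x * Y' y) * E.σ ν (Y' x * Y y) := by
        have s1 := congrFun (c₃ x (hS₄ hx) y (hS₄ hy)) ν
        simp only [decide_eq_decide] at s1
        have z1 := E.ne_zero (mul_ne_zero (h0 x hx').1 (h0 x hx').2) ν
        have z2 := E.ne_zero (mul_ne_zero (h0 y hy').1 (h0 y hy').2) ν
        have e : E.σ ν (Y x * Y' y) * E.σ ν (Y' x * Y y) =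
            E.σ ν (Y x * Y' x) * E.σ ν (Y y * Y' y) := by simp only [map_mul]; ring
        rw [e]
        by_cases hp : 0 < E.σ ν (Y x * Y' x)
        · exact mul_pos hp (s1.1 hp)
        · exact mul_pos_of_neg_of_neg (lt_of_le_of_ne (not_lt.1 hp) z1)
            (lt_of_le_of_ne (not_lt.1 fun h => hp (s1.2 h)) z2)
      have h5 : |E.σ ν (Y x * Y' y - Y' x * Y y)| =
          |(|E.σ ν (Y x * Y' y)| - |E.σ ν (Y' x * Y y)|)| := by
        rw [map_sub]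
        rcases pos_and_pos_or_neg_and_neg_of_mul_pos hsgn with ⟨u1, u2⟩ | ⟨u1, u2⟩
        · rw [abs_of_pos u1, abs_of_pos u2]
        · rw [abs_of_neg u1, abs_of_neg u2, ← abs_neg]; congr 1; ring
      have h6 : |E.σ ν (Y x * Y' y)| - |E.σ ν (Y' x * Y y)| =
          ((|E.σ ν (Y x)| / |E.σ ν (Y' x)|) - (|E.σ ν (Y y)| / |E.σ ν (Y' y)|)) *
            (|E.σ ν (Y' x)| * |E.σ ν (Y' y)|) := by
        simp only [map_mul, abs_mul]; field_simp
      have hδ0 : 0 ≤ δ ν := by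
        by_contra hh
        push Not at hh
        have := mul_neg_of_neg_of_pos hh (div_pos a4 a2)
        have : 0 ≤ (L : ℝ) *
          |(|E.σ ν (Y x)| / |E.σ ν (Y' x)|) - (|E.σ ν (Y y)| / |E.σ ν (Y' y)|)| := by positivity
        linarith
      rw [h5, h6, abs_mul, abs_of_pos (mul_pos a1 a2), ← mul_assoc]
      refine (mul_le_mul_of_nonneg_right h4 (mul_pos a1 a2).le).trans ?_
      have e : δ ν * (|E.σ ν (Y y)| / |E.σ ν (Y' y)|) * (|E.σ ν (Y' x)| * |E.σ ν (Y' y)|)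
          = |E.σ ν (Y y)| * |E.σ ν (Y' x)| * δ ν := by field_simp
      rw [e]
      exact mul_le_mul_of_nonneg_right
        (mul_le_mul (hT y hy' ν) (hT' x hx' ν) a1.le (a4.le.trans (hT y hy' ν))) hδ0
    have n3 : (L : ℝ) ^ n * E.N (Y x * Y' y - Y' x * Y y) ≤ Q * E.N m := by
      refine le_trans ?_ hQ
      rw [Emb.N, hndef, ← Finset.card_univ, ← Finset.prod_const, ← Finset.prod_mul_distrib]
      exact Finset.prod_le_prod (fun _ _ => by positivity) fun ν _ => n2 ν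
    have n4 : (g : ℝ) ^ n ≤ G ^ n := pow_le_pow_left₀ (by positivity) (by exact_mod_cast hg4) n
    have n5 := E.N_pos hD
    have n6 := E.N_pos hm
    have n7 : E.N m ≤ G ^ n * E.N (Y x * Y' y - Y' x * Y y) :=
      n1.trans (mul_le_mul_of_nonneg_right n4 n5.le)
    have n8 : Q * E.N m ≤ (G ^ n * Q) * E.N (Y x * Y' y - Y' x * Y y) := by
      calc _ ≤ Q * (G ^ n * E.N (Y x * Y' y - Y' x * Y y)) := mul_le_mul_of_nonneg_left n7 hQ0
        _ = _ := by ring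
    have := mul_lt_mul_of_pos_right hL2 n5
    linarith
  have h4 : (1 : ℝ) ≤ G ^ n := one_le_pow₀ hG
  have h5 : (L + 1 : ℝ) ^ n ≤ 3 ^ n * (G ^ n * (1 + Q)) := by
    refine hL3.trans (mul_le_mul_of_nonneg_left ?_ (by positivity))
    linarith
  have h6 := hS.pow_le (c := 6 * G) (k := 0) (by positivity) le_rfl (Nat.zero_le _)
  rw [pow_zero, mul_one, show (6 * G : ℝ) = 2 * 3 * G by ring, mul_pow, mul_pow] at h6
  calc (S.card : ℝ) ≤ _ := key
    _ ≤ Δ * ((Δ * Δ) * (2 ^ n * ((3 ^ n * (G ^ n * (1 + Q))) * k))) := by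
        gcongr
        exact hS.omega m hm hmB
    _ = Δ ^ 3 * (2 ^ n * 3 ^ n * G ^ n) * ((1 + Q) * k) := by ring
    _ ≤ Δ ^ 3 * Δ * ((1 + Q) * k) := by gcongr
    _ = _ := by ring

theorem thue_count {α : Type*} {E : Emb R V} {G : ℕ} {c B Δ : ℝ} (hS : Ctx E G c B Δ) (i : ℕ)
    (hi2 : 2 ≤ i) (hi4 : i ≤ G) (p q h : R) (hq : q ≠ 0) (hh : h ≠ 0) (hhB : E.N h ≤ B) (S : Finset α)
    (x x' : α → R) (T : V → ℝ) (β k : ℝ) (hk : 0 ≤ k) (hβ : E.c * β ≤ B)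
    (heq : ∀ a ∈ S, p * x a ^ i - q * x' a ^ i = h) (h0 : ∀ a ∈ S, x a ≠ 0 ∧ x' a ≠ 0)
    (hT : ∀ a ∈ S, ∀ ν, T ν ≤ c * |E.σ ν (x a)| ∧ |E.σ ν (x a)| ≤ T ν)
    (hT' : ∀ a ∈ S, ∀ ν, T ν ≤ c * |E.σ ν (x' a)| ∧ |E.σ ν (x' a)| ≤ T ν)
    (hTβ : ∀ ν, T ν ≤ β)
    (hcmp : ∀ a ∈ S, ∀ ν, |E.σ ν (p * x a ^ i)| ≤ c ^ 2 * |E.σ ν (q * x' a ^ i)| ∧
      |E.σ ν (q * x' a ^ i)| ≤ c ^ 2 * |E.σ ν (p * x a ^ i)|)
    (hfib : ∀ S' ⊆ S, (∀ a ∈ S', ∀ b ∈ S', x a = x b ∧ x' a = x' b) → (S'.card : ℝ) ≤ k) :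
    (S.card : ℝ) ≤ Δ ^ 10 * k := by
  classical
  have hn := E.pos_card
  set n := Fintype.card V with hndef
  have hΔ := hS.small.one_le
  have hc := hS.one_le_κ
  have hG := hS.one_le_G'
  have hsm : ∀ (y : α → R), (∀ a ∈ S, y a ≠ 0 ∧ ∀ ν, |E.σ ν (y a)| ≤ T ν) →
      ∃ s y₁ : α → R, ∀ a ∈ S, y a = s a * y₁ a ∧ IsCoprime h (y₁ a) ∧
        (∀ π, Prime π → π ∣ s a → π ∣ h) ∧ ∀ ν, |E.σ ν (s a)| ≤ E.c * β := by
    intro y hy
    have : ∀ a, ∃ s y₁, a ∈ S → (y a = s * y₁ ∧ IsCoprime h y₁ ∧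
        (∀ π, Prime π → π ∣ s → π ∣ h) ∧ ∀ ν, |E.σ ν s| ≤ E.c * β) := by
      intro a
      by_cases ha : a ∈ S
      · obtain ⟨s, y₁, hs⟩ := exists_smooth_bal E h (y a) (hy a ha).1 β
          fun ν => ((hy a ha).2 ν).trans (hTβ ν)
        exact ⟨s, y₁, fun _ => hs⟩
      · exact ⟨0, 0, fun h => (ha h).elim⟩
    choose s y₁ hs using this
    exact ⟨s, y₁, hs⟩
  obtain ⟨s, x₁, hs⟩ := hsm x fun a ha => ⟨(h0 a ha).1, fun ν => (hT a ha ν).2⟩
  obtain ⟨s', x₁', hs'⟩ := hsm x' fun a ha => ⟨(h0 a ha).2, fun ν => (hT' a ha ν).2⟩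
  have hs0 : ∀ a ∈ S, s a ≠ 0 ∧ x₁ a ≠ 0 := fun a ha =>
    mul_ne_zero_iff.1 ((hs a ha).1 ▸ (h0 a ha).1)
  have hs0' : ∀ a ∈ S, s' a ≠ 0 ∧ x₁' a ≠ 0 := fun a ha =>
    mul_ne_zero_iff.1 ((hs' a ha).1 ▸ (h0 a ha).2)
  have key : (S.card : ℝ) ≤ Δ * (Δ * (Δ ^ 4 * (1 + (2 * c ^ (2 * (G + 2))) ^ n) * (G * (G * k)))) := by
    refine card_le_of_fibers S s _ _ (by positivity) ?_ fun S₁ hS₁ c₁ => ?_
    · refine hS.small.smooth h hh hhB _ fun d hd => ?_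
      obtain ⟨a, ha, rfl⟩ := Finset.mem_image.1 hd
      exact ⟨(hs0 a ha).1, fun ν => ((hs a ha).2.2.2 ν).trans hβ, (hs a ha).2.2.1⟩
    refine card_le_of_fibers S₁ s' _ _ (by positivity) ?_ fun S₂ hS₂ c₂ => ?_
    · refine hS.small.smooth h hh hhB _ fun d hd => ?_
      obtain ⟨a, ha, rfl⟩ := Finset.mem_image.1 hd
      have ha := hS₁ ha
      exact ⟨(hs0' a ha).1, fun ν => ((hs' a ha).2.2.2 ν).trans hβ, (hs' a ha).2.2.1⟩
    refine card_le_of_nonempty _ _ (by positivity) fun a₀ ha₀ => ?_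
    have hsub : S₂ ⊆ S := hS₂.trans hS₁
    have ha₀' := hsub ha₀
    set t := s a₀ with ht
    set t' := s' a₀ with ht'
    have ht0 : t ≠ 0 := (hs0 a₀ ha₀').1
    have ht0' : t' ≠ 0 := (hs0' a₀ ha₀').1
    have hx : ∀ a ∈ S₂, x a = t * x₁ a := fun a ha => by
      rw [(hs a (hsub ha)).1, c₁ a (hS₂ ha) a₀ (hS₂ ha₀)]
    have hx' : ∀ a ∈ S₂, x' a = t' * x₁' a := fun a ha => by
      rw [(hs' a (hsub ha)).1, c₂ a ha a₀ ha₀]
    have hp : p ≠ 0 := by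
      intro hp
      obtain ⟨ν⟩ : Nonempty V := Fintype.card_pos_iff.1 hn
      have h1 := (hcmp a₀ ha₀' ν).2
      rw [hp] at h1
      simp only [zero_mul, map_zero, abs_zero, mul_zero] at h1
      have := E.abs_pos (mul_ne_zero hq (pow_ne_zero i (h0 a₀ ha₀').2)) ν
      linarith
    obtain ⟨d, p₂, q₂, e1, e2, hco⟩ := exists_coprime_quot (p * t ^ i) (q * t' ^ i)
      (mul_ne_zero hp (pow_ne_zero _ ht0))
    have hd : d ≠ 0 := fun h0 => mul_ne_zero hp (pow_ne_zero i ht0) (by rw [e1, h0, zero_mul])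
    have hdiv : ∀ a ∈ S₂, h = d * (p₂ * x₁ a ^ i - q₂ * x₁' a ^ i) := fun a ha => by
      rw [← heq a (hsub ha), hx a ha, hx' a ha, mul_pow, mul_pow]
      linear_combination x₁ a ^ i * e1 - x₁' a ^ i * e2
    set h₂ := p₂ * x₁ a₀ ^ i - q₂ * x₁' a₀ ^ i with hh₂
    have hh₂' : h = d * h₂ := hdiv a₀ ha₀
    have hh₂0 : h₂ ≠ 0 := fun h0 => hh (by rw [hh₂', h0, mul_zero])
    have hdvd : h₂ ∣ h := ⟨d, by rw [hh₂', mul_comm]⟩
    have hTpos : ∀ ν, 0 < T ν := fun ν =>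
      (E.abs_pos (h0 a₀ ha₀').1 ν).trans_le (hT a₀ ha₀' ν).2
    refine ratio_count hS i (by omega) hi4 h₂ p₂ q₂ hh₂0 ((E.N_le_of_dvd hdvd hh).trans hhB) S₂ x₁ x₁'
      (fun ν => T ν / |E.σ ν t|) (fun ν => T ν / |E.σ ν t'|)
      (fun ν => 2 * (|E.σ ν h| * c ^ i / (|E.σ ν q| * T ν ^ i)) * c ^ 2) _ _ (by positivity)
      (by positivity) ?_ (fun a ha => (hs a (hsub ha)).2.1.of_isCoprime_of_dvd_left hdvd)
      (fun a ha => (hs' a (hsub ha)).2.1.of_isCoprime_of_dvd_left hdvd) ?_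
      (fun a ha => ⟨(hs0 a (hsub ha)).2, (hs0' a (hsub ha)).2⟩) ?_ ?_ ?_ ?_ ?_
    · refine isCoprime_of_prime_dvd (fun h => hh₂0 h.1) fun π hπ h1 h2 => ?_
      have h3 : π ∣ q₂ * x₁' a₀ ^ i := by
        have := dvd_sub (h2.mul_right (x₁ a₀ ^ i)) h1
        rw [hh₂] at this
        simpa using this
      rcases hπ.dvd_or_dvd h3 with h4 | h4
      · exact hπ.not_isUnit (hco.isUnit_of_dvd' h2 h4)
      · exact hπ.not_isUnit ((hs' a₀ ha₀').2.1.isUnit_of_dvd' (h1.trans hdvd)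
          (hπ.dvd_of_dvd_pow h4))
    · intro a ha
      refine dvd_of_eq (mul_left_cancel₀ hd ?_)
      rw [← hh₂', ← hdiv a ha]
    · intro a ha ν
      have h1 := (hT a (hsub ha) ν).2
      rw [hx a ha, map_mul, abs_mul] at h1
      rw [le_div_iff₀ (E.abs_pos ht0 ν)]; linarith
    · intro a ha ν
      have h1 := (hT' a (hsub ha) ν).2
      rw [hx' a ha, map_mul, abs_mul] at h1
      rw [le_div_iff₀ (E.abs_pos ht0' ν)]; linarith
    · intro a ha b hb ν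
      have hq' := E.abs_pos hq ν
      have hT0 := hTpos ν
      have hδ : ∀ a ∈ S₂, |E.σ ν (p * x a ^ i) - E.σ ν (q * x' a ^ i)| ≤
          (|E.σ ν h| * c ^ i / (|E.σ ν q| * T ν ^ i)) * |E.σ ν (q * x' a ^ i)| := by
        intro a ha
        rw [← map_sub, heq a (hsub ha), div_mul_eq_mul_div, le_div_iff₀ (by positivity), mul_assoc]
        refine mul_le_mul_of_nonneg_left ?_ (abs_nonneg _)
        rw [map_mul, map_pow, abs_mul, abs_pow]
        have := pow_le_pow_left₀ hT0.le (hT' a (hsub ha) ν).1 i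
        rw [mul_pow] at this
        nlinarith
      have h1 := cross_le (hδ a ha) (hδ b hb) (hcmp b (hsub hb) ν).2 (by positivity)
      have e3 : E.σ ν (p * x a ^ i) * E.σ ν (q * x' b ^ i) -
          E.σ ν (q * x' a ^ i) * E.σ ν (p * x b ^ i) = E.σ ν (p * t ^ i * (q * t' ^ i)) *
            E.σ ν ((x₁ a * x₁' b) ^ i - (x₁' a * x₁ b) ^ i) := by
        simp only [← map_mul, ← map_sub]
        congr 1
        rw [hx a ha, hx b hb, hx' a ha, hx' b hb]; ring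
      have e4 : E.σ ν (q * x' a ^ i) * E.σ ν (p * x b ^ i) = E.σ ν (p * t ^ i * (q * t' ^ i)) *
            E.σ ν ((x₁' a * x₁ b) ^ i) := by
        simp only [← map_mul]
        congr 1
        rw [hx b hb, hx' a ha]; ring
      rw [e3, e4, abs_mul, abs_mul] at h1
      have hpos := E.abs_pos (mul_ne_zero (mul_ne_zero hp (pow_ne_zero i ht0))
        (mul_ne_zero hq (pow_ne_zero i ht0'))) ν
      refine le_of_mul_le_mul_left ?_ hpos
      linarith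
    · set w := ∏ ν, T ν with hw
      have hw0 : 0 < w := Finset.prod_pos fun ν _ => hTpos ν
      have nt := E.N_pos ht0
      have nt' := E.N_pos ht0'
      have nq := E.N_pos hq
      have nh := E.N_pos hh₂0
      have e3 : ∏ ν, T ν / |E.σ ν t| * (T ν / |E.σ ν t'|) *
          (2 * (|E.σ ν h| * c ^ i / (|E.σ ν q| * T ν ^ i)) * c ^ 2) =
          w / E.N t * (w / E.N t') * (2 ^ n * (E.N h * (c ^ i) ^ n / (E.N q * w ^ i)) *
            (c ^ 2) ^ n) := by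
        simp only [Finset.prod_mul_distrib, Finset.prod_div_distrib, Finset.prod_const,
          Finset.card_univ, Finset.prod_pow, Emb.N, hw, hndef]
      have w1 : E.N t ≤ w := (E.N_le_of_dvd ⟨_, hx a₀ ha₀⟩ (h0 a₀ ha₀').1).trans
        (E.N_le_of_box fun ν => (hT a₀ ha₀' ν).2)
      have w2 : E.N t' ≤ w := (E.N_le_of_dvd ⟨_, hx' a₀ ha₀⟩ (h0 a₀ ha₀').2).trans
        (E.N_le_of_box fun ν => (hT' a₀ ha₀' ν).2)
      have d1 : E.N d ≤ E.N p * E.N t ^ i := by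
        rw [← E.N_pow, ← E.N_mul]
        exact E.N_le_of_dvd ⟨_, e1⟩ (mul_ne_zero hp (pow_ne_zero _ ht0))
      have d2 : E.N d ≤ E.N q * E.N t' ^ i := by
        rw [← E.N_pow, ← E.N_mul]
        exact E.N_le_of_dvd ⟨_, e2⟩ (mul_ne_zero hq (pow_ne_zero _ ht0'))
      have c6 : c ^ 2 * c ^ i ≤ c ^ (G + 2) := by
        rw [← pow_add]; exact pow_le_pow_right₀ hc (by omega)
      have d3 : E.N p ≤ (c ^ (G + 2)) ^ n * E.N q := by
        rw [Emb.N, Emb.N, hndef, ← Finset.card_univ, ← Finset.prod_const, ← Finset.prod_mul_distrib]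
        refine Finset.prod_le_prod (fun _ _ => abs_nonneg _) fun ν _ => ?_
        have h1 := (hcmp a₀ ha₀' ν).1
        simp only [map_mul, map_pow, abs_mul, abs_pow] at h1
        have h2 := pow_le_pow_left₀ (abs_nonneg _)
          ((hT' a₀ ha₀' ν).2.trans (hT a₀ ha₀' ν).1) i
        rw [mul_pow] at h2
        have h3 : 0 < |E.σ ν (x a₀)| ^ i := pow_pos (E.abs_pos (h0 a₀ ha₀').1 ν) i
        refine le_of_mul_le_mul_right ?_ h3
        calc _ ≤ _ := h1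
          _ ≤ c ^ 2 * (|E.σ ν q| * (c ^ i * |E.σ ν (x a₀)| ^ i)) := by gcongr
          _ = (c ^ 2 * c ^ i) * |E.σ ν q| * |E.σ ν (x a₀)| ^ i := by ring
          _ ≤ _ := by gcongr
      obtain ⟨j, rfl⟩ : ∃ j, i = j + 2 := ⟨i - 2, by omega⟩
      have hc6 : (1 : ℝ) ≤ (c ^ (G + 2)) ^ n := one_le_pow₀ (one_le_pow₀ hc)
      have d4 : E.N d ≤ (c ^ (G + 2)) ^ n * E.N q * (E.N t * E.N t' * w ^ j) := by
        rcases le_total (E.N t) (E.N t') with hle | hle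
        · calc E.N d ≤ _ := d1
            _ = E.N p * (E.N t * E.N t * E.N t ^ j) := by ring
            _ ≤ _ := by gcongr
        · calc E.N d ≤ _ := d2
            _ = 1 * E.N q * (E.N t' * E.N t' * E.N t' ^ j) := by ring
            _ ≤ _ := by gcongr
      rw [e3, hh₂', E.N_mul]
      have nd := E.N_pos hd
      have c7 : (c ^ (j + 2)) ^ n * (c ^ 2) ^ n ≤ (c ^ (G + 2)) ^ n := by
        rw [← mul_pow]
        exact pow_le_pow_left₀ (by positivity) (by rw [mul_comm]; exact c6) n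
      calc _ = 2 ^ n * ((c ^ (j + 2)) ^ n * (c ^ 2) ^ n) * E.N d * E.N h₂ /
            (E.N q * (E.N t * E.N t' * w ^ j)) := by field_simp; ring
        _ ≤ 2 ^ n * (c ^ (G + 2)) ^ n * ((c ^ (G + 2)) ^ n * E.N q * (E.N t * E.N t' * w ^ j)) * E.N h₂ /
            (E.N q * (E.N t * E.N t' * w ^ j)) := by gcongr
        _ = (2 * c ^ (2 * (G + 2))) ^ n * E.N h₂ := by
            rw [mul_pow, show c ^ (2 * (G + 2)) = c ^ (G + 2) * c ^ (G + 2) by ring, mul_pow]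
            field_simp
    · intro S₃ hS₃ c₃
      have hr : ∀ a ∈ S₃, ∀ b ∈ S₃, x a * x' b = x' a * x b := fun a ha b hb => by
        rw [hx a (hS₃ ha), hx b (hS₃ hb), hx' a (hS₃ ha), hx' b (hS₃ hb)]
        linear_combination t * t' * c₃ a ha b hb
      have hsub3 : S₃ ⊆ S := hS₃.trans hsub
      refine card_le_of_fibers S₃ x _ _ (by positivity) ?_ fun S₄ hS₄ c₄ => ?_
      · refine card_image_of_pow_eq S₃ x G i (by omega) hi4 fun a ha b hb => ?_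
        refine mul_left_cancel₀ hh ?_
        have h1 : (x a * x' b) ^ i = (x' a * x b) ^ i := by rw [hr a ha b hb]
        rw [mul_pow, mul_pow] at h1
        linear_combination (x b ^ i) * heq a (hsub3 ha) - (x a ^ i) * heq b (hsub3 hb) - q * h1
      refine card_le_of_fibers S₄ x' _ _ hk ?_ fun S₅ hS₅ c₅ => ?_
      · refine card_image_of_pow_eq S₄ x' G i (by omega) hi4 fun a ha b hb => ?_
        refine mul_left_cancel₀ hq ?_
        have h1 := c₄ a ha b hb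
        have h2 := heq a (hsub3 (hS₄ ha))
        rw [h1] at h2
        linear_combination heq b (hsub3 (hS₄ hb)) - h2
      exact hfib S₅ (hS₅.trans (hS₄.trans hsub3)) fun a ha b hb =>
        ⟨c₄ a (hS₅ ha) b (hS₅ hb), c₅ a ha b hb⟩
  have k1 := hS.pow_le (c := 2) (k := 2 * (G + 2)) (by norm_num) (by linarith) (by omega)
  have k2 := hS.two_le
  have k3 : (G : ℝ) ≤ Δ := by linarith [hS.six_le]
  have k4 : 1 + (2 * c ^ (2 * (G + 2))) ^ n ≤ Δ * Δ := by nlinarith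
  refine key.trans ?_
  calc _ ≤ Δ * (Δ * (Δ ^ 4 * (Δ * Δ) * (Δ * (Δ * k)))) := by gcongr
    _ = _ := by ring

end Pool.Agent.MP_2a5a28_nt.H39

/-! The lattice bound and the Cauchy-Schwarz bound for arbitrary exponents. -/

namespace Pool.Agent.MP_2a5a28_nt.H39

open Finset UniqueFactorizationMonoid

set_option linter.unusedSectionVars false

variable {R : Type*} [CommRing R] [IsDomain R] [IsPrincipalIdealRing R] [NormalizationMonoid R]
  {V : Type*} [Fintype V] {α : Type*}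

section

open Tri

variable {E : Emb R V} {S : Finset α} {a b c : α → R} {TA TB TC M : V → ℝ} {κ β : ℝ}
  (h : Tri E S a b c TA TB TC M κ β)

include h

theorem toolP [DecidableEq R] {G : ℕ} {B Δ : ℝ} (hS : Ctx E G κ B Δ)
    (hB : β ^ Fintype.card V ≤ B) (i : ℕ) (hi1 : 1 ≤ i) (hi4 : i ≤ G) (ma x mb y mc w : α → R) (Tx Ty Tm Tw : V → ℝ)
    (ha : ∀ P ∈ S, a P = ma P * x P ^ i) (hb : ∀ P ∈ S, b P = mb P * y P ^ i)
    (hc : ∀ P ∈ S, c P = mc P * w P) (hx : Rng E S x Tx κ) (hy : Rng E S y Ty κ)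
    (hm : Rng E S mc Tm κ) (hTC : ∀ ν, TC ν = Tm ν * Tw ν) {sa sb sc Q : ℝ}
    (ia : ((S.image ma).card : ℝ) ≤ sa) (ib : ((S.image mb).card : ℝ) ≤ sb)
    (ic : ((S.image mc).card : ℝ) ≤ sc) (hQ0 : 0 ≤ Q)
    (hQ : ∏ ν, Tx ν * Ty ν * Tw ν ≤ Q * ∏ ν, M ν) :
    (S.card : ℝ) ≤ sa * (sb * sc) * (Δ ^ 4 * (1 + Δ * Q)) := by
  have hκ := h.one_le
  have hΔ := hS.small.one_le
  refine card_le_of_fibers S (fun P => (ma P, mb P, mc P)) _ _ (by positivity)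
    (card_image_pair S _ _ ia (card_image_pair S _ _ ib ic)) fun S₁ hS₁ c₁ => ?_
  refine card_le_of_nonempty _ _ (by positivity) fun P₀ hP₀ => ?_
  have hP₀' := hS₁ hP₀
  simp only [Prod.mk.injEq] at c₁
  have ea : ∀ P ∈ S₁, a P = ma P₀ * x P ^ i := fun P hP => by
    rw [ha P (hS₁ hP), (c₁ P hP P₀ hP₀).1]
  have eb : ∀ P ∈ S₁, b P = mb P₀ * y P ^ i := fun P hP => by
    rw [hb P (hS₁ hP), (c₁ P hP P₀ hP₀).2.1]
  have ec : ∀ P ∈ S₁, c P = mc P₀ * w P := fun P hP => by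
    rw [hc P (hS₁ hP), (c₁ P hP P₀ hP₀).2.2]
  have hmc : ∀ P ∈ S₁, mc P₀ ∣ c P := fun P hP => ⟨_, ec P hP⟩
  have hm0 : mc P₀ ≠ 0 := ne_zero_of_dvd_ne_zero (h.ne P₀ hP₀').2.2 (hmc P₀ hP₀)
  have hxa : ∀ P ∈ S₁, x P ∣ a P := fun P hP => by
    rw [ea P hP]; exact (dvd_pow_self _ (by omega)).mul_left _
  have hyb : ∀ P ∈ S₁, y P ∣ b P := fun P hP => by
    rw [eb P hP]; exact (dvd_pow_self _ (by omega)).mul_left _
  have := ratio_count hS i hi1 hi4 (mc P₀) (ma P₀) (-mb P₀) hm0 ?_ S₁ x y Tx Ty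
    (fun ν => 2 * κ ^ 2 * TC ν / M ν) (Δ * Q) 1 zero_le_one
    (by positivity) ?_ ?_ ?_ ?_ ?_ (fun P hP ν => (hx P (hS₁ hP) ν).2)
    (fun P hP ν => (hy P (hS₁ hP) ν).2) ?_ ?_ ?_
  · simpa using this
  · refine (E.N_le_of_dvd (hmc P₀ hP₀) (h.ne P₀ hP₀').2.2).trans (le_trans ?_ hB)
    exact E.N_le_pow fun ν => (h.rc P₀ hP₀' ν).2.trans (h.box ν).2.2
  · exact ((h.cop P₀ hP₀').2.1.symm.of_isCoprime_of_dvd_left (hmc P₀ hP₀)).of_isCoprime_of_dvd_right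
      ⟨_, ea P₀ hP₀⟩
  · exact fun P hP => ((h.cop P (hS₁ hP)).2.1.symm.of_isCoprime_of_dvd_left
      (hmc P hP)).of_isCoprime_of_dvd_right (hxa P hP)
  · exact fun P hP => ((h.cop P (hS₁ hP)).2.2.symm.of_isCoprime_of_dvd_left
      (hmc P hP)).of_isCoprime_of_dvd_right (hyb P hP)
  · intro P hP
    refine ⟨-w P, ?_⟩
    have := h.sum P (hS₁ hP)
    rw [ea P hP, eb P hP, ec P hP] at this
    linear_combination this
  · exact fun P hP => ⟨ne_zero_of_dvd_ne_zero (h.ne P (hS₁ hP)).1 (hxa P hP),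
      ne_zero_of_dvd_ne_zero (h.ne P (hS₁ hP)).2.1 (hyb P hP)⟩
  · intro P hP P' hP' ν
    obtain ⟨p1, p2, p3, p4⟩ := h.pos hP₀' ν
    have h1 := h.cross_le (hS₁ hP) (hS₁ hP') ν
    have h2 := (prod_le hκ h.ra h.rb (hS₁ hP') (hS₁ hP) ν).1
    have e1 : a P * b P' - a P' * b P =
        (ma P₀ * mb P₀) * ((x P * y P') ^ i - (y P * x P') ^ i) := by
      rw [ea P hP, ea P' hP', eb P hP, eb P' hP']; ring
    have e2 : a P' * b P = (ma P₀ * mb P₀) * (y P * x P') ^ i := by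
      rw [ea P' hP', eb P hP]; ring
    have hne : ma P₀ * mb P₀ ≠ 0 := mul_ne_zero
      (ne_zero_of_dvd_ne_zero (h.ne P₀ hP₀').1 ⟨_, ea P₀ hP₀⟩)
      (ne_zero_of_dvd_ne_zero (h.ne P₀ hP₀').2.1 ⟨_, eb P₀ hP₀⟩)
    rw [e1, map_mul, abs_mul] at h1
    rw [e2, map_mul, abs_mul] at h2
    refine le_of_mul_le_mul_left ?_ (E.abs_pos hne ν)
    calc _ ≤ _ := h1
      _ = 2 * TC ν / M ν * (TA ν * TB ν) := by ring
      _ ≤ 2 * TC ν / M ν * _ := mul_le_mul_of_nonneg_left h2 (by positivity)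
      _ = _ := by ring
  · have hM : 0 < ∏ ν, M ν := Finset.prod_pos fun ν _ => (h.pos hP₀' ν).2.2.2
    have e1 : ∏ ν, Tx ν * Ty ν * (2 * κ ^ 2 * TC ν / M ν) =
        (2 * κ ^ 2) ^ Fintype.card V * ((∏ ν, Tx ν * Ty ν * Tw ν) / ∏ ν, M ν) * ∏ ν, Tm ν := by
      rw [← Finset.card_univ, ← Finset.prod_const, ← Finset.prod_div_distrib,
        ← Finset.prod_mul_distrib, ← Finset.prod_mul_distrib]
      refine Finset.prod_congr rfl fun ν _ => ?_
      rw [hTC]; ring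
    have e2 : ∏ ν, Tm ν ≤ κ ^ Fintype.card V * E.N (mc P₀) := by
      rw [Emb.N, ← Finset.card_univ, ← Finset.prod_const, ← Finset.prod_mul_distrib]
      exact Finset.prod_le_prod (fun ν _ => (abs_nonneg _).trans (hm P₀ hP₀' ν).2)
        fun ν _ => (hm P₀ hP₀' ν).1
    have e3 : 0 ≤ ∏ ν, Tm ν :=
      Finset.prod_nonneg fun ν _ => (abs_nonneg _).trans (hm P₀ hP₀' ν).2
    rw [e1]
    calc _ ≤ (2 * κ ^ 2) ^ Fintype.card V * Q * (κ ^ Fintype.card V * E.N (mc P₀)) := by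
          gcongr
          exact (div_le_iff₀ hM).2 hQ
      _ = (2 * κ ^ 3) ^ Fintype.card V * Q * E.N (mc P₀) := by
          rw [show 2 * κ ^ 3 = (2 * κ ^ 2) * κ by ring, mul_pow (2 * κ ^ 2)]; ring
      _ ≤ _ := by
          have := hS.pow_le (c := 2) (k := 3) (by norm_num) (by linarith [hS.one_le_G']) (by omega)
          have := E.N_nonneg (mc P₀)
          gcongr
  · intro S₂ hS₂ c₂
    refine card_le_one' _ fun P hP P' hP' => h.inj P (hS₁ (hS₂ hP)) P' (hS₁ (hS₂ hP')) ?_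
    rw [ea P (hS₂ hP), ea P' (hS₂ hP'), eb P (hS₂ hP), eb P' (hS₂ hP')]
    have h1 : (x P * y P') ^ i = (y P * x P') ^ i := by rw [c₂ P hP P' hP']
    rw [mul_pow, mul_pow] at h1
    linear_combination ma P₀ * mb P₀ * h1

end

section

open Off

variable {E : Emb R V} {S : Finset α} {a b c : α → R} {TA TB TC M : V → ℝ} {κ β : ℝ}
  (h : Tri E S a b c TA TB TC M κ β) {ao x bo y co z : α → R} {mO kO a₁ a₂ b₁ b₂ k₁ k₂ : R}
  {i g : ℕ} {W : Finset (α × α)} (o : Off S a b c ao x bo y co z mO kO a₁ a₂ b₁ b₂ k₁ k₂ i g W)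

include o h

theorem ending_thue {G : ℕ} {B Δ : ℝ} (hS : Ctx E G κ B Δ) (hB2 : E.c * β ≤ B)
    (hB4 : (2 * β ^ 2) ^ Fintype.card V ≤ B) (hi2 : 2 ≤ i) (hi4 : i ≤ G) {Tx : V → ℝ}
    (hx : Rng E S x Tx κ) (hβ : ∀ ν, Tx ν ≤ β) {u η η' : R} {θ : α × α → R}
    (hend : ∀ P ∈ S, co P = 1 ∧ z P = 1) (hu : ∀ π ∈ W, mO * ao π.1 = u)
    (fb₁ : ∀ π ∈ W, b π.1 = θ π * η) (fb₂ : ∀ π ∈ W, b π.2 = θ π * η') :
    (W.card : ℝ) ≤ Δ ^ 10 := by
  have hκ := h.one_le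
  have hΔ := hS.small.one_le
  refine card_le_of_nonempty _ _ (by positivity) fun π₂ hπ₂ => ?_
  have fa₁ : ∀ π ∈ W, a π.1 = u * (a₁ * x π.1 ^ i) := fun π hπ => by rw [o.ea₁ π hπ, hu π hπ]
  have fa₂ : ∀ π ∈ W, a π.2 = u * (a₂ * x π.2 ^ i) := fun π hπ => by rw [o.ea₂ π hπ, hu π hπ]
  have n1 : ∀ π ∈ W, θ π * η ≠ 0 := fun π hπ => by
    rw [← fb₁ π hπ]; exact (h.ne _ (o.m1 π hπ)).2.1
  have n2 : ∀ π ∈ W, u * (a₁ * x π.1 ^ i) ≠ 0 := fun π hπ => by
    rw [← fa₁ π hπ]; exact (h.ne _ (o.m1 π hπ)).1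
  have n3 : ∀ π ∈ W, u * (a₂ * x π.2 ^ i) ≠ 0 := fun π hπ => by
    rw [← fa₂ π hπ]; exact (h.ne _ (o.m2 π hπ)).1
  have nθ : ∀ π ∈ W, θ π ≠ 0 := fun π hπ => left_ne_zero_of_mul (n1 π hπ)
  have nη : η ≠ 0 := right_ne_zero_of_mul (n1 π₂ hπ₂)
  have nu : u ≠ 0 := left_ne_zero_of_mul (n2 π₂ hπ₂)
  have fc₁ : ∀ π ∈ W, c π.1 = kO * k₁ := fun π hπ => by
    rw [o.ec₁ π hπ, (hend _ (o.m1 π hπ)).1, (hend _ (o.m1 π hπ)).2]; ring
  have fc₂ : ∀ π ∈ W, c π.2 = kO * k₂ := fun π hπ => by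
    rw [o.ec₂ π hπ, (hend _ (o.m1 π hπ)).1, (hend _ (o.m2 π hπ)).2]; ring
  have fD : ∀ π ∈ W, a π.1 * b π.2 - a π.2 * b π.1 =
      (u * θ π) * ((a₁ * η') * x π.1 ^ i - (a₂ * η) * x π.2 ^ i) := fun π hπ => by
    rw [fa₁ π hπ, fa₂ π hπ, fb₁ π hπ, fb₂ π hπ]; ring
  have fT : ∀ π ∈ W, u * ((a₁ * η') * x π.1 ^ i - (a₂ * η) * x π.2 ^ i) =
      kO * (η * k₂ - η' * k₁) := fun π hπ => by
    refine mul_left_cancel₀ (nθ π hπ) ?_
    have := h.cross_bc (o.m1 π hπ) (o.m2 π hπ)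
    rw [fD π hπ, fb₁ π hπ, fb₂ π hπ, fc₁ π hπ, fc₂ π hπ] at this
    linear_combination -this
  have hdv : (a₁ * η') * x π₂.1 ^ i - (a₂ * η) * x π₂.2 ^ i ∣
      a π₂.1 * b π₂.2 - a π₂.2 * b π₂.1 := Dvd.intro_left _ (fD π₂ hπ₂).symm
  have na₂ : a₂ ≠ 0 := left_ne_zero_of_mul (right_ne_zero_of_mul (n3 π₂ hπ₂))
  have := thue_count hS i hi2 hi4 (a₁ * η') (a₂ * η) _ (mul_ne_zero na₂ nη)
    (ne_zero_of_dvd_ne_zero (o.hD h hπ₂) hdv)
    ((E.N_le_of_dvd hdv (o.hD h hπ₂)).trans ((h.cross_N (o.m1 _ hπ₂) (o.m2 _ hπ₂)).trans hB4)) W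
    (fun π => x π.1) (fun π => x π.2) Tx β 1 zero_le_one hB2
    (fun π hπ => mul_left_cancel₀ nu ((fT π hπ).trans (fT π₂ hπ₂).symm)) ?_
    (fun π hπ => hx _ (o.m1 π hπ)) (fun π hπ => hx _ (o.m2 π hπ)) hβ ?_ ?_
  · simpa using this
  · intro π hπ
    exact ⟨fun h0 => n2 π hπ (by simp only [h0, zero_pow (by omega : i ≠ 0), mul_zero]),
      fun h0 => n3 π hπ (by simp only [h0, zero_pow (by omega : i ≠ 0), mul_zero])⟩
  · intro π hπ ν
    have h1 := Tri.prod_le hκ h.ra h.rb (o.m1 π hπ) (o.m2 π hπ) ν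
    have h2 := Tri.prod_le hκ h.ra h.rb (o.m2 π hπ) (o.m1 π hπ) ν
    have e1 : a π.1 * b π.2 = (u * θ π) * ((a₁ * η') * x π.1 ^ i) := by
      rw [fa₁ π hπ, fb₂ π hπ]; ring
    have e2 : a π.2 * b π.1 = (u * θ π) * ((a₂ * η) * x π.2 ^ i) := by
      rw [fa₂ π hπ, fb₁ π hπ]; ring
    rw [e1, map_mul, abs_mul] at h1
    rw [e2, map_mul, abs_mul] at h2
    have hpos := E.abs_pos (mul_ne_zero nu (nθ π hπ)) ν
    constructor
    · refine le_of_mul_le_mul_left ?_ hpos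
      exact (h1.2.trans h2.1).trans (le_of_eq (by ring))
    · refine le_of_mul_le_mul_left ?_ hpos
      exact (h2.2.trans h1.1).trans (le_of_eq (by ring))
  · intro W₄ hW₄ c₄
    refine card_le_one' _ fun π hπ π' hπ' => ?_
    have hπ3 := hW₄ hπ
    have hπ3' := hW₄ hπ'
    have e1 : a π.1 = a π'.1 := by rw [fa₁ π hπ3, fa₁ π' hπ3', (c₄ π hπ π' hπ').1]
    have e2 : a π.2 = a π'.2 := by rw [fa₂ π hπ3, fa₂ π' hπ3', (c₄ π hπ π' hπ').2]
    have e3 : b π.1 = b π'.1 := by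
      linear_combination h.sum _ (o.m1 π hπ3) - h.sum _ (o.m1 π' hπ3') - e1 - fc₁ π hπ3 +
        fc₁ π' hπ3'
    have e4 : b π.2 = b π'.2 := by
      linear_combination h.sum _ (o.m2 π hπ3) - h.sum _ (o.m2 π' hπ3') - e2 - fc₂ π hπ3 +
        fc₂ π' hπ3'
    exact Prod.ext (h.inj _ (o.m1 π hπ3) _ (o.m1 π' hπ3') (by rw [e1, e3]))
      (h.inj _ (o.m2 π hπ3) _ (o.m2 π' hπ3') (by rw [e2, e4]))

theorem fiber {G : ℕ} {B Δ : ℝ} (hS : Ctx E G κ B Δ) (hB : (2 * E.c * β ^ 2) ^ Fintype.card V ≤ B)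
    (hi4 : i ≤ G) {Tx Ty Tz : V → ℝ} (hx : Rng E S x Tx κ) (hy : Rng E S y Ty κ)
    (hz : Rng E S z Tz κ) (hβ : ∀ ν, Tx ν ≤ β ∧ Ty ν ≤ β ∧ Tz ν ≤ β)
    (hao : ∀ P ∈ S, ∀ ν, |E.σ ν (ao P)| ≤ β)
    (hend : (∀ P ∈ S, x P = 1) ∨ (2 ≤ i ∧ ∀ P ∈ S, co P = 1 ∧ z P = 1))
    (c₂ : ∀ π ∈ W, ∀ π' ∈ W,
      y π.1 * z π.2 * (y π'.2 * z π'.1) = y π.2 * z π.1 * (y π'.1 * z π'.2)) :
    (W.card : ℝ) ≤ Δ * (Δ * Δ) * (Δ ^ 10) := by
  classical
  have hκ := h.one_le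
  have hΔ := hS.small.one_le
  refine card_le_of_nonempty _ _ (by positivity) fun π₁ hπ₁ => ?_
  have hβ1 : 1 ≤ β := E.one_le_box (h.ne _ (o.m1 π₁ hπ₁)).1
    fun ν => (h.ra _ (o.m1 π₁ hπ₁) ν).2.trans (h.box ν).1
  obtain ⟨hB1, hB2, hB3, hB4, hB5, -⟩ := box_ineqs E.pos_card E.one_le_c hβ1 hB
  obtain ⟨d, Y₀, Y₀', eY, eY', hcoY⟩ := exists_coprime_quot (y π₁.1 * z π₁.2) (y π₁.2 * z π₁.1)
    (o.nY h hπ₁)
  have n1 := o.nY h hπ₁
  have n2 := o.nY' h hπ₁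
  rw [eY] at n1
  rw [eY'] at n2
  have hd : d ≠ 0 := left_ne_zero_of_mul n1
  have hY₀ : Y₀ ≠ 0 := right_ne_zero_of_mul n1
  have hY₀' : Y₀' ≠ 0 := right_ne_zero_of_mul n2
  have hrat : ∀ π ∈ W, y π.1 * z π.2 * Y₀' = y π.2 * z π.1 * Y₀ := fun π hπ => by
    have := c₂ π hπ π₁ hπ₁
    rw [eY, eY'] at this
    refine mul_left_cancel₀ hd ?_
    linear_combination this
  have hG : ∀ π ∈ W, ∃ G, y π.1 * z π.2 = G * Y₀ ∧ y π.2 * z π.1 = G * Y₀' := fun π hπ => by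
    obtain ⟨G, hG⟩ : Y₀ ∣ y π.1 * z π.2 :=
      hcoY.dvd_of_dvd_mul_right ⟨_, by rw [hrat π hπ, mul_comm]⟩
    refine ⟨G, by rw [hG, mul_comm], mul_right_cancel₀ hY₀ ?_⟩
    rw [← hrat π hπ, hG]; ring
  obtain ⟨h₁, hh₁⟩ : ∃ h₁, h₁ = (b₁ * k₂) * Y₀ ^ g - (b₂ * k₁) * Y₀' ^ g := ⟨_, rfl⟩
  have hDh : ∀ π ∈ W, ∃ t, t ∣ b π.1 * c π.2 ∧ b π.1 * c π.2 - b π.2 * c π.1 = t * h₁ :=
    fun π hπ => by
      obtain ⟨G, g1, g2⟩ := hG π hπ
      refine ⟨bo π.1 * (kO * co π.1) * G ^ g, ⟨(b₁ * k₂) * Y₀ ^ g, ?_⟩, ?_⟩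
      · rw [o.eP hπ, g1]; ring
      · rw [o.eP hπ, o.eQ hπ, g1, g2, hh₁]; ring
  have hh₁D : h₁ ∣ a π₁.1 * b π₁.2 - a π₁.2 * b π₁.1 := by
    obtain ⟨t, -, ht⟩ := hDh π₁ hπ₁
    rw [← h.cross_bc (o.m1 _ hπ₁) (o.m2 _ hπ₁), ht]
    exact dvd_mul_left _ _
  have hh₁0 : h₁ ≠ 0 := ne_zero_of_dvd_ne_zero (o.hD h hπ₁) hh₁D
  have hh₁B : E.N h₁ ≤ B := (E.N_le_of_dvd hh₁D (o.hD h hπ₁)).trans
    ((h.cross_N (o.m1 _ hπ₁) (o.m2 _ hπ₁)).trans hB4)
  have hb : ∀ ν, Ty ν * Tz ν ≤ β * β := fun ν => mul_le_mul (hβ ν).2.1 (hβ ν).2.2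
    ((abs_nonneg _).trans (hz _ (o.m1 _ hπ₁) ν).2) (zero_le_one.trans hβ1)
  have hYB : E.N Y₀ ≤ B := (E.N_le_of_dvd ⟨d, by rw [eY, mul_comm]⟩ (o.nY h hπ₁)).trans
    ((E.N_le_pow fun ν =>
      (Tri.prod_le hκ hy hz (o.m1 _ hπ₁) (o.m2 _ hπ₁) ν).2.trans (hb ν)).trans hB5)
  have hYB' : E.N Y₀' ≤ B := (E.N_le_of_dvd ⟨d, by rw [eY', mul_comm]⟩ (o.nY' h hπ₁)).trans
    ((E.N_le_pow fun ν =>
      (Tri.prod_le hκ hy hz (o.m2 _ hπ₁) (o.m1 _ hπ₁) ν).2.trans (hb ν)).trans hB5)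
  have hex : ∀ π : α × α, ∃ t y₀ y₀', π ∈ W → (y π.1 = t * y₀ ∧ y π.2 = t * y₀' ∧
      IsCoprime y₀ y₀' ∧ (∀ ν, |E.σ ν y₀| ≤ (E.c * β) ^ Fintype.card V) ∧
      ∀ ν, |E.σ ν y₀'| ≤ (E.c * β) ^ Fintype.card V) := by
    intro π
    by_cases hπ : π ∈ W
    · obtain ⟨t, y₀, y₀', hh⟩ := exists_bal_quot E (left_ne_zero_of_mul (o.nY h hπ))
        (fun ν => (hy _ (o.m1 π hπ) ν).2.trans (hβ ν).2.1)
        (fun ν => (hy _ (o.m2 π hπ) ν).2.trans (hβ ν).2.1)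
      exact ⟨t, y₀, y₀', fun _ => hh⟩
    · exact ⟨0, 0, 0, fun h => (hπ h).elim⟩
  choose t y₀ y₀' hy₀ using hex
  have nt : ∀ π ∈ W, t π ≠ 0 ∧ y₀ π ≠ 0 ∧ y₀' π ≠ 0 := fun π hπ => by
    have h1 := left_ne_zero_of_mul (o.nY h hπ)
    have h2 := left_ne_zero_of_mul (o.nY' h hπ)
    rw [(hy₀ π hπ).1] at h1
    rw [(hy₀ π hπ).2.1] at h2
    exact ⟨left_ne_zero_of_mul h1, right_ne_zero_of_mul h1, right_ne_zero_of_mul h2⟩
  have hrat' : ∀ π ∈ W, y₀ π * z π.2 * Y₀' = y₀' π * z π.1 * Y₀ := fun π hπ => by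
    have := hrat π hπ
    rw [(hy₀ π hπ).1, (hy₀ π hπ).2.1] at this
    refine mul_left_cancel₀ (nt π hπ).1 ?_
    linear_combination this
  refine card_le_of_fibers W (fun π => (ao π.1, y₀ π, y₀' π)) _ _ (by positivity)
    (card_image_pair _ _ _ ?_ (card_image_pair _ _ _ ?_ ?_)) fun W₃ hW₃ c₃ => ?_
  · refine hS.small.smooth h₁ hh₁0 hh₁B _ fun e he => ?_
    obtain ⟨π, hπ, rfl⟩ := Finset.mem_image.1 he
    refine ⟨right_ne_zero_of_mul (ne_zero_of_dvd_ne_zero (h.ne _ (o.m1 π hπ)).1 (o.du₁ hπ)),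
      fun ν => (hao _ (o.m1 π hπ) ν).trans hB3, fun p _ hp => hp.trans ?_⟩
    obtain ⟨t, ht1, ht2⟩ := hDh π hπ
    have h1 := o.duD h hπ
    rw [ht2] at h1
    exact (dvd_mul_left _ _).trans
      (((o.cP h hπ).of_isCoprime_of_dvd_right ht1).dvd_of_dvd_mul_left h1)
  · refine hS.small.smooth Y₀ hY₀ hYB _ fun e he => ?_
    obtain ⟨π, hπ, rfl⟩ := Finset.mem_image.1 he
    refine ⟨(nt π hπ).2.1, fun ν => ((hy₀ π hπ).2.2.2.1 ν).trans hB1, fun p _ hp => hp.trans ?_⟩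
    refine IsCoprime.dvd_of_dvd_mul_left (x := y₀ π) (y := y₀' π * z π.1) ?_
      ⟨z π.2 * Y₀', by rw [← hrat' π hπ]; ring⟩
    refine (hy₀ π hπ).2.2.1.mul_right ?_
    exact ((h.cop _ (o.m1 π hπ)).2.2.of_isCoprime_of_dvd_left
      ((Dvd.intro_left _ (hy₀ π hπ).1.symm).trans (o.dy₁ hπ))).of_isCoprime_of_dvd_right (o.dz₁ hπ)
  · refine hS.small.smooth Y₀' hY₀' hYB' _ fun e he => ?_
    obtain ⟨π, hπ, rfl⟩ := Finset.mem_image.1 he
    refine ⟨(nt π hπ).2.2, fun ν => ((hy₀ π hπ).2.2.2.2 ν).trans hB1, fun p _ hp => hp.trans ?_⟩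
    refine IsCoprime.dvd_of_dvd_mul_left (x := y₀' π) (y := y₀ π * z π.2) ?_
      ⟨z π.1 * Y₀, by rw [hrat' π hπ]; ring⟩
    refine (hy₀ π hπ).2.2.1.symm.mul_right ?_
    exact ((h.cop _ (o.m2 π hπ)).2.2.of_isCoprime_of_dvd_left
      ((Dvd.intro_left _ (hy₀ π hπ).2.1.symm).trans (o.dy₂ hπ))).of_isCoprime_of_dvd_right
      (o.dz₂ hπ)
  refine card_le_of_nonempty _ _ (by positivity) fun π₂ hπ₂ => ?_
  simp only [Prod.mk.injEq] at c₃
  have hu : ∀ π ∈ W₃, mO * ao π.1 = mO * ao π₂.1 := fun π hπ => by rw [(c₃ π hπ π₂ hπ₂).1]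
  have fb₁ : ∀ π ∈ W₃, b π.1 = (bo π.1 * t π ^ g) * (b₁ * y₀ π₂ ^ g) := fun π hπ => by
    rw [o.eb₁ π (hW₃ hπ), (hy₀ π (hW₃ hπ)).1, (c₃ π hπ π₂ hπ₂).2.1]; ring
  have fb₂ : ∀ π ∈ W₃, b π.2 = (bo π.1 * t π ^ g) * (b₂ * y₀' π₂ ^ g) := fun π hπ => by
    rw [o.eb₂ π (hW₃ hπ), (hy₀ π (hW₃ hπ)).2.1, (c₃ π hπ π₂ hπ₂).2.2]; ring
  rcases hend with hend | ⟨hi2, hend⟩
  · refine le_trans ((o.mono hW₃).ending_lin h (θ := fun π => bo π.1 * t π ^ g) hend hu fb₁ fb₂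
      (p := (b₁ * k₂) * Y₀ ^ g) (q := (b₂ * k₁) * Y₀' ^ g) (hh₁ ▸ hh₁0) fun π hπ => ?_)
      (one_le_pow₀ hΔ)
    obtain ⟨G, g1, g2⟩ := hG π (hW₃ hπ)
    rw [o.eP (hW₃ hπ), o.eQ (hW₃ hπ), g1, g2]; ring
  · exact ending_thue h (o.mono hW₃) hS hB2 hB4 hi2 hi4 hx (fun ν => (hβ ν).1)
      (θ := fun π => bo π.1 * t π ^ g) hend hu fb₁ fb₂

theorem step {G : ℕ} {B Δ : ℝ} (hS : Ctx E G κ B Δ) (hB : (2 * E.c * β ^ 2) ^ Fintype.card V ≤ B)
    (hi4 : i ≤ G) (hg4 : g ≤ G) {Tx Ty Tz TO Tr : V → ℝ} (hx : Rng E S x Tx κ)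
    (hy : Rng E S y Ty κ) (hz : Rng E S z Tz κ) (hO : ∀ ν, 0 ≤ TO ν ∧ TO ν ≤ κ * |E.σ ν mO|)
    (hTA : ∀ ν, TA ν = TO ν * Tr ν) (hβ : ∀ ν, Tx ν ≤ β ∧ Ty ν ≤ β ∧ Tz ν ≤ β)
    (hao : ∀ P ∈ S, ∀ ν, |E.σ ν (ao P)| ≤ β)
    (hend : (∀ P ∈ S, x P = 1) ∨ (2 ≤ i ∧ ∀ P ∈ S, co P = 1 ∧ z P = 1)) {Q : ℝ} (hQ0 : 0 ≤ Q)
    (hQ : ∏ ν, (Ty ν * Tz ν) ^ 2 * Tr ν ≤ Q * ∏ ν, M ν) :
    (W.card : ℝ) ≤ Δ ^ 4 * (1 + Δ * Q) *
      (Δ * (Δ * Δ) * (Δ ^ 10)) := by
  have hκ := h.one_le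
  have hΔ := hS.small.one_le
  refine card_le_of_nonempty _ _ (by positivity) fun π₀ hπ₀ => ?_
  have hβ1 : 1 ≤ β := E.one_le_box (h.ne _ (o.m1 π₀ hπ₀)).1
    fun ν => (h.ra _ (o.m1 π₀ hπ₀) ν).2.trans (h.box ν).1
  obtain ⟨-, -, -, -, -, hB6⟩ := box_ineqs E.pos_card E.one_le_c hβ1 hB
  have hmO0 : mO ≠ 0 := left_ne_zero_of_mul
    (ne_zero_of_dvd_ne_zero (h.ne _ (o.m1 π₀ hπ₀)).1 (o.du₁ hπ₀))
  refine ratio_count hS g o.hg hg4 mO (b₁ * k₂) (b₂ * k₁) hmO0 ?_ W (fun π => y π.1 * z π.2)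
    (fun π => y π.2 * z π.1) (fun ν => Ty ν * Tz ν) (fun ν => Ty ν * Tz ν)
    (fun ν => 2 * (2 * κ ^ 2 * TA ν / M ν) * κ ^ 2) _ _ (by positivity) (by positivity) ?_ ?_ ?_ ?_
    (fun π hπ => ⟨o.nY h hπ, o.nY' h hπ⟩)
    (fun π hπ ν => (Tri.prod_le hκ hy hz (o.m1 π hπ) (o.m2 π hπ) ν).2)
    (fun π hπ ν => (Tri.prod_le hκ hy hz (o.m2 π hπ) (o.m1 π hπ) ν).2)
    (fun π hπ π' hπ' ν => o.arch h hπ hπ' ν) ?_
    (fun W₂ hW₂ c₂ => fiber h (o.mono hW₂) hS hB hi4 hx hy hz hβ hao hend c₂)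
  · refine (E.N_le_of_dvd ((dvd_mul_right _ _).trans (o.du₁ hπ₀)) (h.ne _ (o.m1 π₀ hπ₀)).1).trans
      (le_trans ?_ hB6)
    exact E.N_le_pow fun ν => (h.ra _ (o.m1 π₀ hπ₀) ν).2.trans (h.box ν).1
  · refine ((o.cP h hπ₀).of_mul_left_left).of_isCoprime_of_dvd_right ?_
    rw [o.eP hπ₀]; exact (dvd_mul_right _ _).mul_left _
  · exact fun π hπ => ((o.cP h hπ).of_mul_left_left).of_isCoprime_of_dvd_right
      (mul_dvd_mul (o.dy₁ hπ) (o.dz₂ hπ))
  · exact fun π hπ => ((o.cQ h hπ).of_mul_left_left).of_isCoprime_of_dvd_right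
      (mul_dvd_mul (o.dy₂ hπ) (o.dz₁ hπ))
  · intro π hπ
    have h1 := (dvd_mul_right _ _).trans (o.duD h hπ)
    rw [o.eP hπ, o.eQ hπ, ← mul_sub] at h1
    refine IsCoprime.dvd_of_dvd_mul_left ?_ h1
    exact ((o.cP h hπ).of_mul_left_left).of_isCoprime_of_dvd_right ⟨_, o.eP hπ⟩
  · have hM : 0 < ∏ ν, M ν := Finset.prod_pos fun ν _ => (h.pos (o.m1 π₀ hπ₀) ν).2.2.2
    have e1 : ∏ ν, Ty ν * Tz ν * (Ty ν * Tz ν) * (2 * (2 * κ ^ 2 * TA ν / M ν) * κ ^ 2) =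
        (4 * κ ^ 4) ^ Fintype.card V * ((∏ ν, (Ty ν * Tz ν) ^ 2 * Tr ν) / ∏ ν, M ν) *
          ∏ ν, TO ν := by
      rw [← Finset.card_univ, ← Finset.prod_const, ← Finset.prod_div_distrib,
        ← Finset.prod_mul_distrib, ← Finset.prod_mul_distrib]
      refine Finset.prod_congr rfl fun ν _ => ?_
      rw [hTA]; ring
    have e2 : ∏ ν, TO ν ≤ κ ^ Fintype.card V * E.N mO := by
      rw [Emb.N, ← Finset.card_univ, ← Finset.prod_const, ← Finset.prod_mul_distrib]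
      exact Finset.prod_le_prod (fun ν _ => (hO ν).1) fun ν _ => (hO ν).2
    have e3 : 0 ≤ ∏ ν, TO ν := Finset.prod_nonneg fun ν _ => (hO ν).1
    rw [e1]
    calc _ ≤ (4 * κ ^ 4) ^ Fintype.card V * Q * (κ ^ Fintype.card V * E.N mO) := by
          gcongr
          exact (div_le_iff₀ hM).2 hQ
      _ = (4 * κ ^ 5) ^ Fintype.card V * Q * E.N mO := by
          rw [show 4 * κ ^ 5 = (4 * κ ^ 4) * κ by ring, mul_pow (4 * κ ^ 4)]; ring
      _ ≤ _ := by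
          have := hS.pow_le (c := 4) (k := 5) (by norm_num) (by linarith [hS.one_le_G']) (by omega)
          have := E.N_nonneg mO
          gcongr

end

set_option synthInstance.maxSize 4000 in
theorem toolC [DecidableEq R] {E : Emb R V} {S : Finset α} {a b c : α → R}
    {TA TB TC M : V → ℝ} {κ β : ℝ} (h : Tri E S a b c TA TB TC M κ β) {G : ℕ} {B Δ : ℝ}
    (hS : Ctx E G κ B Δ)
    (hB : (2 * E.c * β ^ 2) ^ Fintype.card V ≤ B) {i g : ℕ} (hi4 : i ≤ G) (hg1 : 1 ≤ g)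
    (hg4 : g ≤ G) {aO ao ae x bo be y cO co ce z : α → R}
    (F : Fac S a b c aO ao ae x bo be y cO co ce z i g) (Tx Ty Tz TO Tr : V → ℝ)
    (hx : Rng E S x Tx κ) (hy : Rng E S y Ty κ) (hz : Rng E S z Tz κ) (hO : Rng E S aO TO κ)
    (hTA : ∀ ν, TA ν = TO ν * Tr ν) (hβ : ∀ ν, Tx ν ≤ β ∧ Ty ν ≤ β ∧ Tz ν ≤ β)
    (hao : ∀ P ∈ S, ∀ ν, |E.σ ν (ao P)| ≤ β)
    (hend : (∀ P ∈ S, x P = 1) ∨ (2 ≤ i ∧ ∀ P ∈ S, co P = 1 ∧ z P = 1))
    {s₁ s₂ s₃ s₄ s₅ s₆ s₇ s₈ Q : ℝ} (i₁ : ((S.image aO).card : ℝ) ≤ s₁)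
    (i₂ : ((S.image cO).card : ℝ) ≤ s₂) (i₃ : ((S.image ae).card : ℝ) ≤ s₃)
    (i₄ : ((S.image be).card : ℝ) ≤ s₄) (i₅ : ((S.image ce).card : ℝ) ≤ s₅)
    (i₆ : ((S.image ao).card : ℝ) ≤ s₆) (i₇ : ((S.image bo).card : ℝ) ≤ s₇)
    (i₈ : ((S.image co).card : ℝ) ≤ s₈) (hQ0 : 0 ≤ Q)
    (hQ : ∏ ν, (Ty ν * Tz ν) ^ 2 * Tr ν ≤ Q * ∏ ν, M ν) :
    (S.card : ℝ) ≤ 2 * (s₁ * (s₆ * (s₇ * (s₂ * s₈)))) ∨
    (S.card : ℝ) ^ 2 ≤ 2 * (s₁ * (s₆ * (s₇ * (s₂ * s₈)))) *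
      (s₁ * (s₂ * (s₃ * (s₃ * (s₄ * (s₄ * (s₅ * s₅)))))) *
      (Δ ^ 4 * (1 + Δ * Q) * (Δ * (Δ * Δ) * (Δ ^ 10)))) := by
  refine cauchy_schwarz S (fun P => (aO P, ao P, bo P, cO P, co P))
    (card_image_pair _ _ _ i₁ <| card_image_pair _ _ _ i₆ <| card_image_pair _ _ _ i₇ <|
      card_image_pair _ _ _ i₂ i₈) fun W hW => ?_
  simp only [Prod.mk.injEq] at hW
  have hκ := h.one_le
  have hΔ := hS.small.one_le
  have w1 : ∀ π ∈ W, π.1 ∈ S := fun π hπ => (hW π hπ).1.1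
  have w2 : ∀ π ∈ W, π.2 ∈ S := fun π hπ => (hW π hπ).1.2
  refine card_le_of_fibers W
    (fun π => (aO π.1, cO π.1, ae π.1, ae π.2, be π.1, be π.2, ce π.1, ce π.2)) _ _ (by positivity)
    (card_image_pair _ _ _ (card_image_comp S W _ w1 _ i₁) <|
      card_image_pair _ _ _ (card_image_comp S W _ w1 _ i₂) <|
      card_image_pair _ _ _ (card_image_comp S W _ w1 _ i₃) <|
      card_image_pair _ _ _ (card_image_comp S W _ w2 _ i₃) <|
      card_image_pair _ _ _ (card_image_comp S W _ w1 _ i₄) <|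
      card_image_pair _ _ _ (card_image_comp S W _ w2 _ i₄) <|
      card_image_pair _ _ _ (card_image_comp S W _ w1 _ i₅) (card_image_comp S W _ w2 _ i₅))
    fun W₁ hW₁ c₁ => ?_
  refine card_le_of_nonempty _ _ (by positivity) fun π₀ hπ₀ => ?_
  simp only [Prod.mk.injEq] at c₁
  have m1 : ∀ π ∈ W₁, π.1 ∈ S := fun π hπ => w1 π (hW₁ hπ)
  have m2 : ∀ π ∈ W₁, π.2 ∈ S := fun π hπ => w2 π (hW₁ hπ)
  have o : Off S a b c ao x bo y co z (aO π₀.1) (cO π₀.1) (ae π₀.1) (ae π₀.2) (be π₀.1) (be π₀.2)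
      (ce π₀.1) (ce π₀.2) i g W₁ := by
    refine ⟨m1, m2, fun π hπ => (hW π (hW₁ hπ)).2.1, hg1, fun π hπ => ?_, fun π hπ => ?_,
      fun π hπ => ?_, fun π hπ => ?_, fun π hπ => ?_, fun π hπ => ?_⟩
    · rw [F.ha _ (m1 π hπ), (c₁ π hπ π₀ hπ₀).1, (c₁ π hπ π₀ hπ₀).2.2.1]
    · rw [F.ha _ (m2 π hπ), ← (hW π (hW₁ hπ)).2.2.1, ← (hW π (hW₁ hπ)).2.2.2.1,
        (c₁ π hπ π₀ hπ₀).1, (c₁ π hπ π₀ hπ₀).2.2.2.1]
    · rw [F.hb _ (m1 π hπ), (c₁ π hπ π₀ hπ₀).2.2.2.2.1]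
    · rw [F.hb _ (m2 π hπ), ← (hW π (hW₁ hπ)).2.2.2.2.1, (c₁ π hπ π₀ hπ₀).2.2.2.2.2.1]
    · rw [F.hc _ (m1 π hπ), (c₁ π hπ π₀ hπ₀).2.1, (c₁ π hπ π₀ hπ₀).2.2.2.2.2.2.1]
    · rw [F.hc _ (m2 π hπ), ← (hW π (hW₁ hπ)).2.2.2.2.2.1, ← (hW π (hW₁ hπ)).2.2.2.2.2.2,
        (c₁ π hπ π₀ hπ₀).2.1, (c₁ π hπ π₀ hπ₀).2.2.2.2.2.2.2]
  exact step h o hS hB hi4 hg4 hx hy hz
    (fun ν => ⟨(abs_nonneg _).trans (hO _ (m1 π₀ hπ₀) ν).2, (hO _ (m1 π₀ hπ₀) ν).1⟩) hTA hβ hao hend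
    hQ0 hQ

end Pool.Agent.MP_2a5a28_nt.H39

/-! Counting solutions of one equation in a finite abelian group by moments. -/

namespace Pool.Agent.MP_2a5a28_nt.H39

open Finset

theorem count_eq {G τ : Type*} [AddCommGroup G] [Fintype G] [DecidableEq G] (T : Finset τ)
    (h : τ → G) : (Fintype.card G : ℂ) * ((T.filter fun t => h t = 0).card : ℂ) =
      ∑ χ : AddChar G ℂ, ∑ t ∈ T, χ (h t) := by
  rw [Finset.sum_comm]
  simp_rw [AddChar.sum_apply_eq_ite]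
  rw [← Finset.sum_filter]
  simp [mul_comm]

theorem map_sum_eq_prod {G ι : Type*} [AddCommGroup G] (χ : AddChar G ℂ) (s : Finset ι)
    (f : ι → G) : χ (∑ i ∈ s, f i) = ∏ i ∈ s, χ (f i) := by
  classical
  induction s using Finset.induction_on with
  | empty => simp
  | insert a s ha ih => rw [Finset.sum_insert ha, Finset.prod_insert ha, AddChar.map_add_eq_mul, ih]

theorem prod_le_one_add {ι : Type*} [Fintype ι] (y : ι → ℝ) (n : ι → ℕ) (hy : ∀ u, 0 ≤ y u)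
    (hn : ∀ u, 1 ≤ n u) (hb : ∑ u, 1 / (2 * (n u : ℝ)) ≤ 1) :
    ∏ u, y u ≤ 1 + ∑ u, y u ^ (2 * n u) := by
  obtain ⟨Y, hY⟩ : ∃ Y, Y = 1 + ∑ u, y u ^ (2 * n u) := ⟨_, rfl⟩
  have h0 : ∀ u, 0 ≤ y u ^ (2 * n u) := fun u => pow_nonneg (hy u) _
  have h1 : 1 ≤ Y := by rw [hY]; linarith [Finset.sum_nonneg fun u (_ : u ∈ univ) => h0 u]
  have h2 : ∀ u, y u ≤ Y ^ (1 / (2 * (n u : ℝ))) := by
    intro u
    have h3 : y u ^ (2 * n u) ≤ Y := by
      rw [hY]; linarith [Finset.single_le_sum (fun u _ => h0 u) (Finset.mem_univ u)]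
    have h4 : (2 * n u : ℕ) ≠ 0 := by have := hn u; omega
    have h5 := Real.rpow_le_rpow (h0 u) h3 (by positivity : (0 : ℝ) ≤ ((2 * n u : ℕ) : ℝ)⁻¹)
    rw [Real.pow_rpow_inv_natCast (hy u) h4] at h5
    simpa using h5
  rw [← hY]
  calc ∏ u, y u ≤ ∏ u, Y ^ (1 / (2 * (n u : ℝ))) :=
        Finset.prod_le_prod (fun u _ => hy u) fun u _ => h2 u
    _ = Y ^ (∑ u, 1 / (2 * (n u : ℝ))) := (Real.rpow_sum_of_pos (by linarith) _ _).symm
    _ ≤ Y ^ (1 : ℝ) := Real.rpow_le_rpow_of_exponent_le h1 hb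
    _ = Y := Real.rpow_one Y

theorem moment_eq {G β : Type*} [AddCommGroup G] [Fintype G] [DecidableEq G] [DecidableEq β]
    (W : Finset β) (ψ : β → G) (n : ℕ) :
    ∑ χ : AddChar G ℂ, ‖∑ v ∈ W, χ (ψ v)‖ ^ (2 * n) = (Fintype.card G : ℝ) *
      ((((Fintype.piFinset fun _ : Fin n => W) ×ˢ (Fintype.piFinset fun _ : Fin n => W)).filter
        fun p => ∑ i, ψ (p.1 i) = ∑ i, ψ (p.2 i)).card : ℝ) := by
  have h1 := count_eq
    ((Fintype.piFinset fun _ : Fin n => W) ×ˢ (Fintype.piFinset fun _ : Fin n => W))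
    (fun p => ∑ i, ψ (p.1 i) - ∑ i, ψ (p.2 i))
  simp only [sub_eq_zero] at h1
  have h2 : ∀ χ : AddChar G ℂ, ∑ p ∈ (Fintype.piFinset fun _ : Fin n => W) ×ˢ
      (Fintype.piFinset fun _ : Fin n => W), χ (∑ i, ψ (p.1 i) - ∑ i, ψ (p.2 i)) =
      ((‖∑ v ∈ W, χ (ψ v)‖ ^ (2 * n) : ℝ) : ℂ) := by
    intro χ
    have h3 : (∑ v ∈ W, χ (ψ v)) ^ n =
        ∑ f ∈ Fintype.piFinset fun _ : Fin n => W, χ (∑ i, ψ (f i)) := by
      rw [Finset.sum_pow']
      exact Finset.sum_congr rfl fun f _ => (map_sum_eq_prod χ _ _).symm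
    rw [pow_mul', ← norm_pow, h3, ← Complex.normSq_eq_norm_sq, ← Complex.mul_conj, map_sum,
      Finset.sum_mul_sum, Finset.sum_product]
    refine Finset.sum_congr rfl fun f _ => Finset.sum_congr rfl fun f' _ => ?_
    rw [sub_eq_add_neg, AddChar.map_add_eq_mul, AddChar.map_neg_eq_conj]
  rw [Finset.sum_congr rfl fun χ _ => h2 χ] at h1
  exact_mod_cast h1.symm

theorem holder_count {G ι β : Type*} [AddCommGroup G] [Fintype G] [DecidableEq G] [Fintype ι]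
    [DecidableEq ι] [DecidableEq β] (W : ι → Finset β) (ψ : ι → β → G) (n : ι → ℕ) (A : ι → ℝ)
    (hn : ∀ u, 1 ≤ n u) (hb : ∑ u, 1 / (2 * (n u : ℝ)) ≤ 1) (hA : ∀ u, 0 < A u)
    (hM : ∀ u, ((((Fintype.piFinset fun _ : Fin (n u) => W u) ×ˢ
      (Fintype.piFinset fun _ : Fin (n u) => W u)).filter
        fun p => ∑ i, ψ u (p.1 i) = ∑ i, ψ u (p.2 i)).card : ℝ) ≤ A u ^ (2 * n u)) (g : G) :
    (((Fintype.piFinset W).filter fun f => ∑ u, ψ u (f u) = g).card : ℝ) ≤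
      (1 + Fintype.card ι) * ∏ u, A u := by
  have hG : (0 : ℝ) < Fintype.card G := by exact_mod_cast Fintype.card_pos
  have h1 := count_eq (Fintype.piFinset W) (fun f => ∑ u, ψ u (f u) - g)
  simp only [sub_eq_zero] at h1
  have h2 : ∀ χ : AddChar G ℂ, ‖∑ f ∈ Fintype.piFinset W, χ (∑ u, ψ u (f u) - g)‖ =
      ∏ u, ‖∑ v ∈ W u, χ (ψ u v)‖ := by
    intro χ
    have : ∑ f ∈ Fintype.piFinset W, χ (∑ u, ψ u (f u) - g) =
        (∏ u, ∑ v ∈ W u, χ (ψ u v)) * χ (-g) := by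
      rw [Finset.prod_univ_sum, Finset.sum_mul]
      exact Finset.sum_congr rfl fun f _ => by
        rw [sub_eq_add_neg, AddChar.map_add_eq_mul, map_sum_eq_prod]
    rw [this, norm_mul, AddChar.norm_apply, mul_one, norm_prod]
  have h3 : (Fintype.card G : ℝ) *
      (((Fintype.piFinset W).filter fun f => ∑ u, ψ u (f u) = g).card : ℝ) ≤
      ∑ χ : AddChar G ℂ, ∏ u, ‖∑ v ∈ W u, χ (ψ u v)‖ := by
    have h4 := congrArg norm h1
    rw [norm_mul, Complex.norm_natCast, Complex.norm_natCast] at h4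
    rw [h4]
    exact (norm_sum_le _ _).trans (le_of_eq (Finset.sum_congr rfl fun χ _ => h2 χ))
  have hP : 0 < ∏ u, A u := Finset.prod_pos fun u _ => hA u
  have h5 : ∀ χ : AddChar G ℂ, ∏ u, ‖∑ v ∈ W u, χ (ψ u v)‖ ≤
      (1 + ∑ u, ‖∑ v ∈ W u, χ (ψ u v)‖ ^ (2 * n u) / A u ^ (2 * n u)) * ∏ u, A u := by
    intro χ
    have := prod_le_one_add (fun u => ‖∑ v ∈ W u, χ (ψ u v)‖ / A u) n
      (fun u => div_nonneg (norm_nonneg _) (hA u).le) hn hb
    rw [Finset.prod_div_distrib, div_le_iff₀ hP] at this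
    simpa only [div_pow] using this
  have h6 : ∀ u, ∑ χ : AddChar G ℂ, ‖∑ v ∈ W u, χ (ψ u v)‖ ^ (2 * n u) / A u ^ (2 * n u) ≤
      Fintype.card G := by
    intro u
    rw [← Finset.sum_div, moment_eq, div_le_iff₀ (pow_pos (hA u) _)]
    exact mul_le_mul_of_nonneg_left (hM u) hG.le
  refine le_of_mul_le_mul_left (h3.trans ?_) hG
  calc _ ≤ ∑ χ : AddChar G ℂ,
        (1 + ∑ u, ‖∑ v ∈ W u, χ (ψ u v)‖ ^ (2 * n u) / A u ^ (2 * n u)) * ∏ u, A u :=
        Finset.sum_le_sum fun χ _ => h5 χ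
    _ = (Fintype.card G + ∑ u, ∑ χ : AddChar G ℂ,
          ‖∑ v ∈ W u, χ (ψ u v)‖ ^ (2 * n u) / A u ^ (2 * n u)) * ∏ u, A u := by
        rw [← Finset.sum_mul, Finset.sum_add_distrib, Finset.sum_comm]
        simp
    _ ≤ (Fintype.card G + ∑ _u : ι, (Fintype.card G : ℝ)) * ∏ u, A u := by
        gcongr with u
        exact h6 u
    _ = _ := by simp; ring

theorem holder_mul {G ι β : Type*} [CommGroup G] [Finite G] [Fintype ι]
    [DecidableEq ι] [DecidableEq β] (W : ι → Finset β) (ψ : ι → β → G) (n : ι → ℕ) (A : ι → ℝ)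
    (hn : ∀ u, 1 ≤ n u) (hb : ∑ u, 1 / (2 * (n u : ℝ)) ≤ 1) (hA : ∀ u, 0 < A u)
    (hM : ∀ u, ∀ Z : Finset ((Fin (n u) → β) × (Fin (n u) → β)),
      (∀ p ∈ Z, (∀ i, p.1 i ∈ W u) ∧ (∀ i, p.2 i ∈ W u) ∧
        ∏ i, ψ u (p.1 i) = ∏ i, ψ u (p.2 i)) → (Z.card : ℝ) ≤ A u ^ (2 * n u)) (g : G)
    (Z : Finset (ι → β)) (hZ : ∀ f ∈ Z, (∀ u, f u ∈ W u) ∧ ∏ u, ψ u (f u) = g) :
    (Z.card : ℝ) ≤ (1 + Fintype.card ι) * ∏ u, A u := by
  classical
  have := Fintype.ofFinite G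
  refine le_trans ?_ (holder_count (G := Additive G) W (fun u v => Additive.ofMul (ψ u v)) n A hn
    hb hA (fun u => hM u _ fun p hp => ?_) (Additive.ofMul g))
  · refine Nat.cast_le.2 (Finset.card_le_card fun f hf => ?_)
    rw [Finset.mem_filter, Fintype.mem_piFinset, ← ofMul_prod, (hZ f hf).2]
    exact ⟨(hZ f hf).1, rfl⟩
  · rw [Finset.mem_filter, Finset.mem_product, Fintype.mem_piFinset, Fintype.mem_piFinset,
      ← ofMul_prod, ← ofMul_prod] at hp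
    exact ⟨hp.1.1, hp.1.2, Additive.ofMul.injective hp.2⟩

end Pool.Agent.MP_2a5a28_nt.H39

/-! The bound by multiplicative characters modulo a divisor of `c`. -/

namespace Pool.Agent.MP_2a5a28_nt.H39

open Finset UniqueFactorizationMonoid

set_option linter.unusedSectionVars false

variable {R : Type*} [CommRing R] [IsDomain R] [IsPrincipalIdealRing R] [NormalizationMonoid R]
  {V : Type*} [Fintype V] {α : Type*}

theorem moment_le {E : Emb R V} {G : ℕ} {κ B Δ : ℝ} (hS : Ctx E G κ B Δ) {q : R} (hq : q ≠ 0)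
    (hqB : E.N q ≤ B) (W : Finset R) {k n : ℕ} (hk1 : 1 ≤ k) (hkG : k ≤ G) (T : V → ℝ)
    (hW : ∀ v ∈ W, v ≠ 0 ∧ IsCoprime q v ∧ ∀ ν, T ν ≤ 2 * |E.σ ν v| ∧ |E.σ ν v| ≤ T ν)
    (hκ : 2 ^ (n * k + 1) ≤ κ) {β : ℝ} (hβ : 1 ≤ β) (hTβ : ∀ ν, T ν ^ n ≤ β ∧ T ν ≤ β)
    (hB : β ^ Fintype.card V ≤ B) {Q : ℝ} (hQ0 : 0 ≤ Q)
    (hQ : (∏ ν, T ν) ^ n ≤ Q * (κ ^ Fintype.card V * E.N q))
    (Z : Finset ((Fin n → R) × (Fin n → R)))
    (hZ : ∀ p ∈ Z, (∀ i, p.1 i ∈ W) ∧ (∀ i, p.2 i ∈ W) ∧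
      q ∣ (∏ i, p.2 i) ^ k - (∏ i, p.1 i) ^ k) :
    (Z.card : ℝ) ≤ (W.card : ℝ) ^ n * (Δ ^ 4 * (1 + Δ * Q) * Δ ^ n) := by
  classical
  have hΔ := hS.small.one_le
  have hκ1 := hS.one_le_κ
  refine card_le_of_fibers Z Prod.fst _ _ (by positivity) ?_ fun Z₁ hZ₁ c₁ => ?_
  · have : Z.image Prod.fst ⊆ Fintype.piFinset fun _ : Fin n => W := by
      intro f hf
      obtain ⟨p, hp, rfl⟩ := Finset.mem_image.1 hf
      exact Fintype.mem_piFinset.2 (hZ p hp).1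
    have h3 := Finset.card_le_card this
    rw [Fintype.card_piFinset, Finset.prod_const, Finset.card_univ, Fintype.card_fin] at h3
    exact_mod_cast h3
  refine card_le_of_nonempty _ _ (by positivity) fun p₀ hp₀ => ?_
  have hw : ∀ p ∈ Z₁, ∀ i, p.2 i ∈ W := fun p hp => (hZ p (hZ₁ hp)).2.1
  have hY0 : ∀ p ∈ Z₁, ∏ i, p.2 i ≠ 0 := fun p hp =>
    Finset.prod_ne_zero_iff.2 fun i _ => (hW _ (hw p hp i)).1
  have hab : ∀ p ∈ Z₁, ∀ ν, |E.σ ν (∏ i, p.2 i)| ≤ T ν ^ n ∧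
      T ν ^ n ≤ 2 ^ n * |E.σ ν (∏ i, p.2 i)| := by
    intro p hp ν
    rw [map_prod, Finset.abs_prod]
    constructor
    · calc _ ≤ ∏ _i : Fin n, T ν := Finset.prod_le_prod (fun _ _ => abs_nonneg _)
            fun i _ => ((hW _ (hw p hp i)).2.2 ν).2
        _ = _ := by simp
    · calc T ν ^ n = ∏ _i : Fin n, T ν := by simp
        _ ≤ ∏ i, 2 * |E.σ ν (p.2 i)| := Finset.prod_le_prod
            (fun i _ => (abs_nonneg _).trans ((hW _ (hw p hp i)).2.2 ν).2)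
            fun i _ => ((hW _ (hw p hp i)).2.2 ν).1
        _ = _ := by simp [Finset.prod_mul_distrib]
  refine ratio_count hS k hk1 hkG q 1 ((∏ i, p₀.1 i) ^ k) hq hqB Z₁ (fun p => ∏ i, p.2 i)
    (fun _ => 1) (fun ν => T ν ^ n) (fun _ => 1) (fun _ => κ) _ _ (by positivity) (by positivity)
    isCoprime_one_right (fun p hp => IsCoprime.prod_right fun i _ => (hW _ (hw p hp i)).2.1)
    (fun _ _ => isCoprime_one_right) (fun p hp => ?_) (fun p hp => ⟨hY0 p hp, one_ne_zero⟩)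
    (fun p hp ν => (hab p hp ν).1) (fun p hp ν => by simp) (fun p hp p' hp' ν => ?_) ?_
    fun Z₂ hZ₂ c₂ => ?_
  · have := (hZ p (hZ₁ hp)).2.2
    rw [c₁ p hp p₀ hp₀] at this
    simpa using this
  · rw [mul_one, one_mul, map_sub, map_pow, map_pow]
    refine (abs_sub _ _).trans ?_
    rw [abs_pow, abs_pow]
    have h1 := pow_le_pow_left₀ (abs_nonneg _) ((hab p hp ν).1.trans (hab p' hp' ν).2) k
    rw [mul_pow, ← pow_mul] at h1
    have h2 : (1 : ℝ) ≤ 2 ^ (n * k) := one_le_pow₀ (by norm_num)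
    have h3 : 0 ≤ |E.σ ν (∏ i, p'.2 i)| ^ k := by positivity
    rw [pow_succ] at hκ
    nlinarith
  · have h1 := hS.pow_le (c := 1) (k := 2) (by norm_num) (by linarith [hS.one_le_G']) (by omega)
    have h2 := E.N_nonneg q
    simp only [mul_one, Finset.prod_mul_distrib, Finset.prod_const, Finset.card_univ,
      Finset.prod_pow]
    calc _ ≤ Q * (κ ^ Fintype.card V * E.N q) * κ ^ Fintype.card V := by gcongr
      _ = (1 * κ ^ 2) ^ Fintype.card V * Q * E.N q := by rw [one_mul, sq, mul_pow]; ring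
      _ ≤ _ := by gcongr
  · refine card_le_of_nonempty _ _ (by positivity) fun p₁ hp₁ => ?_
    have hD : ((W.filter fun v => v ∣ ∏ i, p₁.2 i).card : ℝ) ≤ Δ := by
      refine hS.small.smooth _ (hY0 p₁ (hZ₂ hp₁)) ((E.N_le_pow fun ν =>
        (hab p₁ (hZ₂ hp₁) ν).1.trans (hTβ ν).1).trans hB) _ fun d hd => ?_
      obtain ⟨h1, h2⟩ := Finset.mem_filter.1 hd
      exact ⟨(hW d h1).1, fun ν => ((hW d h1).2.2 ν).2.trans ((hTβ ν).2.trans
        ((le_self_pow₀ hβ E.pos_card.ne').trans hB)), fun p _ hp => hp.trans h2⟩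
    have h3 := Finset.card_le_card_of_injOn (s := Z₂)
      (t := Fintype.piFinset fun _ : Fin n => W.filter fun v => v ∣ ∏ i, p₁.2 i) Prod.snd
      (fun p hp => ?_) fun p hp p' hp' e => Prod.ext (c₁ p (hZ₂ hp) p' (hZ₂ hp')) e
    · rw [Fintype.card_piFinset, Finset.prod_const, Finset.card_univ, Fintype.card_fin] at h3
      calc (Z₂.card : ℝ) ≤ ((W.filter fun v => v ∣ ∏ i, p₁.2 i).card : ℝ) ^ n := by
            exact_mod_cast h3
        _ ≤ _ := by gcongr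
    · refine Finset.mem_coe.2 (Fintype.mem_piFinset.2 fun i =>
        Finset.mem_filter.2 ⟨hw p (hZ₂ hp) i, ?_⟩)
      have := c₂ p hp p₁ hp₁
      rw [mul_one, one_mul] at this
      rw [← this]
      exact Finset.dvd_prod_of_mem _ (Finset.mem_univ i)

theorem toolH [DecidableEq R] {E : Emb R V} {S : Finset α} {a b c : α → R} {TA TB TC M : V → ℝ}
    {κ β : ℝ} (h : Tri E S a b c TA TB TC M κ β) {G : ℕ} {B Δ : ℝ} (hS : Ctx E G κ B Δ)
    (hfin : ∀ q : R, q ≠ 0 → Finite (R ⧸ Ideal.span {q})) (hβ : 1 ≤ β)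
    (hB : β ^ Fintype.card V ≤ B) {ι : Type*} [Fintype ι] [DecidableEq ι] (sd : ι → Prop)
    [DecidablePred sd] (k n : ι → ℕ) (x : ι → α → R) (T : ι → V → ℝ) (ma mb mc w : α → R)
    (Tm : V → ℝ) (ha : ∀ P ∈ S, a P = ma P * ∏ u, if sd u then x u P ^ k u else 1)
    (hb : ∀ P ∈ S, b P = mb P * ∏ u, if sd u then 1 else x u P ^ k u)
    (hc : ∀ P ∈ S, c P = mc P * w P) (hk : ∀ u, 1 ≤ k u ∧ k u ≤ G) (hn : ∀ u, 1 ≤ n u)
    (hbud : ∑ u, 1 / (2 * (n u : ℝ)) ≤ 1) (hx : ∀ u, Rng E S (x u) (T u) 2)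
    (hκ : ∀ u, 2 ^ (n u * k u + 1) ≤ κ) (hTβ : ∀ u ν, T u ν ^ n u ≤ β ∧ T u ν ≤ β)
    (hm : Rng E S mc Tm κ) {sa sb sc : ℝ} (ia : ((S.image ma).card : ℝ) ≤ sa)
    (ib : ((S.image mb).card : ℝ) ≤ sb) (ic : ((S.image mc).card : ℝ) ≤ sc) (s A : ι → ℝ)
    (ix : ∀ u, ((S.image (x u)).card : ℝ) ≤ s u) (hA0 : ∀ u, 0 < A u)
    (hA : ∀ u, s u ^ n u * (Δ ^ 4 * (1 + Δ * ((∏ ν, T u ν) ^ n u / ∏ ν, Tm ν)) * Δ ^ n u) ≤
      A u ^ (2 * n u)) :
    (S.card : ℝ) ≤ sa * (sb * sc) * ((1 + Fintype.card ι) * ∏ u, A u) := by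
  classical
  have hΔ := hS.small.one_le
  have hκ1 := hS.one_le_κ
  have hP : 0 < ∏ u, A u := Finset.prod_pos fun u _ => hA0 u
  refine card_le_of_fibers S (fun P => (ma P, mb P, mc P)) _ _ (by positivity)
    (card_image_pair S _ _ ia (card_image_pair S _ _ ib ic)) fun S₁ hS₁ c₁ => ?_
  refine card_le_of_nonempty _ _ (by positivity) fun P₀ hP₀ => ?_
  have hP₀' := hS₁ hP₀
  simp only [Prod.mk.injEq] at c₁
  obtain ⟨X, hX⟩ : ∃ X : α → R, X = fun P => ∏ u, if sd u then x u P ^ k u else 1 := ⟨_, rfl⟩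
  obtain ⟨Y, hY⟩ : ∃ Y : α → R, Y = fun P => ∏ u, if sd u then 1 else x u P ^ k u := ⟨_, rfl⟩
  have ea : ∀ P ∈ S₁, a P = ma P₀ * X P := fun P hP => by
    rw [ha P (hS₁ hP), (c₁ P hP P₀ hP₀).1, hX]
  have eb : ∀ P ∈ S₁, b P = mb P₀ * Y P := fun P hP => by
    rw [hb P (hS₁ hP), (c₁ P hP P₀ hP₀).2.1, hY]
  have hmc : ∀ P ∈ S₁, mc P₀ ∣ c P := fun P hP =>
    ⟨_, by rw [hc P (hS₁ hP), (c₁ P hP P₀ hP₀).2.2]⟩
  have hm0 : mc P₀ ≠ 0 := ne_zero_of_dvd_ne_zero (h.ne P₀ hP₀').2.2 (hmc P₀ hP₀)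
  have hca : ∀ P ∈ S₁, IsCoprime (mc P₀) (a P) := fun P hP =>
    (h.cop P (hS₁ hP)).2.1.symm.of_isCoprime_of_dvd_left (hmc P hP)
  have hcb : ∀ P ∈ S₁, IsCoprime (mc P₀) (b P) := fun P hP =>
    (h.cop P (hS₁ hP)).2.2.symm.of_isCoprime_of_dvd_left (hmc P hP)
  have hxd : ∀ u, ∀ P ∈ S₁, x u P ∣ a P * b P := by
    intro u P hP
    have h1 : x u P ∣ X P * Y P := by
      rw [hX, hY]
      dsimp only
      rw [← Finset.prod_mul_distrib]
      refine dvd_trans ?_ (Finset.dvd_prod_of_mem _ (Finset.mem_univ u))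
      have := dvd_pow_self (x u P) (n := k u) (by have := (hk u).1; omega)
      split_ifs <;> simpa using this
    rw [ea P hP, eb P hP]
    exact h1.trans (mul_dvd_mul (dvd_mul_left _ _) (dvd_mul_left _ _))
  have hcx : ∀ u, ∀ P ∈ S₁, IsCoprime (mc P₀) (x u P) := fun u P hP =>
    ((hca P hP).mul_right (hcb P hP)).of_isCoprime_of_dvd_right (hxd u P hP)
  have := hfin _ hm0
  obtain ⟨φ, hφ⟩ : ∃ φ, φ = Ideal.Quotient.mk (Ideal.span {mc P₀}) := ⟨_, rfl⟩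
  have hker : ∀ r r', φ r = φ r' ↔ mc P₀ ∣ r - r' := fun r r' => by
    rw [hφ, Ideal.Quotient.eq, Ideal.mem_span_singleton]
  have hun : ∀ r, ∃ e : (R ⧸ Ideal.span {mc P₀})ˣ, IsCoprime (mc P₀) r → (e : _) = φ r := by
    intro r
    by_cases hr : IsCoprime (mc P₀) r
    · obtain ⟨y, z, hyz⟩ := hr
      have : φ z * φ r = 1 := by
        rw [← map_mul, ← map_one φ, hker]
        exact ⟨-y, by linear_combination hyz⟩
      exact ⟨(IsUnit.of_mul_eq_one_right _ this).unit, fun _ => rfl⟩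
    · exact ⟨1, fun h => (hr h).elim⟩
  choose cu hcu using hun
  have hinj : Set.InjOn (fun P u => x u P) S₁ := by
    intro P hP P' hP' e
    have e' : ∀ u, x u P = x u P' := congrFun e
    refine h.inj P (hS₁ hP) P' (hS₁ hP') ?_
    rw [ea P hP, ea P' hP', eb P hP, eb P' hP', hX, hY]
    simp only [e']
  rw [← Finset.card_image_of_injOn hinj]
  have hval : ∀ P ∈ S₁, ((∏ u, if sd u then cu (x u P) ^ k u else (cu (x u P) ^ k u)⁻¹ :
      (R ⧸ Ideal.span {mc P₀})ˣ) : R ⧸ Ideal.span {mc P₀}) * φ (Y P) = φ (X P) := by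
    intro P hP
    rw [hX, hY, Units.coe_prod]
    simp only [map_prod]
    rw [← Finset.prod_mul_distrib]
    refine Finset.prod_congr rfl fun u _ => ?_
    split_ifs
    · rw [map_one, mul_one, map_pow, ← hcu _ (hcx u P hP), Units.val_pow_eq_pow_val]
    · rw [map_one, map_pow, ← hcu _ (hcx u P hP), ← Units.val_pow_eq_pow_val, Units.inv_mul]
  refine holder_mul (fun u => S₁.image (x u))
    (fun u v => if sd u then cu v ^ k u else (cu v ^ k u)⁻¹) n A hn hbud hA0 (fun u Z hZ => ?_)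
    (∏ u, if sd u then cu (x u P₀) ^ k u else (cu (x u P₀) ^ k u)⁻¹) _ fun f hf => ?_
  · have hW : ∀ v ∈ S₁.image (x u), v ≠ 0 ∧ IsCoprime (mc P₀) v ∧
        ∀ ν, T u ν ≤ 2 * |E.σ ν v| ∧ |E.σ ν v| ≤ T u ν := by
      intro v hv
      obtain ⟨P, hP, rfl⟩ := Finset.mem_image.1 hv
      exact ⟨ne_zero_of_dvd_ne_zero (mul_ne_zero (h.ne P (hS₁ hP)).1 (h.ne P (hS₁ hP)).2.1)
        (hxd u P hP), hcx u P hP, hx u P (hS₁ hP)⟩
    have hTm : 0 < ∏ ν, Tm ν :=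
      Finset.prod_pos fun ν _ => (E.abs_pos hm0 ν).trans_le (hm P₀ hP₀' ν).2
    have hT0 : 0 ≤ ∏ ν, T u ν :=
      Finset.prod_nonneg fun ν _ => (abs_nonneg _).trans (hx u P₀ hP₀' ν).2
    have e2 : ∏ ν, Tm ν ≤ κ ^ Fintype.card V * E.N (mc P₀) := by
      rw [Emb.N, ← Finset.card_univ, ← Finset.prod_const, ← Finset.prod_mul_distrib]
      exact Finset.prod_le_prod (fun ν _ => (abs_nonneg _).trans (hm P₀ hP₀' ν).2)
        fun ν _ => (hm P₀ hP₀' ν).1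
    refine (moment_le hS hm0 ((E.N_le_of_dvd (hmc P₀ hP₀) (h.ne P₀ hP₀').2.2).trans
      ((E.N_le_pow fun ν => (h.rc P₀ hP₀' ν).2.trans (h.box ν).2.2).trans hB)) _ (hk u).1 (hk u).2
      (T u) hW (hκ u) hβ (hTβ u) hB (Q := (∏ ν, T u ν) ^ n u / ∏ ν, Tm ν) (by positivity) ?_ Z
      fun p hp => ⟨(hZ p hp).1, (hZ p hp).2.1, ?_⟩).trans (le_trans ?_ (hA u))
    · rw [div_mul_eq_mul_div, le_div_iff₀ hTm]
      gcongr
    · have h1 : ∏ i, cu (p.2 i) ^ k u = ∏ i, cu (p.1 i) ^ k u := by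
        have := (hZ p hp).2.2
        split_ifs at this
        · exact this.symm
        · rw [Finset.prod_inv_distrib, Finset.prod_inv_distrib] at this
          exact (inv_injective this).symm
      have h2 := congrArg Units.val h1
      rw [← hker]
      simp only [Units.coe_prod, Units.val_pow_eq_pow_val] at h2
      simp only [map_pow, map_prod, ← Finset.prod_pow]
      rw [← Finset.prod_congr rfl fun i _ => congrArg (· ^ k u) (hcu _ (hW _ ((hZ p hp).2.1 i)).2.1),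
        ← Finset.prod_congr rfl fun i _ => congrArg (· ^ k u) (hcu _ (hW _ ((hZ p hp).1 i)).2.1)]
      exact h2
    · have h1 : ((S₁.image (x u)).card : ℝ) ≤ s u :=
        le_trans (Nat.cast_le.2 (Finset.card_le_card (Finset.image_subset_image hS₁))) (ix u)
      gcongr
  · obtain ⟨P, hP, rfl⟩ := Finset.mem_image.1 hf
    refine ⟨fun u => Finset.mem_image_of_mem _ hP, Units.ext ?_⟩
    have hYu : ∀ P ∈ S₁, IsCoprime (mc P₀) (Y P) := fun P hP =>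
      (hcb P hP).of_isCoprime_of_dvd_right ⟨mb P₀, by rw [eb P hP, mul_comm]⟩
    have h1 : φ (X P * Y P₀) = φ (X P₀ * Y P) := by
      rw [hker]
      refine IsCoprime.dvd_of_dvd_mul_left (y := ma P₀ * mb P₀) ?_ ?_
      · exact ((hca P₀ hP₀).of_isCoprime_of_dvd_right ⟨_, ea P₀ hP₀⟩).mul_right
          ((hcb P₀ hP₀).of_isCoprime_of_dvd_right ⟨_, eb P₀ hP₀⟩)
      · have e := h.cross_ca (hS₁ hP) hP₀'
        have e1 : ma P₀ * mb P₀ * (X P * Y P₀ - X P₀ * Y P) = c P * a P₀ - c P₀ * a P := by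
          rw [e, ea P hP, ea P₀ hP₀, eb P hP, eb P₀ hP₀]; ring
        rw [e1]
        exact dvd_sub ((hmc P hP).mul_right _) ((hmc P₀ hP₀).mul_right _)
    rw [map_mul, map_mul, ← hval P hP, ← hval P₀ hP₀, ← hcu _ (hYu P hP), ← hcu _ (hYu P₀ hP₀),
      mul_right_comm _ (cu (Y P₀) : R ⧸ Ideal.span {mc P₀})] at h1
    exact (Units.mul_left_inj _).1 ((Units.mul_left_inj _).1 h1)

end Pool.Agent.MP_2a5a28_nt.H39

/-! From factorisations into items to the bounds for one dyadic class. -/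

namespace Pool.Agent.MP_2a5a28_nt.H39

open Finset UniqueFactorizationMonoid

set_option linter.unusedSectionVars false

/-- Product of powers of the items. -/
def pw {M : Type*} [CommMonoid M] (n : ℕ) (x : ℕ → M) (f : ℕ → ℕ) : M := ∏ j ∈ range n, x j ^ f j

theorem pw_split {M : Type*} [CommMonoid M] {n : ℕ} (x : ℕ → M) {e f₁ f₂ f₃ f₄ : ℕ → ℕ} {i : ℕ}
    (h : ∀ j < n, e j = f₁ j + f₂ j + f₃ j + i * f₄ j) :
    pw n x e = pw n x f₁ * pw n x f₂ * (pw n x f₃ * pw n x f₄ ^ i) := by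
  simp only [pw, ← Finset.prod_pow, ← Finset.prod_mul_distrib]
  refine Finset.prod_congr rfl fun j hj => ?_
  rw [h j (Finset.mem_range.1 hj), pow_add, pow_add, pow_add, mul_comm i, pow_mul, mul_assoc]

theorem pw_zero {M : Type*} [CommMonoid M] {n : ℕ} (x : ℕ → M) {f : ℕ → ℕ} (h : ∀ j < n, f j = 0) :
    pw n x f = 1 :=
  Finset.prod_eq_one fun j hj => by rw [h j (Finset.mem_range.1 hj), pow_zero]

theorem pw_split₃ {M : Type*} [CommMonoid M] {n : ℕ} (x : ℕ → M) {e f₁ f₃ f₄ : ℕ → ℕ} {i : ℕ}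
    (h : ∀ j < n, e j = f₁ j + f₃ j + i * f₄ j) : pw n x e = pw n x f₁ * (pw n x f₃ * pw n x f₄ ^ i) := by
  rw [pw_split x (f₁ := f₁) (f₂ := fun _ => 0) (f₃ := f₃) (f₄ := f₄) (i := i) (by simpa using h),
    pw_zero x (f := fun _ => 0) (fun _ _ => rfl), mul_one]

theorem pw_split₂ {M : Type*} [CommMonoid M] {n : ℕ} (x : ℕ → M) {e f₁ f₄ : ℕ → ℕ} {i : ℕ}
    (h : ∀ j < n, e j = f₁ j + i * f₄ j) : pw n x e = pw n x f₁ * pw n x f₄ ^ i := by
  rw [pw_split₃ x (f₁ := f₁) (f₃ := fun _ => 0) (f₄ := f₄) (i := i) (by simpa using h),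
    pw_zero x (f := fun _ => 0) (fun _ _ => rfl), one_mul]

theorem log_div_le {N K x : ℝ} (hN : 0 < N) (hK : 0 < K) (h : N ≤ K * Real.exp x) :
    Real.log (N / K) ≤ x := by
  rw [Real.log_le_iff_le_exp (div_pos hN hK), div_le_iff₀ hK]; linarith

theorem two_log_div_le {N K x : ℝ} (hN : 0 < N) (hK : 1 ≤ K) (h : N ^ 2 ≤ K * Real.exp x) :
    2 * Real.log (N / K) ≤ x := by
  have hK0 : 0 < K := by linarith
  have : Real.log ((N / K) ^ 2) ≤ x := by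
    rw [Real.log_le_iff_le_exp (by positivity), div_pow, div_le_iff₀ (by positivity)]
    have := Real.exp_pos x
    nlinarith [mul_le_mul_of_nonneg_right hK (mul_pos hK0 this).le]
  rwa [Real.log_pow] at this

theorem one_add_le {C K y : ℝ} (hC : 1 ≤ C) (hK : 1 ≤ K) :
    1 + C * (K * Real.exp y) ≤ 2 * C * K ∨ 1 + C * (K * Real.exp y) ≤ 2 * C * K * Real.exp y := by
  have h1 : 1 ≤ C * K := one_le_mul_of_one_le_of_one_le hC hK
  rcases le_total (Real.exp y) 1 with h | h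
  · left; nlinarith
  · right; nlinarith

theorem card_image_prod {α M : Type*} [CommMonoid M] [DecidableEq M] (S : Finset α)
    (g : ℕ → α → M) (m : ℕ → ℝ) (s : Finset ℕ) (h : ∀ j ∈ s, ((S.image (g j)).card : ℝ) ≤ m j) :
    ((S.image fun P => ∏ j ∈ s, g j P).card : ℝ) ≤ ∏ j ∈ s, m j := by
  induction s using Finset.induction_on with
  | empty =>
    simp only [Finset.prod_empty]
    exact card_le_one' _ fun x hx y hy => by
      obtain ⟨_, _, rfl⟩ := Finset.mem_image.1 hx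
      obtain ⟨_, _, rfl⟩ := Finset.mem_image.1 hy
      rfl
  | insert a s ha ih =>
    simp only [Finset.prod_insert ha]
    refine le_trans ?_ (card_image_pair S (g a) (fun P => ∏ j ∈ s, g j P)
      (h a (Finset.mem_insert_self _ _)) (ih fun j hj => h j (Finset.mem_insert_of_mem hj)))
    have : (S.image fun P => g a P * ∏ j ∈ s, g j P) =
        (S.image fun P => (g a P, ∏ j ∈ s, g j P)).image fun q => q.1 * q.2 := by
      rw [Finset.image_image]; rfl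
    rw [this]
    exact_mod_cast Finset.card_image_le

/-- The exponent vector of the items with label `τ`. -/
def fT (K : ℕ) (l : ℕ → ℕ) (τ j : ℕ) : ℕ := if l j = τ then ex K j else 0

/-- The exponent vector of the pure power part. -/
def fI (K : ℕ) (l : ℕ → ℕ) (i j : ℕ) : ℕ := if l j = 3 then ex K j / i else 0

theorem ex_pos (K j : ℕ) : 0 < ex K j := by unfold ex; split_ifs <;> omega

theorem fT_le (K : ℕ) (l : ℕ → ℕ) (τ j : ℕ) : fT K l τ j ≤ ex K j := by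
  unfold fT; split_ifs <;> omega

theorem fI_le (K : ℕ) (l : ℕ → ℕ) (i j : ℕ) : fI K l i j ≤ ex K j := by
  unfold fI; split_ifs
  · exact Nat.div_le_self _ _
  · omega

theorem mul_fI {K : ℕ} {l : ℕ → ℕ} {i j : ℕ} (h : l j = 3 → i ∣ ex K j) :
    i * fI K l i j = fT K l 3 j := by
  unfold fI fT; split_ifs with h3
  · exact Nat.mul_div_cancel' (h h3)
  · rfl

variable {R : Type*} [CommRing R] [IsDomain R] [IsPrincipalIdealRing R] [NormalizationMonoid R]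
  [DecidableEq R] {V : Type*} [Fintype V] {α : Type*}

/-- A group of items. -/
def grp (K : ℕ) (I : ℕ → α → R) (f : ℕ → ℕ) (P : α) : R := pw (K + 1) (fun j => I j P) f

/-- The size of a group of items. -/
def grT (K : ℕ) (T : ℕ → V → ℝ) (f : ℕ → ℕ) (ν : V) : ℝ := pw (K + 1) (fun j => T j ν) f

/-- Logarithmic norms of the items. -/
noncomputable def ell (T : ℕ → ℕ → V → ℝ) (t j : ℕ) : ℝ := Real.log (∏ ν, T t j ν)

/-- Weights of the items. -/
noncomputable def wgt (K : ℕ) (T : ℕ → ℕ → V → ℝ) (t j : ℕ) : ℝ := ex K j * ell T t j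

/-- The largest of the three sizes. -/
noncomputable def topT (K : ℕ) (T : ℕ → ℕ → V → ℝ) (ν : V) : ℝ :=
  max (max (grT K (T 0) (ex K) ν) (grT K (T 1) (ex K) ν)) (grT K (T 2) (ex K) ν)

/-- A dyadic class of triples. -/
structure Cls (E : Emb R V) (K E₀ : ℕ) (S : Finset α) (I : ℕ → ℕ → α → R) (T : ℕ → ℕ → V → ℝ)
    (s : ℕ → ℕ → ℝ) (L Δ β₀ : ℝ) : Prop where
  nonempty : S.Nonempty
  rng : ∀ t < 3, ∀ j < K + 1, Rng E S (I t j) (T t j) 2
  sum : ∀ P ∈ S, grp K (I 0) (ex K) P + grp K (I 1) (ex K) P + grp K (I 2) (ex K) P = 0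
  ne : ∀ t < 3, ∀ j < K + 1, ∀ P ∈ S, I t j P ≠ 0
  cop : ∀ P ∈ S, ∀ a < 3, ∀ b < 3, a ≠ b → IsCoprime (grp K (I a) (ex K) P) (grp K (I b) (ex K) P)
  inj : ∀ P ∈ S, ∀ P' ∈ S, grp K (I 0) (ex K) P * grp K (I 1) (ex K) P' =
    grp K (I 0) (ex K) P' * grp K (I 1) (ex K) P → P = P'
  box : ∀ t < 3, ∀ j < K + 1, ∀ ν, T t j ν ≤ β₀
  one_le_β : 1 ≤ β₀
  two_le : 2 ≤ Δ
  hE : ∑ j ∈ range (K + 1), ex K j ≤ E₀
  img : ∀ t < 3, ∀ j < K + 1, ((S.image (I t j)).card : ℝ) ≤ Δ ^ 2 * Real.exp (s t j)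
  hs : ∀ t < 3, ∀ j < K, s t j = ell T t j
  hs0 : ∀ t < 3, 0 ≤ s t K
  hL : Real.exp L ≤ Δ * ∏ ν, topT K T ν

namespace Cls

variable {E : Emb R V} {K E₀ : ℕ} {S : Finset α} {I : ℕ → ℕ → α → R} {T : ℕ → ℕ → V → ℝ}
  {s : ℕ → ℕ → ℝ} {L Δ β₀ : ℝ} (h : Cls E K E₀ S I T s L Δ β₀)

include h

theorem sum_le {f : ℕ → ℕ} (hf : ∀ j, f j ≤ ex K j) : ∑ j ∈ range (K + 1), f j ≤ E₀ :=
  (Finset.sum_le_sum fun j _ => hf j).trans h.hE

theorem T_pos {t j : ℕ} (ht : t < 3) (hj : j < K + 1) (ν : V) : 0 < T t j ν := by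
  obtain ⟨P, hP⟩ := h.nonempty
  exact (E.abs_pos (h.ne t ht j hj P hP) ν).trans_le (h.rng t ht j hj P hP ν).2

theorem ell_nonneg {t j : ℕ} (ht : t < 3) (hj : j < K + 1) : 0 ≤ ell T t j := by
  obtain ⟨P, hP⟩ := h.nonempty
  exact Real.log_nonneg ((E.one_le_N (h.ne t ht j hj P hP)).trans
    (E.N_le_of_box fun ν => (h.rng t ht j hj P hP ν).2))

theorem grp_ne {t : ℕ} (ht : t < 3) (f : ℕ → ℕ) {P : α} (hP : P ∈ S) : grp K (I t) f P ≠ 0 :=
  Finset.prod_ne_zero_iff.2 fun j hj => pow_ne_zero _ (h.ne t ht j (Finset.mem_range.1 hj) P hP)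

theorem grp_rng {t : ℕ} (ht : t < 3) {f : ℕ → ℕ} (hf : ∀ j, f j ≤ ex K j) :
    Rng E S (grp K (I t) f) (grT K (T t) f) (2 ^ E₀) := by
  intro P hP ν
  have e : |E.σ ν (grp K (I t) f P)| = ∏ j ∈ range (K + 1), |E.σ ν (I t j P)| ^ f j := by
    simp only [grp, pw, map_prod, map_pow, Finset.abs_prod, abs_pow]
  rw [e]
  constructor
  · calc grT K (T t) f ν ≤ ∏ j ∈ range (K + 1), (2 * |E.σ ν (I t j P)|) ^ f j :=
          Finset.prod_le_prod
            (fun j hj => pow_nonneg (h.T_pos ht (Finset.mem_range.1 hj) ν).le _) fun j hj =>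
            pow_le_pow_left₀ (h.T_pos ht (Finset.mem_range.1 hj) ν).le
              (h.rng t ht j (Finset.mem_range.1 hj) P hP ν).1 _
      _ = 2 ^ (∑ j ∈ range (K + 1), f j) * ∏ j ∈ range (K + 1), |E.σ ν (I t j P)| ^ f j := by
          simp only [mul_pow, Finset.prod_mul_distrib, Finset.prod_pow_eq_pow_sum]
      _ ≤ _ := mul_le_mul_of_nonneg_right (pow_le_pow_right₀ (by norm_num) (h.sum_le hf))
          (Finset.prod_nonneg fun _ _ => by positivity)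
  · exact Finset.prod_le_prod (fun _ _ => by positivity) fun j hj =>
      pow_le_pow_left₀ (abs_nonneg _) (h.rng t ht j (Finset.mem_range.1 hj) P hP ν).2 _

theorem grT_le {t : ℕ} (ht : t < 3) {f : ℕ → ℕ} (hf : ∀ j, f j ≤ ex K j) (ν : V) :
    grT K (T t) f ν ≤ β₀ ^ E₀ := by
  calc grT K (T t) f ν ≤ ∏ j ∈ range (K + 1), β₀ ^ f j :=
        Finset.prod_le_prod
          (fun j hj => pow_nonneg (h.T_pos ht (Finset.mem_range.1 hj) ν).le _) fun j hj =>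
          pow_le_pow_left₀ (h.T_pos ht (Finset.mem_range.1 hj) ν).le
            (h.box t ht j (Finset.mem_range.1 hj) ν) _
    _ ≤ _ := by
        rw [Finset.prod_pow_eq_pow_sum]
        exact pow_le_pow_right₀ h.one_le_β (h.sum_le hf)

theorem s_nonneg {t j : ℕ} (ht : t < 3) (hj : j < K + 1) : 0 ≤ s t j := by
  rcases Nat.lt_succ_iff_lt_or_eq.1 hj with h1 | rfl
  · rw [h.hs t ht j h1]; exact h.ell_nonneg ht hj
  · exact h.hs0 t ht

theorem grp_img {t : ℕ} (ht : t < 3) (l : ℕ → ℕ) (τ : ℕ) :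
    ((S.image (grp K (I t) (fT K l τ))).card : ℝ) ≤
      Δ ^ (2 * (K + 1)) * Real.exp (SL (K + 1) (s t) l τ) := by
  have hK : 1 ≤ Δ ^ 2 := one_le_pow₀ (by linarith [h.two_le])
  refine (card_image_prod S (fun j P => I t j P ^ fT K l τ j)
    (fun j => Δ ^ 2 * Real.exp (if l j = τ then s t j else 0))
    (range (K + 1)) fun j hj => ?_).trans (le_of_eq ?_)
  · by_cases h0 : l j = τ
    · rw [if_pos h0]
      refine le_trans ?_ (h.img t ht j (Finset.mem_range.1 hj))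
      have : (S.image fun P => I t j P ^ fT K l τ j) =
          (S.image (I t j)).image fun q => q ^ fT K l τ j := by
        rw [Finset.image_image]; rfl
      rw [this]
      exact_mod_cast Finset.card_image_le
    · simp only [fT, h0, pow_zero, if_false, Real.exp_zero, mul_one]
      refine le_trans (card_le_one' _ fun x hx y hy => ?_) hK
      obtain ⟨_, _, rfl⟩ := Finset.mem_image.1 hx
      obtain ⟨_, _, rfl⟩ := Finset.mem_image.1 hy
      rfl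
  · rw [Finset.prod_mul_distrib, Finset.prod_const, Finset.card_range, SL, Real.exp_sum, pow_mul]

theorem prod_grT {t : ℕ} (ht : t < 3) (f : ℕ → ℕ) :
    ∏ ν, grT K (T t) f ν = Real.exp (∑ j ∈ range (K + 1), f j * ell T t j) := by
  simp only [grT, pw]
  rw [Finset.prod_comm, Real.exp_sum]
  refine Finset.prod_congr rfl fun j hj => ?_
  rw [Finset.prod_pow, Real.exp_nat_mul, ell,
    Real.exp_log (Finset.prod_pos fun ν _ => h.T_pos ht (Finset.mem_range.1 hj) ν)]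

theorem prod_fT {t : ℕ} (ht : t < 3) (l : ℕ → ℕ) (τ : ℕ) :
    ∏ ν, grT K (T t) (fT K l τ) ν = Real.exp (SL (K + 1) (wgt K T t) l τ) := by
  rw [h.prod_grT ht, SL]
  congr 1
  refine Finset.sum_congr rfl fun j _ => ?_
  unfold fT wgt
  split_ifs <;> simp

theorem prod_fI {t : ℕ} (ht : t < 3) {l : ℕ → ℕ} {i : ℕ} (hi : 1 ≤ i)
    (hl : ∀ j < K + 1, l j = 3 → i ∣ ex K j) :
    ∏ ν, grT K (T t) (fI K l i) ν = Real.exp (SL (K + 1) (wgt K T t) l 3 / i) := by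
  rw [h.prod_grT ht, SL, Finset.sum_div]
  congr 1
  refine Finset.sum_congr rfl fun j hj => ?_
  have h1 : (0 : ℝ) < i := by exact_mod_cast hi
  have h2 : (i : ℝ) * fI K l i j = fT K l 3 j := by
    exact_mod_cast mul_fI (hl j (Finset.mem_range.1 hj))
  rw [eq_div_iff h1.ne', mul_right_comm, mul_comm _ (i : ℝ), h2]
  unfold fT wgt
  split_ifs <;> simp

theorem tri {a b c : ℕ} (r : Roles a b c) :
    Tri E S (grp K (I a) (ex K)) (grp K (I b) (ex K)) (grp K (I c) (ex K)) (grT K (T a) (ex K)) (grT K (T b) (ex K))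
      (grT K (T c) (ex K)) (topT K T) (2 ^ E₀) (β₀ ^ E₀) := by
  obtain ⟨ha, hb, hc, hab, hac, hbc⟩ := r
  have hex : ∀ j, ex K j ≤ ex K j := fun _ => le_rfl
  refine ⟨one_le_pow₀ (by norm_num), fun P hP => ?_,
    fun P hP => ⟨h.grp_ne ha _ hP, h.grp_ne hb _ hP, h.grp_ne hc _ hP⟩,
    fun P hP => ⟨h.cop P hP a ha b hb hab, h.cop P hP a ha c hc hac, h.cop P hP b hb c hc hbc⟩,
    fun P hP P' hP' e => h.inj P hP P' hP' ?_, h.grp_rng ha hex, h.grp_rng hb hex,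
    h.grp_rng hc hex, fun ν => ?_, fun ν => ⟨h.grT_le ha hex ν, h.grT_le hb hex ν, h.grT_le hc hex ν⟩⟩
  · have := h.sum P hP
    interval_cases a <;> interval_cases b <;> interval_cases c <;>
      first | contradiction | linear_combination this
  · have s1 := h.sum P hP
    have s2 := h.sum P' hP'
    interval_cases a <;> interval_cases b <;> first
      | contradiction
      | linear_combination e
      | linear_combination -e
      | linear_combination -e + grp K (I 0) (ex K) P * s2 - grp K (I 0) (ex K) P' * s1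
      | linear_combination e + grp K (I 0) (ex K) P * s2 - grp K (I 0) (ex K) P' * s1
      | linear_combination e - grp K (I 1) (ex K) P * s2 + grp K (I 1) (ex K) P' * s1
      | linear_combination -e - grp K (I 1) (ex K) P * s2 + grp K (I 1) (ex K) P' * s1
  · have : topT K T ν = grT K (T 0) (ex K) ν ∨ topT K T ν = grT K (T 1) (ex K) ν ∨ topT K T ν = grT K (T 2) (ex K) ν := by
      unfold topT
      rcases max_choice (max (grT K (T 0) (ex K) ν) (grT K (T 1) (ex K) ν)) (grT K (T 2) (ex K) ν) with e | e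
      · rcases max_choice (grT K (T 0) (ex K) ν) (grT K (T 1) (ex K) ν) with e' | e'
        · exact Or.inl (e.trans e')
        · exact Or.inr (Or.inl (e.trans e'))
      · exact Or.inr (Or.inr e)
    interval_cases a <;> interval_cases b <;> interval_cases c <;> first | contradiction | tauto

theorem exp_le (y : ℝ) : Real.exp y ≤ Δ * Real.exp (y - L) * ∏ ν, topT K T ν := by
  have h1 := mul_le_mul_of_nonneg_left h.hL (Real.exp_pos (y - L)).le
  rw [← Real.exp_add, sub_add_cancel] at h1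
  linarith

theorem log_le {m : ℕ} (hm : m ≤ 50 * (K + 1)) {x : ℝ} (hx : (S.card : ℝ) ≤ Δ ^ m * Real.exp x) :
    Real.log (S.card / Δ ^ (50 * (K + 1))) ≤ x := by
  have hΔ : 1 ≤ Δ := by linarith [h.two_le]
  refine log_div_le (by exact_mod_cast h.nonempty.card_pos) (by positivity) (hx.trans ?_)
  gcongr

theorem two_log_le {m : ℕ} (hm : m ≤ 50 * (K + 1)) {x : ℝ}
    (hx : (S.card : ℝ) ^ 2 ≤ Δ ^ m * Real.exp x) :
    2 * Real.log (S.card / Δ ^ (50 * (K + 1))) ≤ x := by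
  have hΔ : 1 ≤ Δ := by linarith [h.two_le]
  refine two_log_div_le (by exact_mod_cast h.nonempty.card_pos) (one_le_pow₀ hΔ) (hx.trans ?_)
  gcongr

theorem one_add (y : ℝ) :
    1 + Δ * (Δ * Real.exp y) ≤ Δ ^ 3 ∨ 1 + Δ * (Δ * Real.exp y) ≤ Δ ^ 3 * Real.exp y := by
  have h2 := h.two_le
  have h3 : 2 * Δ * Δ ≤ Δ ^ 3 := by nlinarith [mul_nonneg (sub_nonneg.2 h2) (mul_self_nonneg Δ)]
  have := Real.exp_pos y
  exact (one_add_le (y := y) (C := Δ) (K := Δ) (by linarith) (by linarith)).imp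
    (fun e => e.trans h3) fun e => e.trans (by gcongr)

theorem pc {B : ℝ} (hS : Ctx E K (2 ^ E₀) B Δ)
    (hB : (2 * E.c * (β₀ ^ E₀) ^ 2) ^ Fintype.card V ≤ B) :
    PC (K + 1) K (fun _ j i => i ∣ ex K j) s (wgt K T) L
      (Real.log (S.card / Δ ^ (50 * (K + 1)))) := by
  have h2 := h.two_le
  have hΔ : 1 ≤ Δ := by linarith
  have hβ := (box_ineqs E.pos_card E.one_le_c (one_le_pow₀ h.one_le_β) hB).2.2.2.2.2
  refine ⟨fun a b c r => ?_, fun a b c r i hi1 hi4 la lb lc hf => ?_,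
    fun a b c r i g hi4 hg1 hg4 la lb lc hf hend => ?_⟩
  · have e1 : fT K (fun _ => 0) 0 = ex K := by funext j; simp [fT]
    have k1 := h.grp_img r.2.1 (fun _ => 0) 0
    have k2 := h.grp_img r.2.2.1 (fun _ => 0) 0
    rw [e1] at k1 k2
    simp only [SL, if_true] at k1 k2
    refine h.log_le (m := 4 * (K + 1)) (by omega) (((h.tri r).toolT k1 k2).trans (le_of_eq ?_))
    rw [Real.exp_add]; ring
  · obtain ⟨ha, hb, hc, -⟩ := id r
    have da : ∀ j < K + 1, la j = 3 → i ∣ ex K j := fun j hj e => by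
      rcases (hf j hj).1 with e' | e'
      · omega
      · exact e'.2
    have db : ∀ j < K + 1, lb j = 3 → i ∣ ex K j := fun j hj e => by
      rcases (hf j hj).2.1 with e' | e'
      · omega
      · exact e'.2
    have sp : ∀ {l : ℕ → ℕ} {i : ℕ}, (∀ j < K + 1, l j = 0 ∨ l j = 3) →
        (∀ j < K + 1, l j = 3 → i ∣ ex K j) →
        ∀ j < K + 1, ex K j = fT K l 0 j + i * fI K l i j := fun {l i} h1 h2 j hj => by
      rw [mul_fI (h2 j hj)]
      unfold fT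
      rcases h1 j hj with e | e <;> simp [e]
    have sa := sp (fun j hj => (hf j hj).1.imp id And.left) da
    have sb := sp (fun j hj => (hf j hj).2.1.imp id And.left) db
    have sc := sp (i := 1) (fun j hj => (hf j hj).2.2) fun _ _ _ => one_dvd _
    have key := toolP (h.tri r) hS hβ i hi1 hi4 (grp K (I a) (fT K la 0)) (grp K (I a) (fI K la i))
      (grp K (I b) (fT K lb 0)) (grp K (I b) (fI K lb i)) (grp K (I c) (fT K lc 0))
      (grp K (I c) (fI K lc 1)) (grT K (T a) (fI K la i)) (grT K (T b) (fI K lb i))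
      (grT K (T c) (fT K lc 0)) (grT K (T c) (fI K lc 1)) (fun P _ => pw_split₂ _ sa)
      (fun P _ => pw_split₂ _ sb) (fun P _ => (pw_split₂ _ sc).trans (by rw [pow_one]; rfl))
      (h.grp_rng ha (fI_le _ _ _)) (h.grp_rng hb (fI_le _ _ _)) (h.grp_rng hc (fT_le _ _ _))
      (fun ν => (pw_split₂ _ sc).trans (by rw [pow_one]; rfl))
      (h.grp_img ha la 0) (h.grp_img hb lb 0) (h.grp_img hc lc 0)
      (Q := Δ * Real.exp ((SL (K + 1) (wgt K T a) la 3 + SL (K + 1) (wgt K T b) lb 3) / i +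
        SL (K + 1) (wgt K T c) lc 3 - L))
      (by positivity) (by
        rw [Finset.prod_mul_distrib, Finset.prod_mul_distrib, h.prod_fI ha hi1 da,
          h.prod_fI hb hi1 db, h.prod_fI hc le_rfl fun _ _ _ => one_dvd _, ← Real.exp_add,
          ← Real.exp_add, ← add_div, Nat.cast_one, div_one]
        exact h.exp_le _)
    generalize (SL (K + 1) (wgt K T a) la 3 + SL (K + 1) (wgt K T b) lb 3) / i +
      SL (K + 1) (wgt K T c) lc 3 - L = y at key ⊢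
    generalize SL (K + 1) (s a) la 0 = s₁ at key ⊢
    generalize SL (K + 1) (s b) lb 0 = s₂ at key ⊢
    generalize SL (K + 1) (s c) lc 0 = s₃ at key ⊢
    rcases h.one_add y with e | e
    · refine Or.inl (h.log_le (m := 6 * (K + 1) + 7) (by omega) (key.trans ?_))
      calc _ ≤ Δ ^ (2 * (K + 1)) * Real.exp s₁ * (Δ ^ (2 * (K + 1)) * Real.exp s₂ *
            (Δ ^ (2 * (K + 1)) * Real.exp s₃)) * (Δ ^ 4 * Δ ^ 3) := by gcongr
        _ = _ := by simp only [Real.exp_add]; ring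
    · refine Or.inr (h.log_le (m := 6 * (K + 1) + 7) (by omega) (key.trans ?_))
      calc _ ≤ Δ ^ (2 * (K + 1)) * Real.exp s₁ * (Δ ^ (2 * (K + 1)) * Real.exp s₂ *
            (Δ ^ (2 * (K + 1)) * Real.exp s₃)) * (Δ ^ 4 * (Δ ^ 3 * Real.exp y)) := by gcongr
        _ = _ := by simp only [Real.exp_add]; ring
  · obtain ⟨ha, hb, hc, -⟩ := id r
    have da : ∀ j < K + 1, la j = 3 → i ∣ ex K j := fun j hj e => by
      rcases (hf j hj).1 with e' | e'
      · omega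
      · exact e'.2
    have db : ∀ j < K + 1, lb j = 3 → g ∣ ex K j := fun j hj e => by
      rcases (hf j hj).2.1 with e' | e' | e'
      · omega
      · omega
      · exact e'.2
    have dc : ∀ j < K + 1, lc j = 3 → g ∣ ex K j := fun j hj e => by
      rcases (hf j hj).2.2 with e' | e'
      · omega
      · exact e'.2
    have sp : ∀ {l : ℕ → ℕ} {i : ℕ}, (∀ j < K + 1, l j ≤ 3) → (∀ j < K + 1, l j = 3 → i ∣ ex K j) →
        ∀ j < K + 1, ex K j = fT K l 1 j + fT K l 0 j + fT K l 2 j + i * fI K l i j :=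
      fun {l i} h1 h2 j hj => by
        rw [mul_fI (h2 j hj)]
        unfold fT
        have := h1 j hj
        interval_cases l j <;> simp
    have sa := sp (fun j hj => by have := (hf j hj).1; omega) da
    have sc := sp (fun j hj => by have := (hf j hj).2.2; omega) dc
    have sb : ∀ j < K + 1, ex K j = fT K lb 0 j + fT K lb 2 j + g * fI K lb g j := fun j hj => by
      rw [mul_fI (db j hj)]
      unfold fT
      rcases (hf j hj).2.1 with e | e | e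
      · simp [e]
      · simp [e]
      · simp [e.1]
    have px : ∀ ν, grT K (T a) (fI K la i) ν ^ i = grT K (T a) (fT K la 3) ν := fun ν => by
      have := pw_split₂ (fun j => T a j ν) (e := fT K la 3) (f₁ := fun _ => 0)
        (fun j hj => by rw [mul_fI (da j hj), zero_add])
      rw [pw_zero _ (f := fun _ => 0) (fun _ _ => rfl), one_mul] at this
      exact this.symm
    have key := toolC (h.tri r) hS hB hi4 hg1 hg4 (aO := grp K (I a) (fT K la 1))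
      (ao := grp K (I a) (fT K la 0)) (ae := grp K (I a) (fT K la 2))
      (x := grp K (I a) (fI K la i)) (bo := grp K (I b) (fT K lb 0))
      (be := grp K (I b) (fT K lb 2)) (y := grp K (I b) (fI K lb g))
      (cO := grp K (I c) (fT K lc 1)) (co := grp K (I c) (fT K lc 0))
      (ce := grp K (I c) (fT K lc 2)) (z := grp K (I c) (fI K lc g))
      ⟨fun P _ => pw_split _ sa, fun P _ => pw_split₃ _ sb, fun P _ => pw_split _ sc⟩
      (grT K (T a) (fI K la i)) (grT K (T b) (fI K lb g)) (grT K (T c) (fI K lc g))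
      (grT K (T a) (fT K la 1))
      (fun ν => grT K (T a) (fT K la 0) ν * (grT K (T a) (fT K la 2) ν *
        grT K (T a) (fI K la i) ν ^ i))
      (h.grp_rng ha (fI_le _ _ _)) (h.grp_rng hb (fI_le _ _ _)) (h.grp_rng hc (fI_le _ _ _))
      (h.grp_rng ha (fT_le _ _ _)) (fun ν => (pw_split _ sa).trans (mul_assoc _ _ _))
      (fun ν => ⟨h.grT_le ha (fI_le _ _ _) ν, h.grT_le hb (fI_le _ _ _) ν,
        h.grT_le hc (fI_le _ _ _) ν⟩)
      (fun P hP ν => (h.grp_rng ha (fT_le _ _ _) P hP ν).2.trans (h.grT_le ha (fT_le _ _ _) ν))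
      (hend.imp (fun e P _ => pw_zero _ fun j hj => if_neg (e j hj)) fun e =>
        ⟨e.1, fun P _ => ⟨pw_zero _ fun j hj => if_neg (e.2 j hj).1,
          pw_zero _ fun j hj => if_neg (e.2 j hj).2⟩⟩)
      (h.grp_img ha la 1) (h.grp_img hc lc 1) (h.grp_img ha la 2) (h.grp_img hb lb 2)
      (h.grp_img hc lc 2) (h.grp_img ha la 0) (h.grp_img hb lb 0) (h.grp_img hc lc 0)
      (Q := Δ * Real.exp (2 * ((SL (K + 1) (wgt K T b) lb 3 + SL (K + 1) (wgt K T c) lc 3) / g) +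
        (SL (K + 1) (wgt K T a) la 0 + SL (K + 1) (wgt K T a) la 2 +
          SL (K + 1) (wgt K T a) la 3) - L))
      (by positivity) (by
        refine le_trans (le_of_eq ?_) (h.exp_le _)
        simp only [px, Finset.prod_mul_distrib, Finset.prod_pow, h.prod_fT ha, h.prod_fI hb hg1 db,
          h.prod_fI hc hg1 dc, Real.exp_add, two_mul, add_div]
        ring)
    generalize 2 * ((SL (K + 1) (wgt K T b) lb 3 + SL (K + 1) (wgt K T c) lc 3) / g) +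
      (SL (K + 1) (wgt K T a) la 0 + SL (K + 1) (wgt K T a) la 2 +
        SL (K + 1) (wgt K T a) la 3) - L = y at key ⊢
    generalize SL (K + 1) (s a) la 1 = s₁ at key ⊢
    generalize SL (K + 1) (s c) lc 1 = s₂ at key ⊢
    generalize SL (K + 1) (s a) la 2 = s₃ at key ⊢
    generalize SL (K + 1) (s b) lb 2 = s₄ at key ⊢
    generalize SL (K + 1) (s c) lc 2 = s₅ at key ⊢
    generalize SL (K + 1) (s a) la 0 = s₆ at key ⊢
    generalize SL (K + 1) (s b) lb 0 = s₇ at key ⊢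
    generalize SL (K + 1) (s c) lc 0 = s₈ at key ⊢
    rcases key with key | key
    · refine Or.inl (h.log_le (m := 10 * (K + 1) + 1) (by omega) (key.trans ?_))
      calc _ = 2 * (Δ ^ (10 * (K + 1)) * Real.exp (s₁ + s₆ + s₇ + s₂ + s₈)) := by
            simp only [Real.exp_add]; ring
        _ ≤ Δ * (Δ ^ (10 * (K + 1)) * Real.exp (s₁ + s₆ + s₇ + s₂ + s₈)) := by gcongr
        _ = _ := by ring
    · right
      have e0 : (S.card : ℝ) ^ 2 ≤ Δ * (Δ ^ (26 * (K + 1) + 17) *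
          Real.exp (s₁ + s₆ + s₇ + s₂ + s₈ + (s₁ + s₂ + 2 * (s₃ + s₄ + s₅))) *
          (1 + Δ * (Δ * Real.exp y))) := by
        refine key.trans ?_
        calc _ = 2 * (Δ ^ (26 * (K + 1) + 17) *
              Real.exp (s₁ + s₆ + s₇ + s₂ + s₈ + (s₁ + s₂ + 2 * (s₃ + s₄ + s₅))) *
              (1 + Δ * (Δ * Real.exp y))) := by
              simp only [Real.exp_add, two_mul (s₃ + s₄ + s₅)]; ring
          _ ≤ _ := by gcongr
      rcases h.one_add y with e | e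
      · refine Or.inl (h.two_log_le (m := 26 * (K + 1) + 21) (by omega) (e0.trans ?_))
        calc _ ≤ Δ * (Δ ^ (26 * (K + 1) + 17) *
              Real.exp (s₁ + s₆ + s₇ + s₂ + s₈ + (s₁ + s₂ + 2 * (s₃ + s₄ + s₅))) * Δ ^ 3) := by
              gcongr
          _ = _ := by ring
      · refine Or.inr (h.two_log_le (m := 26 * (K + 1) + 21) (by omega) (e0.trans ?_))
        calc _ ≤ Δ * (Δ ^ (26 * (K + 1) + 17) *
              Real.exp (s₁ + s₆ + s₇ + s₂ + s₈ + (s₁ + s₂ + 2 * (s₃ + s₄ + s₅))) *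
              (Δ ^ 3 * Real.exp y)) := by gcongr
          _ = _ := by rw [Real.exp_add _ y]; ring

omit h in
theorem moment_const {Δ s Q : ℝ} {n : ℕ} (h2 : 2 ≤ Δ) (hn : 1 ≤ n) :
    (Δ ^ 2 * Real.exp s) ^ n * (Δ ^ 4 * (1 + Δ * (Real.exp s ^ n / Real.exp Q)) * Δ ^ n) ≤
      (Δ ^ 6 * Real.exp (cost s n Q)) ^ (2 * n) := by
  have hΔ : 1 ≤ Δ := by linarith
  have hn' : (0 : ℝ) < n := by exact_mod_cast hn
  have e1 : Real.exp s ^ n ≤ Real.exp (cost s n Q) ^ (2 * n) := by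
    rw [← Real.exp_nat_mul, ← Real.exp_nat_mul, Real.exp_le_exp]
    have : s / 2 ≤ cost s n Q := le_max_left _ _
    push_cast
    nlinarith
  have e2 : Real.exp s ^ n * (Real.exp s ^ n / Real.exp Q) ≤ Real.exp (cost s n Q) ^ (2 * n) := by
    rw [← Real.exp_nat_mul, ← Real.exp_nat_mul, ← Real.exp_sub, ← Real.exp_add, Real.exp_le_exp]
    have h1 : s - Q / (2 * n) ≤ cost s n Q := le_max_right _ _
    have h3 := mul_le_mul_of_nonneg_left h1 (by positivity : (0 : ℝ) ≤ 2 * n)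
    rw [mul_sub, mul_div_cancel₀ _ (by positivity)] at h3
    push_cast
    linarith
  rw [mul_pow (Δ ^ 6), ← pow_mul Δ 6]
  generalize Real.exp (cost s n Q) ^ (2 * n) = Y at e1 e2 ⊢
  have e3 : 0 < Real.exp s ^ n := by positivity
  calc _ = Δ ^ (3 * n + 4) * (Real.exp s ^ n +
        Δ * (Real.exp s ^ n * (Real.exp s ^ n / Real.exp Q))) := by ring
    _ ≤ Δ ^ (3 * n + 4) * (Δ ^ 2 * Y) := by
        gcongr
        nlinarith [mul_nonneg (sub_nonneg.2 h2) (e3.le.trans e1),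
          mul_nonneg (mul_nonneg (sub_nonneg.2 h2) (e3.le.trans e1)) (zero_le_one.trans hΔ)]
    _ = Δ ^ (3 * n + 6) * Y := by ring
    _ ≤ Δ ^ (6 * (2 * n)) * Y := by
        have := e3.le.trans e1
        gcongr
        omega

theorem rh {B : ℝ} {N : ℕ} (hS : Ctx E K (2 ^ E₀) B Δ)
    (hfin : ∀ q : R, q ≠ 0 → Finite (R ⧸ Ideal.span {q})) (hN : N * K + 1 ≤ E₀)
    (hB : (2 * E.c * (β₀ ^ E₀) ^ 2) ^ Fintype.card V ≤ B) :
    RH K N s (wgt K T) (Real.log (S.card / Δ ^ (50 * (K + 1)))) := by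
  intro a b c r lc na nb hle ha0 hb0 hbud
  have h2 := h.two_le
  have hΔ : 1 ≤ Δ := by linarith
  have hK := hS.one_le_G
  have hβ := (box_ineqs E.pos_card E.one_le_c (one_le_pow₀ h.one_le_β) hB).2.2.2.2.2
  obtain ⟨ha, hb, hc, -⟩ := id r
  obtain ⟨nn, hnn⟩ : ∃ nn : Bool × ℕ → ℕ, nn = fun p => if p.1 then na p.2 else nb p.2 := ⟨_, rfl⟩
  obtain ⟨ro, hro⟩ : ∃ ro : Bool → ℕ, ro = fun p => if p then a else b := ⟨_, rfl⟩
  obtain ⟨U, hU⟩ : ∃ U : Finset (Bool × ℕ),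
    U = (univ ×ˢ range (K + 1)).filter fun p => nn p ≠ 0 := ⟨_, rfl⟩
  have hro3 : ∀ p, ro p < 3 := fun p => by rw [hro]; dsimp only; split_ifs <;> assumption
  have hmem : ∀ u : U, u.1.2 < K ∧ 1 ≤ nn u ∧ nn u ≤ N := by
    rintro ⟨⟨p, j⟩, hu⟩
    rw [hU, Finset.mem_filter, Finset.mem_product, Finset.mem_range] at hu
    have h1 := hu.1.2
    have h3 := hu.2
    have h4 := hle j
    have h5 : j ≠ K := by
      rintro rfl
      rw [hnn] at h3
      cases p <;> simp_all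
    refine ⟨by dsimp only at h1 ⊢; omega, by dsimp only; omega, ?_⟩
    rw [hnn]; cases p <;> simp [h4]
  have hprod : ∀ {M : Type _} [CommMonoid M] (f : Bool × ℕ → M), ∏ u : U, f u =
      (∏ j ∈ range (K + 1), if na j = 0 then 1 else f (true, j)) *
      ∏ j ∈ range (K + 1), if nb j = 0 then 1 else f (false, j) := by
    intro M _ f
    rw [Finset.prod_coe_sort U f, hU, Finset.prod_filter, Finset.prod_product, Fintype.prod_bool,
      hnn]
    simp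
  have hsum : ∀ f : Bool × ℕ → ℝ, ∑ u : U, f u =
      (∑ j ∈ range (K + 1), if na j = 0 then 0 else f (true, j)) +
      ∑ j ∈ range (K + 1), if nb j = 0 then 0 else f (false, j) := by
    intro f
    rw [Finset.sum_coe_sort U f, hU, Finset.sum_filter, Finset.sum_product, Fintype.sum_bool, hnn]
    simp
  have hcard : Fintype.card U ≤ 2 * (K + 1) := by
    rw [Fintype.card_coe, hU]
    refine (Finset.card_filter_le _ _).trans ?_
    simp
  obtain ⟨Q, hQ⟩ : ∃ Q, Q = SL (K + 1) (wgt K T c) lc 1 := ⟨_, rfl⟩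
  rw [← hQ]
  have key := toolH (h.tri r) hS hfin (one_le_pow₀ h.one_le_β) hβ (ι := U) (fun u => u.1.1 = true)
    (fun u => ex K u.1.2) (fun u => nn u) (fun u => I (ro u.1.1) u.1.2) (fun u => T (ro u.1.1) u.1.2)
    (grp K (I a) (fT K na 0)) (grp K (I b) (fT K nb 0)) (grp K (I c) (fT K lc 1))
    (grp K (I c) fun j => ex K j - fT K lc 1 j) (grT K (T c) (fT K lc 1))
    (fun P _ => by
      rw [hprod fun p => if p.1 = true then I (ro p.1) p.2 P ^ ex K p.2 else 1, hro]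
      simp only [grp, pw, fT, if_true, Bool.false_eq_true, if_false, ite_self,
        Finset.prod_const_one, mul_one, ← Finset.prod_mul_distrib]
      refine Finset.prod_congr rfl fun j _ => ?_
      split_ifs <;> simp)
    (fun P _ => by
      rw [hprod fun p => if p.1 = true then 1 else I (ro p.1) p.2 P ^ ex K p.2, hro]
      simp only [grp, pw, fT, if_true, Bool.false_eq_true, if_false, ite_self,
        Finset.prod_const_one, one_mul, ← Finset.prod_mul_distrib]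
      refine Finset.prod_congr rfl fun j _ => ?_
      split_ifs <;> simp)
    (fun P _ => (pw_split₂ _ (f₁ := fT K lc 1) (f₄ := fun j => ex K j - fT K lc 1 j) (i := 1)
      fun j _ => by have := fT_le K lc 1 j; omega).trans (by rw [pow_one]; rfl))
    (fun u => ⟨ex_pos _ _, by have := (hmem u).1; unfold ex; split_ifs <;> omega⟩)
    (fun u => (hmem u).2.1)
    (by
      refine le_trans (le_of_eq ?_) hbud
      rw [hsum fun p => 1 / (2 * (nn p : ℝ)), hnn]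
      congr 1 <;> refine Finset.sum_congr rfl fun j _ => ?_ <;> split_ifs with e <;> simp [e])
    (fun u => h.rng _ (hro3 _) _ (by have := (hmem u).1; omega))
    (fun u => pow_le_pow_right₀ (by norm_num) (le_trans (Nat.succ_le_succ (Nat.mul_le_mul
      (hmem u).2.2 (by have := (hmem u).1; unfold ex; split_ifs <;> omega))) hN))
    (fun u ν => by
      have h1 := h.box _ (hro3 u.1.1) u.1.2 (by have := (hmem u).1; omega) ν
      have h3 := h.T_pos (hro3 u.1.1) (j := u.1.2) (by have := (hmem u).1; omega) ν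
      have h4 : N ≤ E₀ := by nlinarith
      exact ⟨(pow_le_pow_left₀ h3.le h1 _).trans
        (pow_le_pow_right₀ h.one_le_β ((hmem u).2.2.trans h4)),
        h1.trans (le_self_pow₀ h.one_le_β (by omega))⟩)
    (h.grp_rng hc (fT_le _ _ _)) (h.grp_img ha na 0) (h.grp_img hb nb 0) (h.grp_img hc lc 1)
    (fun u => Δ ^ 2 * Real.exp (s (ro u.1.1) u.1.2))
    (fun u => Δ ^ 6 * Real.exp (cost (s (ro u.1.1) u.1.2) (nn u) Q))
    (fun u => h.img _ (hro3 _) _ (by have := (hmem u).1; omega)) (fun u => by positivity)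
    (fun u => by
      have e : ∏ ν, T (ro u.1.1) u.1.2 ν = Real.exp (s (ro u.1.1) u.1.2) := by
        rw [h.hs _ (hro3 _) _ (hmem u).1, ell, Real.exp_log (Finset.prod_pos fun ν _ =>
          h.T_pos (hro3 _) (by have := (hmem u).1; omega) ν)]
      rw [h.prod_fT hc, ← hQ, e]
      exact moment_const h2 (hmem u).2.1)
  rw [Finset.prod_mul_distrib, Finset.prod_const, Finset.card_univ, ← Real.exp_sum,
    hsum fun p => cost (s (ro p.1) p.2) (nn p) Q] at key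
  have e1 : ∀ t < 3, ∀ m : ℕ → ℕ, ∑ j ∈ range (K + 1), cost (s t j) (m j) Q = SL (K + 1) (s t) m 0 +
      ∑ j ∈ range (K + 1), if m j = 0 then 0 else cost (s t j) (m j) Q := by
    intro t ht m
    rw [SL, ← Finset.sum_add_distrib]
    refine Finset.sum_congr rfl fun j hj => ?_
    split_ifs with e
    · rw [e, cost_zero (h.s_nonneg ht (Finset.mem_range.1 hj)), add_zero]
    · rw [zero_add]
  rw [e1 a ha, e1 b hb]
  simp only [hro, hnn, if_true, Bool.false_eq_true, if_false] at key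
  have e2 : (1 + Fintype.card U : ℝ) ≤ Δ ^ (2 * (K + 1)) := by
    have h3 : 1 + Fintype.card U ≤ 2 ^ (2 * (K + 1)) :=
      (by omega : 1 + Fintype.card U ≤ 2 * (K + 1) + 1).trans Nat.lt_two_pow_self
    calc (1 + Fintype.card U : ℝ) ≤ 2 ^ (2 * (K + 1)) := by exact_mod_cast h3
      _ ≤ _ := by gcongr
  have e3 : (Δ ^ 6) ^ Fintype.card U ≤ (Δ ^ 6) ^ (2 * (K + 1)) :=
    pow_le_pow_right₀ (one_le_pow₀ hΔ) hcard
  refine h.log_le (m := 20 * (K + 1)) (by omega) (key.trans ?_)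
  generalize (∑ j ∈ range (K + 1), if na j = 0 then 0 else cost (s a j) (na j) Q) = y₁
  generalize (∑ j ∈ range (K + 1), if nb j = 0 then 0 else cost (s b j) (nb j) Q) = y₂
  calc _ ≤ Δ ^ (2 * (K + 1)) * Real.exp (SL (K + 1) (s a) na 0) *
        (Δ ^ (2 * (K + 1)) * Real.exp (SL (K + 1) (s b) nb 0) *
        (Δ ^ (2 * (K + 1)) * Real.exp (SL (K + 1) (s c) lc 1))) *
        (Δ ^ (2 * (K + 1)) * ((Δ ^ 6) ^ (2 * (K + 1)) * Real.exp (y₁ + y₂))) := by gcongr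
    _ = _ := by simp only [Real.exp_add]; ring

end Cls

end Pool.Agent.MP_2a5a28_nt.H39

/-! Height and radical of a triple. -/

namespace Pool.Agent.MP_2a5a28_nt

open Finset UniqueFactorizationMonoid

set_option linter.unusedSectionVars false

variable {R : Type*} [CommRing R] [IsDomain R] [IsPrincipalIdealRing R] [NormalizationMonoid R]
  [DecidableEq R] {V : Type*} [Fintype V]

/-- The height of a triple. -/
noncomputable def Emb.hgt (E : Emb R V) (a b c : R) : ℝ :=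
  ∏ ν, max (max |E.σ ν a| |E.σ ν b|) |E.σ ν c|

/-- Product of the norms of the primes dividing `a`. -/
noncomputable def Emb.rd (E : Emb R V) (a : R) : ℝ := ∏ p ∈ primeFactors a, E.N p

theorem Emb.hgt_unit (E : Emb R V) (u : Rˣ) (a b c : R) :
    E.hgt (u * a) (u * b) (u * c) = E.hgt a b c := by
  have h1 := E.N_unit u
  unfold Emb.hgt
  have h2 : ∀ x y z : ℝ, max (|x| * y) (|x| * z) = |x| * max y z := fun x y z =>
    (mul_max_of_nonneg _ _ (abs_nonneg x)).symm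
  simp only [map_mul, abs_mul, h2, Finset.prod_mul_distrib]
  rw [show ∏ ν, |E.σ ν u| = 1 from h1, one_mul]

theorem Emb.rd_unit (E : Emb R V) (u : Rˣ) (a : R) : E.rd (u * a) = E.rd a := by
  have : Associated ((u : R) * a) a := ⟨u⁻¹, by rw [mul_right_comm, Units.mul_inv, one_mul]⟩
  rw [Emb.rd, Emb.rd, this.primeFactors_eq]

theorem Emb.max_le_hgt (E : Emb R V) {a : R} (ha : a ≠ 0) (b c : R) (ν : V) :
    max (max |E.σ ν a| |E.σ ν b|) |E.σ ν c| ≤ |E.σ ν a| * E.hgt a b c := by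
  classical
  have h1 := E.one_le_N ha
  unfold Emb.N at h1
  unfold Emb.hgt
  rw [← Finset.mul_prod_erase _ _ (Finset.mem_univ ν)] at h1 ⊢
  have h2 : ∏ μ ∈ univ.erase ν, |E.σ μ a| ≤
      ∏ μ ∈ univ.erase ν, max (max |E.σ μ a| |E.σ μ b|) |E.σ μ c| :=
    Finset.prod_le_prod (fun _ _ => abs_nonneg _) fun μ _ =>
      (le_max_left _ _).trans (le_max_left _ _)
  have h3 : 0 ≤ max (max |E.σ ν a| |E.σ ν b|) |E.σ ν c| := by positivity
  have h4 := abs_nonneg (E.σ ν a)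
  calc _ = max (max |E.σ ν a| |E.σ ν b|) |E.σ ν c| * 1 := (mul_one _).symm
    _ ≤ max (max |E.σ ν a| |E.σ ν b|) |E.σ ν c| * (|E.σ ν a| *
        ∏ μ ∈ univ.erase ν, max (max |E.σ μ a| |E.σ μ b|) |E.σ μ c|) :=
        mul_le_mul_of_nonneg_left (h1.trans (mul_le_mul_of_nonneg_left h2 h4)) h3
    _ = _ := by ring

theorem Emb.rd_mul (E : Emb R V) {a b : R} (h : IsCoprime a b) :
    E.rd (a * b) = E.rd a * E.rd b := by
  rw [Emb.rd, primeFactors_mul_eq_disjUnion h.isRelPrime, Finset.prod_disjUnion]; rfl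

theorem Emb.rd_eq (E : Emb R V) (f : Ideal R → ℝ) (hf : ∀ p, f (Ideal.span {p}) = E.N p) {t : R}
    (ht : t ≠ 0) : ∏ᶠ (P : Ideal R) (_ : P.IsPrime ∧ P ≠ ⊥ ∧ t ∈ P), f P = E.rd t := by
  have h1 : {P : Ideal R | P.IsPrime ∧ P ≠ ⊥ ∧ t ∈ P} =
      (fun p => Ideal.span {p}) '' (primeFactors t : Set R) := by
    ext P
    constructor
    · rintro ⟨h1, h2, h3⟩
      obtain ⟨g, rfl⟩ := (IsPrincipalIdealRing.principal P).principal
      have hg : g ≠ 0 := fun h => h2 (by simp [h])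
      have hp : Prime g := (Ideal.span_singleton_prime hg).1 h1
      have ha := normalize_associated g
      refine ⟨normalize g, ?_, Ideal.span_singleton_eq_span_singleton.2 ha⟩
      rw [Finset.mem_coe, mem_primeFactors, mem_normalizedFactors_iff' ht]
      exact ⟨(ha.symm.prime hp).irreducible, normalize_idem g,
        ha.dvd.trans (Ideal.mem_span_singleton.1 h3)⟩
    · rintro ⟨p, hp, rfl⟩
      have hp' := Emb.prime_of_mem hp
      exact ⟨(Ideal.span_singleton_prime hp'.ne_zero).2 hp', by simpa using hp'.ne_zero,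
        Ideal.mem_span_singleton.2 (dvd_of_mem_normalizedFactors (mem_primeFactors.1 hp))⟩
  have h2 : Set.InjOn (fun p : R => Ideal.span {p}) (primeFactors t : Set R) := fun p hp q hq e =>
    (Ideal.span_singleton_eq_span_singleton.1 e).eq_of_normalized
      (normalize_normalized_factor p (mem_primeFactors.1 hp))
      (normalize_normalized_factor q (mem_primeFactors.1 hq))
  calc _ = ∏ᶠ P ∈ {P : Ideal R | P.IsPrime ∧ P ≠ ⊥ ∧ t ∈ P}, f P := rfl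
    _ = _ := by
      rw [h1, finprod_mem_image h2, finprod_mem_coe_finset, Emb.rd]
      exact Finset.prod_congr rfl fun p _ => hf p

end Pool.Agent.MP_2a5a28_nt

/-! Factorisation of an element into items, and the choice of the constants. -/

namespace Pool.Agent.MP_2a5a28_nt.H39

open Finset UniqueFactorizationMonoid

set_option linter.unusedSectionVars false

variable {R : Type*} [CommRing R] [IsDomain R] [IsPrincipalIdealRing R] [NormalizationMonoid R]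
  [DecidableEq R] {V : Type*} [Fintype V]

/-- A factorisation `a = π₀ π₁² ⋯ π_{K-1}^K π_K`; `r` is the radical of `π_K`. -/
structure IFac (E : Emb R V) (K : ℕ) (a : R) (π : ℕ → R) (r : R) : Prop where
  eq : a = pw (K + 1) π (ex K)
  r_ne : r ≠ 0
  bal : ∀ j < K, ∀ ν, |E.σ ν (π j)| ^ Fintype.card V ≤ E.c * E.N (π j)
  balr : ∀ ν, |E.σ ν r| ^ Fintype.card V ≤ E.c * E.N r
  pow : E.N r ^ (K + 1) ≤ E.N (π K)
  sm : ∀ p, Prime p → p ∣ π K → p ∣ r
  rad : (∏ j ∈ range K, E.N (π j)) * E.N r = E.rd a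

theorem pw_ex {M : Type*} [CommMonoid M] (K : ℕ) (x : ℕ → M) :
    pw (K + 1) x (ex K) = (∏ j ∈ range K, x j ^ (j + 1)) * x K := by
  rw [pw, Finset.prod_range_succ, ex, if_pos rfl, pow_one]
  congr 1
  exact Finset.prod_congr rfl fun j hj => by rw [ex, if_neg (Finset.mem_range.1 hj).ne]

theorem exists_fac (E : Emb R V) (K : ℕ) {a : R} (ha : a ≠ 0) : ∃ π r, IFac E K a π r := by
  obtain ⟨m, hm⟩ : ∃ m : R → ℕ, m = fun p => Multiset.count p (normalizedFactors a) := ⟨_, rfl⟩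
  obtain ⟨g, hg⟩ : ∃ g : R → ℕ, g = fun p => min (m p - 1) K := ⟨_, rfl⟩
  have hm1 : ∀ p ∈ primeFactors a, 1 ≤ m p := fun p hp => by
    rw [hm]; exact Multiset.one_le_count_iff_mem.2 (mem_primeFactors.1 hp)
  have hmaps : ∀ p ∈ primeFactors a, g p ∈ range (K + 1) := fun p _ => by
    rw [hg, Finset.mem_range]; dsimp only; omega
  obtain ⟨q, hq⟩ : ∃ q : ℕ → R, q = fun j => ∏ p ∈ primeFactors a with g p = j, p := ⟨_, rfl⟩
  obtain ⟨τ, hτ⟩ : ∃ τ : R, τ = ∏ p ∈ primeFactors a with g p = K, p ^ m p := ⟨_, rfl⟩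
  have hq0 : ∀ j, q j ≠ 0 := fun j => by
    rw [hq]
    exact Finset.prod_ne_zero_iff.2 fun p hp => (Emb.prime_of_mem (Finset.mem_filter.1 hp).1).ne_zero
  have hass : Associated ((∏ j ∈ range K, q j ^ (j + 1)) * τ) a := by
    have h1 : ∏ p ∈ primeFactors a, p ^ m p = (normalizedFactors a).prod := by
      rw [Finset.prod_multiset_count, toFinset_normalizedFactors, hm]
    have h2 : ∀ j ∈ range K, q j ^ (j + 1) = ∏ p ∈ primeFactors a with g p = j, p ^ m p := by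
      intro j hj
      rw [hq]; dsimp only
      rw [← Finset.prod_pow]
      refine Finset.prod_congr rfl fun p hp => ?_
      obtain ⟨hp1, hp2⟩ := Finset.mem_filter.1 hp
      have := hm1 p hp1
      have := Finset.mem_range.1 hj
      rw [hg] at hp2; dsimp only at hp2
      congr 1; omega
    have h3 := Finset.prod_fiberwise_of_maps_to hmaps (fun p => p ^ m p)
    rw [Finset.prod_range_succ, ← Finset.prod_congr rfl h2, ← hτ, h1] at h3
    rw [h3]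
    exact prod_normalizedFactors ha
  have hrad : (∏ j ∈ range K, E.N (q j)) * E.N (q K) = E.rd a := by
    rw [Emb.rd, ← Finset.prod_fiberwise_of_maps_to hmaps (fun p => E.N p), Finset.prod_range_succ, hq]
    simp only [E.N_prod]
  have h5 : E.N (q K) ^ (K + 1) ≤ E.N τ := by
    rw [hq, hτ]; dsimp only
    rw [E.N_prod, E.N_prod, ← Finset.prod_pow]
    refine Finset.prod_le_prod (fun p _ => pow_nonneg (E.N_nonneg p) _) fun p hp => ?_
    obtain ⟨hp1, hp2⟩ := Finset.mem_filter.1 hp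
    have := hm1 p hp1
    rw [E.N_pow]
    rw [hg] at hp2; dsimp only at hp2
    exact pow_le_pow_right₀ (E.one_le_N (Emb.prime_of_mem hp1).ne_zero) (by omega)
  have hsm : ∀ p, Prime p → p ∣ τ → p ∣ q K := by
    intro p hp h
    rw [hτ] at h
    obtain ⟨s, hs, hd⟩ := (Prime.dvd_finsetProd_iff hp _).1 h
    rw [hq]
    exact (hp.dvd_of_dvd_pow hd).trans (Finset.dvd_prod_of_mem _ hs)
  have hb : ∀ j, ∃ u : Rˣ, ∀ ν, |E.σ ν (u * q j)| ^ Fintype.card V ≤ E.c * E.N (q j) :=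
    fun j => E.balance _ (hq0 j)
  choose u hu using hb
  have hN : ∀ j, E.N (u j * q j) = E.N (q j) := fun j => by rw [E.N_mul, E.N_unit, one_mul]
  obtain ⟨w, hw⟩ := hass
  obtain ⟨v, hv⟩ : ∃ v : Rˣ, v = w * (∏ j ∈ range K, u j ^ (j + 1))⁻¹ := ⟨_, rfl⟩
  have hv' : (∏ j ∈ range K, (u j : R) ^ (j + 1)) * v = w := by
    have : (∏ j ∈ range K, u j ^ (j + 1)) * v = w := by rw [hv, mul_comm, inv_mul_cancel_right]
    simpa using congrArg Units.val this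
  have e : ∀ j ∈ range K, (if j = K then τ * v else u j * q j) = u j * q j := fun j hj =>
    if_neg (Finset.mem_range.1 hj).ne
  refine ⟨fun j => if j = K then τ * v else u j * q j, u K * q K, ?_, ?_, ?_, ?_, ?_, ?_, ?_⟩
  · rw [pw_ex, Finset.prod_congr rfl fun j hj => by rw [e j hj, mul_pow], if_pos rfl,
      Finset.prod_mul_distrib, ← hw, ← hv']
    ring
  · exact mul_ne_zero (u K).ne_zero (hq0 K)
  · intro j hj ν
    rw [if_neg hj.ne, hN]; exact hu j ν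
  · intro ν; rw [hN]; exact hu K ν
  · rw [if_pos rfl, hN, E.N_mul, E.N_unit, mul_one]; exact h5
  · intro p hp h
    rw [if_pos rfl] at h
    exact (hsm p hp ((Units.dvd_mul_right).1 h)).mul_left _
  · rw [Finset.prod_congr rfl fun j hj => by rw [e j hj, hN], hN, hrad]

theorem IFac.dvd {E : Emb R V} {K : ℕ} {a : R} {π : ℕ → R} {r : R} (h : IFac E K a π r) {j : ℕ}
    (hj : j < K + 1) : π j ∣ a := by
  rw [h.eq]
  exact (dvd_pow_self _ (ex_pos K j).ne').trans (Finset.dvd_prod_of_mem (fun j => π j ^ ex K j)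
    (Finset.mem_range.2 hj))

theorem IFac.box {E : Emb R V} {K E₀ : ℕ} {a : R} {π : ℕ → R} {r : R} (h : IFac E K a π r)
    (hE : ∑ j ∈ range (K + 1), ex K j ≤ E₀) (ha : a ≠ 0) {β : ℝ} (hβ : 1 ≤ β)
    (hb : ∀ ν, |E.σ ν a| ≤ β) :
    (∀ j < K + 1, ∀ ν, |E.σ ν (π j)| ≤ ((E.c * β) ^ E₀) ^ Fintype.card V) ∧
      E.N r ≤ ((E.c * β) ^ E₀) ^ Fintype.card V := by
  have hc := E.one_le_c
  have hcβ : β ≤ E.c * β := le_mul_of_one_le_left (by linarith) hc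
  have h1 : 1 ≤ E.c * β := hβ.trans hcβ
  have hE' : ∑ j ∈ range K, (j + 1) + 1 ≤ E₀ := by
    rw [Finset.sum_range_succ, ex, if_pos rfl, Finset.sum_congr rfl fun j hj => by
      rw [ex, if_neg (Finset.mem_range.1 hj).ne]] at hE
    exact hE
  have h10 : E.c * β ≤ (E.c * β) ^ E₀ := le_self_pow₀ h1 (by omega)
  have hNa := E.N_le_pow hb
  have hπ : ∀ j < K, ∀ ν, |E.σ ν (π j)| ≤ E.c * β := fun j hj ν => by
    refine le_of_pow_le_pow_left₀ E.pos_card.ne' (by positivity) ((h.bal j hj ν).trans ?_)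
    rw [mul_pow]
    exact mul_le_mul (le_self_pow₀ hc E.pos_card.ne')
      ((E.N_le_of_dvd (h.dvd (by omega)) ha).trans hNa) (E.N_nonneg _) (by positivity)
  refine ⟨fun j hj ν => ?_, ?_⟩
  · by_cases h4 : j = K
    · subst h4
      refine E.box_of_mul (d := ∏ i ∈ range j, π i ^ (i + 1)) ?_ (fun ν => ?_) (fun ν => ?_) ν
      · intro h0
        apply ha
        rw [h.eq, pw_ex, h0, zero_mul]
      · simp only [map_prod, map_pow, Finset.abs_prod, abs_pow]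
        calc _ ≤ ∏ i ∈ range j, (E.c * β) ^ (i + 1) :=
              Finset.prod_le_prod (fun _ _ => by positivity) fun i hi =>
                pow_le_pow_left₀ (abs_nonneg _) (hπ i (Finset.mem_range.1 hi) ν) _
          _ ≤ _ := by
              rw [Finset.prod_pow_eq_pow_sum]
              exact pow_le_pow_right₀ h1 (by omega)
      · rw [← pw_ex, ← h.eq]
        exact (hb ν).trans (hcβ.trans h10)
    · exact (hπ j (by omega) ν).trans (h10.trans (le_self_pow₀ (h1.trans h10) E.pos_card.ne'))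
  · calc E.N r ≤ E.N r ^ (K + 1) := le_self_pow₀ (E.one_le_N h.r_ne) (by omega)
      _ ≤ β ^ Fintype.card V := h.pow.trans ((E.N_le_of_dvd (h.dvd (by omega)) ha).trans hNa)
      _ ≤ _ := pow_le_pow_left₀ (by linarith) (hcβ.trans h10) _

theorem exists_ctx (E : Emb R V) (hfin : ∀ q : R, q ≠ 0 → Finite (R ⧸ Ideal.span {q})) {G : ℕ}
    (hG : 1 ≤ G) {κ δ : ℝ} (hκ : 1 ≤ κ) (hδ : 0 < δ) :
    ∃ C : ℝ, 2 * E.c ^ 2 ≤ C ∧ ∀ B : ℝ, 1 ≤ B → Ctx E G κ B (C * B ^ δ) := by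
  obtain ⟨C₁, hC₁, h₁⟩ := E.exists_small δ hδ
  obtain ⟨C₂, hC₂, h₂⟩ := E.pow_omega_le G δ (by exact_mod_cast hG) hδ
  have hq : ((G.factorial : R) ^ 2) ≠ 0 := by
    obtain ⟨ν⟩ : Nonempty V := Fintype.card_pos_iff.1 E.pos_card
    refine pow_ne_zero _ fun h => G.factorial_ne_zero ?_
    have := congrArg (E.σ ν) h
    rw [map_natCast, map_zero] at this
    exact_mod_cast this
  have := hfin _ hq
  obtain ⟨n, ⟨e⟩⟩ := Finite.exists_equiv_fin (R ⧸ Ideal.span {(G.factorial : R) ^ 2})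
  have h0 : 0 ≤ (6 * G * κ ^ (2 * G + 5)) ^ Fintype.card V := by positivity
  have h1 : 0 ≤ 2 * E.c ^ 2 := by positivity
  have h2 : (0 : ℝ) ≤ n := Nat.cast_nonneg n
  obtain ⟨C, hC⟩ : ∃ C, C = C₁ + C₂ + n + (6 * G * κ ^ (2 * G + 5)) ^ Fintype.card V + 2 * E.c ^ 2 :=
    ⟨_, rfl⟩
  refine ⟨C, by linarith, fun B hB => ?_⟩
  have hB1 : 1 ≤ B ^ δ := Real.one_le_rpow hB hδ.le
  have k1 : C₁ * B ^ δ ≤ C * B ^ δ := mul_le_mul_of_nonneg_right (by linarith) (by linarith)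
  have k2 : C ≤ C * B ^ δ := le_mul_of_one_le_right (by linarith) hB1
  have hs := h₁ B hB
  refine ⟨⟨hs.one_le.trans k1, fun r h1 h2 S h3 => (hs.smooth r h1 h2 S h3).trans k1,
    fun r h1 h2 => (hs.omega r h1 h2).trans k1⟩, hG, hκ, fun r hr hN => (h₂ r hr).trans ?_,
    ⟨fun a => e (Ideal.Quotient.mk _ a), fun S => ?_, fun a b h g h1 h2 => ?_⟩, by linarith⟩
  · exact mul_le_mul (by linarith) (Real.rpow_le_rpow (E.N_nonneg r) hN hδ.le)
      (Real.rpow_nonneg (E.N_nonneg r) _) (by linarith)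
  · have : (S.image fun a => (e (Ideal.Quotient.mk _ a) : ℕ)).card ≤ (range n).card :=
      Finset.card_le_card fun x hx => by
        obtain ⟨a, -, rfl⟩ := Finset.mem_image.1 hx
        exact Finset.mem_range.2 (Fin.is_lt _)
    rw [Finset.card_range] at this
    have : ((S.image fun a => (e (Ideal.Quotient.mk _ a) : ℕ)).card : ℝ) ≤ n := by exact_mod_cast this
    linarith
  · refine (pow_dvd_pow_of_dvd (Nat.cast_dvd_cast (Nat.dvd_factorial h1 h2)) 2).trans ?_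
    exact Ideal.mem_span_singleton.1 (Ideal.Quotient.eq.1 (e.injective (Fin.ext h)))

end Pool.Agent.MP_2a5a28_nt.H39
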